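import Pool.Agent.H606.AV.Stm

set_option autoImplicit false

/-!
# Project AV (helper606), part 5: Lindelöf bounds on the line `1/2 + h` and FEW zeros of the average away from the line (pure complex analysis, Mathlib only)

Goal (very famous page MP_4e5e8a_nt, Lindelöf hypothesis): for every fixed `0 < h < 1/2`: `|ζ(1/2 + h + it)| ≤ C_ε t^ε` for all `ε` iff for all `a > 0` the average `A_h(s) = ξ(s+h) + ξ(s-h)` has `o(log T)` zeros
(with multiplicity) with `Re s ≥ 1/2 + a`, `T < Im s ≤ T + 1`; locally and in both directions; so the Lindelöf hypothesis holds iff this is true for all `h`.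
Deliver each as `theorem X_proof : S_X` (or with the listed hypotheses).
-/

open Complex Filter Topology Metric Set MeasureTheory

namespace Pool.Agent.H606.AV

noncomputable section

/-- the number of the zeros of `g` in `S`, with multiplicity -/
def Nm (g : ℂ → ℂ) (S : Set ℂ) : ℝ := ∑ᶠ z ∈ {z : ℂ | z ∈ S ∧ g z = 0}, (analyticOrderNatAt g z : ℝ)

open Classical in
/-- **FACB.** Factorisation. No hypotheses.

Proof. Strong induction on the total order of the zeros in `ball c R` (finite: `g` is entire and not identically zero, zeros are isolated and the closed ball is compact), dividing by `z - w` (`g z = (z - w) g1 z` with `g1` entire: `dslope` / `Pool/Agent/H477/Jen/Fact.lean`, `exists_div`; `analyticOrderAt_mul`),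
or use Mathlib's `MeromorphicOn.extract_zeros_poles`. `s` contains each zero `w` in the ball `analyticOrderNatAt g w` times. -/
def S_FACB : Prop := ∀ (g : ℂ → ℂ) (c : ℂ) (R : ℝ), 0 < R → Differentiable ℂ g → g c ≠ 0 → ∃ (s : Multiset ℂ) (k : ℂ → ℂ), Differentiable ℂ k ∧
  (∀ z : ℂ, g z = k z * (s.map (fun w => z - w)).prod) ∧ (∀ z ∈ ball c R, k z ≠ 0) ∧ (∀ w ∈ s, w ∈ ball c R ∧ g w = 0) ∧
  ∀ S : Set ℂ, S ⊆ ball c R → Nm g S = ((s.filter (fun w => w ∈ S)).card : ℝ)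

/-- **BLA.** Blaschke factors. From `S_FACB`.

Proof. `B_w(z) = R (z - w) / (R² - conj(w - c) (z - c))` for `w ∈ ball c R`: `|B_w| < 1` in the ball, `|B_w(z)| → 1` for `|z - c| → R`, `|B_w(c)| = |w - c|/R`, `|B_w(z)| ≥ |z - w|/(2R)`. `b z = k z * ∏_{w ∈ s} (R² - conj(w-c)(z-c))/R`, so `g = b ∏ B_w` in the ball. (3) maximum principle on circles of radius `r' → R`.
(4) `|b z| = |g z| / ∏ |B_w z| ≤ |g z| (2R/ρ)^n`. (5) `|g c| = |b c| ∏ |w - c|/R ≤ S (r/R)^{n_r}`. -/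
def S_BLA : Prop := ∀ (g : ℂ → ℂ) (c : ℂ) (R : ℝ), 0 < R → Differentiable ℂ g → g c ≠ 0 → ∃ b : ℂ → ℂ,
  DifferentiableOn ℂ b (ball c R) ∧ (∀ z ∈ ball c R, b z ≠ 0) ∧ (∀ z ∈ ball c R, ‖g z‖ ≤ ‖b z‖) ∧
  (∀ S : ℝ, (∀ z ∈ ball c R, ‖g z‖ ≤ S) → ∀ z ∈ ball c R, ‖b z‖ ≤ S) ∧
  (∀ ρ : ℝ, 0 < ρ → ρ ≤ R → ∀ z ∈ ball c R, (∀ w ∈ ball c R, g w = 0 → ρ ≤ ‖z - w‖) → ‖b z‖ ≤ ‖g z‖ * (2 * R / ρ) ^ (Nm g (ball c R))) ∧
  (∀ r S : ℝ, 0 < r → r < R → (∀ z ∈ ball c R, ‖g z‖ ≤ S) → Nm g (closedBall c r) * Real.log (R / r) ≤ Real.log (S / ‖g c‖))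

/-- **NMT.** Elementary properties of `Nm`. No hypotheses.

Proof. The map `v ↦ x + v` is a bijection between the zeros and `analyticOrderNatAt` is invariant (`analyticOrderAt_comp_of_deriv_ne_zero` or the definition); a nonvanishing analytic factor does not change the order (`analyticOrderAt_mul`, `AnalyticAt.analyticOrderAt_eq_zero`);
the zeros in a bounded set are finitely many if `g` is entire and not identically zero, so `finsum_mem` is monotone / subadditive. -/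
def S_NMT : Prop :=
  (∀ (g : ℂ → ℂ) (S : Set ℂ) (x : ℂ), Nm (fun v => g (x + v)) S = Nm g ((fun v => x + v) '' S)) ∧
  (∀ (g : ℂ → ℂ) (S : Set ℂ) (p q : ℂ), Differentiable ℂ g → Nm (fun z => g z * Complex.exp (p * z + q)) S = Nm g S) ∧
  (∀ (g : ℂ → ℂ) (S S' : Set ℂ), Differentiable ℂ g → (∃ z, g z ≠ 0) → Bornology.IsBounded S' → S ⊆ S' → Nm g S ≤ Nm g S') ∧
  (∀ (g : ℂ → ℂ) (S : Set ℂ) (n : ℕ) (U : ℕ → Set ℂ) (K : ℝ), Differentiable ℂ g → (∃ z, g z ≠ 0) → (∀ j < n, Bornology.IsBounded (U j)) →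
    (∀ z ∈ S, ∃ j < n, z ∈ U j) → (∀ j < n, Nm g (U j) ≤ K) → Nm g S ≤ n * K)

/-- **REGF.** Upper bound of the average if it has few zeros near by. From `S_PROP`, `S_BLA`, `S_NMT`. (Compare `S_REG`, whose proof is `Pool/Agent/H328/AV/Reg.lean`; edit that file.)

Proof. `κ = η`. As in `S_REG` (i): `Av f h v ≠ 0` for `|re v| ≤ 1`, `1/2 ≤ -im v ≤ 2`. So all zeros of `g = Av f h` in `ball (-I) (1 - a/2)` lie in the set of the hypothesis, `Nm g (ball (-I) (1 - a/2)) ≤ κ lam`. `S_BLA` with `c = -I`, `R = 1 - a/2` gives `b`; `B(z) = b(z) exp(-i lam z)/(M e^{lam h})`: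
nonvanishing and `‖B‖ ≤ 2 exp(4 lam) ≤ exp(5 lam)` on the ball. On `ball (-I) (1/8)`: `exp(-(2η lam)) ≤ ‖B‖` (main term of `g`, `‖g‖ ≤ ‖b‖`) and, as the zeros have depth `< 1/2`, so distance `≥ 3/8 = ρ`: `‖B‖ ≤ exp(2η lam) (2R/ρ)^{κ lam} ≤ exp((2η + 2κ) lam)` (`log(16/3) ≤ 2`).
`S_PROP` with `ρ = 1/8`, `s = 1 - a`, `R = 1 - a/2`, `A = 5`, `η' = e`, at `z = -(I y)`: `‖g z‖ ≤ ‖b z‖ = ‖B z‖ M e^{lam h} e^{lam y}`. -/
def S_REGF : Prop := ∀ h a e : ℝ, 0 < h → h ≤ 1 / 2 → 0 < a → a ≤ 1 / 2 → 0 < e → ∃ δ η κ lam0 : ℝ, 0 < δ ∧ 0 < η ∧ 0 < κ ∧ 1 ≤ lam0 ∧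
  ∀ (f : ℂ → ℂ) (M lam : ℝ), 0 < M → lam0 ≤ lam → LB f M lam (1 / 2) δ η →
  Nm (Av f h) {v : ℂ | |v.re| ≤ 1 ∧ -(1 / 2) < v.im ∧ v.im ≤ -(a / 2)} ≤ κ * lam →
  ∀ y : ℝ, a ≤ y → y ≤ 1 → ‖Av f h (-(I * y))‖ ≤ M * Real.exp (lam * (y + h) + e * lam)

/-- **LINF.** The bound of `X` at the distance `h` if the average has few zeros away from the real axis. From `S_POI`, `S_REGF`, `S_NMT`. (The proof of `S_LINA` is `Pool/Agent/H187/AV/Lina.lean`; edit that file: `S_REG` is replaced by `S_REGF`, only its upper bound was used there.)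

Proof. As `S_LINA` in `Stm.lean`; `a` there is `a0 = min(e, h, 1/2)/4`, `a := a0/2` here, `κ := κ0/4`, `κ0` from `S_REGF` (`κ0 lt x ≥ κ log x` for `x` large by `Env.ltlog`); the zero count of `Av (X(x + ·)) h = (Av X h)(x + ·)` by `S_NMT`. -/
def S_LINF : Prop := ∀ (X : ℂ → ℂ) (M lt : ℝ → ℝ), Env X M lt → ∀ h e : ℝ, 0 < h → h < 1 / 2 → 0 < e → ∃ a κ B T0 : ℝ, 0 < a ∧ 0 < κ ∧ 0 < B ∧
  ∀ t : ℝ, T0 ≤ t → (∀ x : ℝ, |x - t| ≤ B * Real.log t → Nm (Av X h) {w : ℂ | |w.re - x| ≤ 1 ∧ -(1 / 2) < w.im ∧ w.im ≤ -a} ≤ κ * Real.log x) →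
  ‖X (t - I * h)‖ ≤ M t * Real.exp (lt t * (h + e))

/-- **JENF.** Few zeros of the average if `X` is small at the distance `h`. From `S_BLA`, `S_NMT`.

Proof. `e1 = e1(a, e)` small, `η = e1`. (i) `Env.max` with `Y1 = -h`, `Y2 = h`, `μ = 0`, `β = h + e1`, `η = e1` (the line `im = h` by `Env.conj`): `‖X (t + v)‖ ≤ M t exp(lt t (h + 2 e1))` for `|re v| ≤ 6`, `|im v| ≤ h`; with `Y1 = h`, `Y2 = 1/2 + d`, `d = min(1/4, e1)`, `μ = 1`, `β = 2 e1` (on `im = -(1/2+d)`: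
`Env.loc` at the height `t + re v` and `Env.mtd`, as in the proof of `S_STRA`): `‖X(t+v)‖ ≤ M t exp(lt t (-im v + 3 e1))` for `|re v| ≤ 6`, `h ≤ -im v ≤ 1/2 + d`; for `1/2 + d ≤ -im v ≤ 5/2`, `|re v| ≤ 3`: `Env.loc`, `LB.up`. So with `y = -im v ∈ (0, 2)`: `‖Av X h (t + v)‖ ≤ 2 M t exp(lt t (y + h + 4 e1))`
(`y + h ≥ max(|y - h|, h)`) for `|re v| ≤ 3`. (ii) `g1(z) = Av X h z * exp(-i lt t (z - t))` (same zeros and multiplicities, `S_NMT`): `|g1| ≤ 2 M t exp(lt t (h + 4 e1))` for `|re z - t| ≤ 3`, `0 < -im z < 2`. For `c = x - I`, `|x - t| ≤ 1`: `|g1 c| ≥ (1/2) M t exp(lt t (h - 2 e1))` (`LB.low` for `X(c - ih)`; the other term has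
exponent `max(1-h, 1/2)` and `1 + h - max(1 - h, 1/2) ≥ min(2h, 1/2)`). (iii) `S_BLA` (5) with `R = 1`, `r = 1 - a/2`: `Nm g1 (closedBall c (1 - a/2)) * log(1/(1 - a/2)) ≤ log(4 exp(6 e1 lt t))`. The set is covered by `≤ 2/a + 2` such balls with `|re z - x| ≤ a/2`: `a²/4 + (1-a)² ≤ (1 - a/2)²`. Choose `e1` so that the total is `≤ e log t`. -/
def S_JENF : Prop := ∀ (X : ℂ → ℂ) (M lt : ℝ → ℝ), Env X M lt → ∀ h a e : ℝ, 0 < h → h < 1 / 2 → 0 < a → a ≤ 1 / 2 → 0 < e → ∃ η T0 : ℝ, 0 < η ∧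
  ∀ t : ℝ, T0 ≤ t → (∀ x : ℝ, |x - t| ≤ Real.log t → ‖X (x - I * h)‖ ≤ M t * Real.exp (lt t * (h + η) + |x - t|)) →
  Nm (Av X h) {w : ℂ | |w.re - t| ≤ 1 ∧ -(1 / 2) < w.im ∧ w.im ≤ -a} ≤ e * Real.log t

end

end Pool.Agent.H606.AV
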