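import Pool.Agent.H606.AV.Fin
import Pool.Agent.H606.AV.Stm5

set_option autoImplicit false

/-!
# Project LF (helper606): zeta and `Ξ` at the distance `y` from the critical line; bounds between lines
-/

open Finset Complex Filter Topology Metric Set MeasureTheory

namespace Pool.Agent.H606.AV

open Pool.Agent.Helper242.KK (FT Ph)
open Pool.Agent.H477.Jen
open Pool.Agent.H477.E Pool.Agent.H477.EU
open Pool.Agent.H477.S (Mt lt Wf ZR)

/-- `Ξ(t - iy)` and `ζ(1/2 + y + it)` -/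
theorem link : ∃ T0 : ℝ, 4 ≤ T0 ∧ ∀ t : ℝ, T0 ≤ t → ∀ y : ℝ, 0 ≤ y → y ≤ 1 / 2 →
    1 / 2 * (Mt t * Real.exp (lt t * y)) * ‖riemannZeta (1 / 2 + y + I * t)‖ ≤ ‖FT Ph (t - I * y)‖ ∧
    ‖FT Ph (t - I * y)‖ ≤ 2 * (Mt t * Real.exp (lt t * y)) * ‖riemannZeta (1 / 2 + y + I * t)‖ := by
  obtain ⟨C, hC⟩ : ∃ C : ℝ, C = 17 * Real.exp 68 := ⟨_, rfl⟩
  have hC0 : 0 < C := by rw [hC]; positivity
  refine ⟨max 4 (2 * (C * 4)), le_max_left _ _, fun t ht y h0 h1 => ?_⟩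
  have a2 : 4 ≤ t := (le_max_left _ _).trans ht
  have a3 : 2 * (C * 4) ≤ t := (le_max_right _ _).trans ht
  have ht0 : 0 < t := by linarith
  have hMt := Pool.Agent.H477.S.Mt_pos (show (1 : ℝ) ≤ t by linarith)
  have hnv : ‖-(I * (y : ℂ))‖ = y := by
    rw [norm_neg, norm_mul, norm_I, one_mul, Complex.norm_real, Real.norm_eq_abs, abs_of_nonneg h0]
  obtain ⟨θ, hθ1, hθ2⟩ := fact_R (t := t) a2 (v := -(I * (y : ℂ))) (by simp; exact h0) (by
    rw [hnv]
    have : y ^ 2 ≤ 1 ^ 2 := pow_le_pow_left₀ h0 (by linarith) 2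
    linarith)
  rw [hnv, ← hC] at hθ1
  have hθ : ‖θ‖ ≤ 1 / 2 := by
    refine hθ1.trans ?_
    rw [div_le_iff₀ ht0]
    have h3 : (1 + y) ^ 2 ≤ 2 ^ 2 := pow_le_pow_left₀ (by linarith) (by linarith) 2
    have h4 : C * (1 + y) ^ 2 ≤ C * 2 ^ 2 := mul_le_mul_of_nonneg_left h3 hC0.le
    linarith
  have hθl : 1 / 2 ≤ ‖1 + θ‖ := by
    have h5 := norm_sub_norm_le (1 : ℂ) (-θ)
    rw [norm_one, norm_neg, sub_neg_eq_add] at h5
    linarith
  have hθu : ‖1 + θ‖ ≤ 2 := by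
    have h5 := norm_add_le (1 : ℂ) θ
    rw [norm_one] at h5
    linarith
  have hexp : ‖cexp (I * lamR t * -(I * (y : ℂ)))‖ = Real.exp (lt t * y) := by
    rw [norm_exp]
    congr 1
    have e : I * lamR t * -(I * (y : ℂ)) = lamR t * y := by
      linear_combination (-(lamR t * y)) * I_sq
    rw [e, Complex.re_mul_ofReal]
    rfl
  have es : (1 / 2 : ℂ) + I * (t + -(I * (y : ℂ))) = 1 / 2 + y + I * t := by
    linear_combination (-(y : ℂ)) * I_sq
  have hre : 0 < ((1 / 2 : ℂ) + y + I * t).re := by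
    simp
    linarith
  have hne : (1 / 2 : ℂ) + y + I * t ≠ 1 := ne_one_of_im (by simp; linarith)
  have e2 : (t : ℂ) - I * y = t + -(I * (y : ℂ)) := by ring
  have e3 : ‖HR (1 / 2 + I * t)‖ = Mt t := rfl
  have key : ‖FT Ph (t - I * y)‖ = Mt t * Real.exp (lt t * y) * ‖1 + θ‖ * ‖riemannZeta (1 / 2 + y + I * t)‖ := by
    rw [e2, FT_Ph_eq es.symm hre hne, ← es, hθ2, norm_mul, norm_mul, norm_mul, hexp, es, e3]
  rw [key]
  have hp : 0 ≤ Mt t * Real.exp (lt t * y) := (mul_pos hMt (Real.exp_pos _)).le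
  have hz := norm_nonneg (riemannZeta (1 / 2 + y + I * t))
  constructor
  · refine mul_le_mul_of_nonneg_right ?_ hz
    rw [mul_comm (1 / 2 : ℝ)]
    exact mul_le_mul_of_nonneg_left hθl hp
  · refine mul_le_mul_of_nonneg_right ?_ hz
    rw [mul_comm (2 : ℝ)]
    exact mul_le_mul_of_nonneg_left hθu hp

/-- from `Ξ` to zeta -/
theorem zeta_of_X {e : ℝ} (he : 0 < e) : ∃ T0 : ℝ, 4 ≤ T0 ∧ ∀ t : ℝ, T0 ≤ t → ∀ y e' : ℝ, 0 ≤ y → y ≤ 1 / 2 → 0 ≤ e' →
    ‖FT Ph (t - I * y)‖ ≤ Mt t * Real.exp (lt t * (y + e')) → ‖riemannZeta (1 / 2 + y + I * t)‖ ≤ t ^ (e' / 2 + e) := by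
  obtain ⟨T0, h4, H⟩ := link
  refine ⟨max T0 (Real.exp (1 / e)), h4.trans (le_max_left _ _), fun t ht y e' h0 h1 he' h2 => ?_⟩
  have a1 : T0 ≤ t := (le_max_left _ _).trans ht
  have a4 : Real.exp (1 / e) ≤ t := (le_max_right _ _).trans ht
  have ht0 : 0 < t := by linarith
  have hMt := Pool.Agent.H477.S.Mt_pos (show (1 : ℝ) ≤ t by linarith)
  obtain ⟨k1, -⟩ := H t a1 y h0 h1
  obtain ⟨Z, hZ⟩ : ∃ Z : ℝ, Z = ‖riemannZeta (1 / 2 + y + I * t)‖ := ⟨_, rfl⟩
  rw [← hZ] at k1 ⊢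
  have e4 : Real.exp (lt t * (y + e')) = Real.exp (lt t * y) * Real.exp (lt t * e') := by
    rw [← Real.exp_add]
    congr 1
    ring
  rw [e4] at h2
  have h7 : Mt t * Real.exp (lt t * y) * ((1 / 2) * Z) ≤ Mt t * Real.exp (lt t * y) * Real.exp (lt t * e') := by
    calc _ = 1 / 2 * (Mt t * Real.exp (lt t * y)) * Z := by ring
      _ ≤ _ := k1
      _ ≤ _ := h2
      _ = _ := by ring
  have h8 : (1 / 2) * Z ≤ Real.exp (lt t * e') :=
    le_of_mul_le_mul_left h7 (mul_pos hMt (Real.exp_pos _))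
  have hlog : 1 / e ≤ Real.log t := by
    rw [Real.le_log_iff_exp_le ht0]
    exact a4
  have h9 : 1 ≤ e * Real.log t := by
    rw [div_le_iff₀ he] at hlog
    linarith
  have h10 := Pool.Agent.H477.S.lt_le (show (1 : ℝ) ≤ t by linarith)
  have h11 : Real.log 2 ≤ 1 := by linarith [Real.log_two_lt_d9]
  have h12 : lt t * e' ≤ 1 / 2 * Real.log t * e' := mul_le_mul_of_nonneg_right h10 he'
  calc Z = 2 * ((1 / 2) * Z) := by ring
    _ ≤ 2 * Real.exp (lt t * e') := by linarith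
    _ = Real.exp (Real.log 2) * Real.exp (lt t * e') := by rw [Real.exp_log two_pos]
    _ = Real.exp (Real.log 2 + lt t * e') := (Real.exp_add _ _).symm
    _ ≤ Real.exp (Real.log t * (e' / 2 + e)) := Real.exp_le_exp.2 (by linarith)
    _ = t ^ (e' / 2 + e) := (Real.rpow_def_of_pos ht0 _).symm

/-- from zeta to `Ξ`, in a window of length `log t` -/
theorem X_of_zeta {η : ℝ} (hη : 0 < η) : ∃ T0 : ℝ, 4 ≤ T0 ∧ ∀ t : ℝ, T0 ≤ t → ∀ y : ℝ, 0 ≤ y → y ≤ 1 / 2 →
    (∀ x : ℝ, |x - t| ≤ Real.log t → ‖riemannZeta (1 / 2 + y + I * x)‖ ≤ t ^ (η / 4)) →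
    ∀ x : ℝ, |x - t| ≤ Real.log t → ‖FT Ph (x - I * y)‖ ≤ Mt t * Real.exp (lt t * (y + η) + |x - t|) := by
  obtain ⟨T0, h4, H⟩ := link
  obtain ⟨T1, H1⟩ := Pool.Agent.H477.S.q_mtd 1 one_pos
  obtain ⟨T2, hT2⟩ := Pool.Agent.H297.N.large_B 1
  refine ⟨max (max (2 * T0) T1) (max T2 (Real.exp (12 / η + 4))), ?_, fun t ht y h0 h1 h2 x hx => ?_⟩
  · refine le_trans ?_ ((le_max_left _ _).trans (le_max_left _ _))
    linarith
  have a1 : 2 * T0 ≤ t := ((le_max_left _ _).trans (le_max_left _ _)).trans ht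
  have a2 : T1 ≤ t := ((le_max_right _ _).trans (le_max_left _ _)).trans ht
  have a3 : T2 ≤ t := ((le_max_left _ _).trans (le_max_right _ _)).trans ht
  have a4 : Real.exp (12 / η + 4) ≤ t := ((le_max_right _ _).trans (le_max_right _ _)).trans ht
  have ht0 : 0 < t := by linarith
  have hMt := Pool.Agent.H477.S.Mt_pos (show (1 : ℝ) ≤ t by linarith)
  have a5 := hT2 t a3
  rw [one_mul] at a5
  have hx' := abs_le.1 hx
  have hxt : t / 2 ≤ x := by linarith
  have hxT : T0 ≤ x := by linarith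
  obtain ⟨-, k2⟩ := H x hxT y h0 h1
  have m := H1 t a2 (x - t) (by rw [one_mul]; exact hx)
  have m1 := m.2.1
  have m2 := m.2.2
  have e0 : t + (x - t) = x := by ring
  rw [e0] at m1 m2
  have hlog : 12 / η + 4 ≤ Real.log t := by
    rw [Real.le_log_iff_exp_le ht0]
    exact a4
  have hlt := Pool.Agent.H477.S.lt_ge (show (1 : ℝ) ≤ t by linarith)
  have hMx := Pool.Agent.H477.S.Mt_pos (show (1 : ℝ) ≤ x by linarith)
  have hz := h2 x hx
  have m3 : lt x ≤ lt t + 1 := by linarith [(abs_le.1 m2).2]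
  have h5 : lt x * y ≤ lt t * y + 1 / 2 := by
    calc lt x * y ≤ (lt t + 1) * y := mul_le_mul_of_nonneg_right m3 h0
      _ = lt t * y + y := by ring
      _ ≤ _ := by linarith
  have h6 : 4 * (Real.exp (1 / 2) * t ^ (η / 4)) ≤ Real.exp (lt t * η) := by
    rw [Real.rpow_def_of_pos ht0, ← Real.exp_add]
    have h11 : (4 : ℝ) ≤ Real.exp 2 := by
      have h12 : (2 : ℝ) ≤ Real.exp 1 := by
        have := Real.add_one_le_exp (1 : ℝ)
        linarith
      have h13 : Real.exp 2 = Real.exp 1 * Real.exp 1 := by rw [← Real.exp_add]; norm_num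
      rw [h13]
      nlinarith
    calc 4 * Real.exp (1 / 2 + Real.log t * (η / 4)) ≤ Real.exp 2 * Real.exp (1 / 2 + Real.log t * (η / 4)) :=
          mul_le_mul_of_nonneg_right h11 (Real.exp_pos _).le
      _ = Real.exp (2 + (1 / 2 + Real.log t * (η / 4))) := (Real.exp_add _ _).symm
      _ ≤ _ := by
        apply Real.exp_le_exp.2
        have b1 : (1 / 2 * Real.log t - 1) * η ≤ lt t * η := mul_le_mul_of_nonneg_right hlt hη.le
        have b2 : (12 / η + 4) * η ≤ Real.log t * η := mul_le_mul_of_nonneg_right hlog hη.le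
        have b3 : (12 / η + 4) * η = 12 + 4 * η := by
          field_simp
        rw [b3] at b2
        linarith
  calc ‖FT Ph (x - I * y)‖ ≤ 2 * (Mt x * Real.exp (lt x * y)) * ‖riemannZeta (1 / 2 + y + I * x)‖ := k2
    _ ≤ 2 * ((2 * Mt t * Real.exp |x - t|) * Real.exp (lt t * y + 1 / 2)) * t ^ (η / 4) := by
        have := (Real.exp_pos (lt x * y)).le
        gcongr
    _ = Mt t * (Real.exp (lt t * y) * (4 * (Real.exp (1 / 2) * t ^ (η / 4))) * Real.exp |x - t|) := by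
        rw [Real.exp_add]
        ring
    _ ≤ Mt t * (Real.exp (lt t * y) * Real.exp (lt t * η) * Real.exp |x - t|) := by gcongr
    _ = Mt t * Real.exp (lt t * (y + η) + |x - t|) := by
        rw [← Real.exp_add, ← Real.exp_add]
        congr 2
        ring

end Pool.Agent.H606.AV
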