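import Pool.Agent.H606.AV.Stm5

set_option autoImplicit false

/-!
# Project LF (helper606), part 2: nearly all zeros of the average at `h' > h` are real and simple if `f` is small at the distance `h` (pure complex analysis)

Coordinates as in `Pool/Agent/H466/LD`: `z = σ + iτ`, `v = -(I z)`, so `v.re = z.im`, `v.im = -z.re`. With `G(z) = f(-(I (z + h')))` one has `Av f h' (-(I z)) = G(z) + conj (G(-conj z))` (`LB.conj`), on the imaginary axis `Av f h' y = 2 Re G(iy)`.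
-/

open Complex Filter Topology Metric Set MeasureTheory

namespace Pool.Agent.H606.AV

noncomputable section

/-- the size of `f` near `0`, with the better upper bound `M e^{lam max(|Im v|, h)}` near the real axis -/
structure LH (f : ℂ → ℂ) (M lam h δ η : ℝ) : Prop where
  lb : LB f M lam (1 / 2) δ η
  up : ∀ v : ℂ, ‖v‖ ≤ 4 → ‖f v‖ ≤ M * Real.exp (lam * max |v.im| h + η * lam)

/-- **SEG.** Many real zeros on short segments and a large value near by. Tools: `big_point` (`Pool/Agent/H466/LD/L9.lean`) and `line_zeros` (`Pool/Agent/H466/LD/L10.lean`), both general; the proof is an edit of `seg_zeros` (`L11.lean`), simpler. Import `Pool.Agent.H466.LD.L11`.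

Proof. `Γ = M e^{lam h'}`, `r0 = min (ε0/13) (1/20)`. `G(z) = f(-(I (z + h')))`. (a) `‖G z‖ ≤ Γ exp(lam (|z.re| + η))` for `|z.re| ≤ 5/2`, `|z.im| ≤ 3` or `|z.re| ≤ 5/2`, (`LH.up`: `|im| = |h' + z.re|`, `max |h' + z.re| h ≤ h' + |z.re|`, norm `≤ √(9 + 6.25) < 4` resp. see below); so the first claim with `2 ≤ exp(lam (ε r - η))`, `η = ε r/100` at most, `lam0` large.
(b) if `z.re ≥ -(h' - h)`: `‖G z‖ ≤ Γ exp(lam (z.re + η))` (`|h' + z.re| = h' + z.re ≥ h`). (c) `big_point` with `c0 = 1`, `r`, `σ = ε r/100` for `F = G`, `T = τ`, `ℒ = lam`, `Γ1 = Γ`: upper bound by (b) for `0 ≤ z.re ≤ 2`, `|z.im - τ| ≤ 1` (norm `≤ √(2.5² + 3²) < 4`), lower bound at `1 + τ i`: `LB.low` at depth `1 + h' ≥ 1/2 + δ`.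
This gives `w0` with `Γ exp(lam (w0.re - σ)) ≤ ‖G(τ i + w0)‖`. (d) `‖G(τ i - conj w0)‖ ≤ Γ exp(lam (-w0.re + η))` ((b), `w0.re ≤ r ≤ ε0`), and `w0.re ≥ r/4`: `‖Av f h' (-(I (τ i + w0)))‖ ≥ Γ exp(lam (w0.re - σ)) / 2 ≥ Γ exp(lam (w0.re - ε r))`.
(e) `line_zeros` with `B w = G(τ i + w) * exp(-(lam w)) / Γ`, `‖w‖ ≤ 13 r ≤ ε0`: `‖B w‖ ≤ exp(η lam)` by (b), `‖B w0‖ ≥ exp(-(σ lam))`: real `y` with `-r < y < r`, `Re G(i(τ + y)) = 0`, at least `2 lam r/π - 4 (η + σ) lam - 3 ≥ (1 - ε) 2 lam r/π` of them. -/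
def S_SEG : Prop := ∀ ε0 ε : ℝ, 0 < ε0 → ε0 ≤ 1 / 2 → 0 < ε → ε ≤ 1 → ∃ r0 : ℝ, 0 < r0 ∧ ∀ r : ℝ, 0 < r → r ≤ r0 → ∃ δ η lam0 : ℝ, 0 < δ ∧ 0 < η ∧ 1 ≤ lam0 ∧
  ∀ (f : ℂ → ℂ) (M lam h h' : ℝ), 0 < M → lam0 ≤ lam → 0 ≤ h → h + ε0 ≤ h' → h' ≤ 1 / 2 → LH f M lam h δ η →
  (∀ z : ℂ, |z.re| ≤ 5 / 2 → |z.im| ≤ 5 / 2 → ‖Av f h' (-(I * z))‖ ≤ M * Real.exp (lam * h') * Real.exp (lam * (|z.re| + ε * r))) ∧
  ∀ τ : ℝ, |τ| ≤ 2 →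
    (∃ w0 : ℂ, r / 4 ≤ w0.re ∧ |w0.im| ≤ r / 4 ∧ ‖w0‖ ≤ r ∧
      M * Real.exp (lam * h') * Real.exp (lam * (w0.re - ε * r)) ≤ ‖Av f h' (-(I * ((τ : ℂ) * I + w0)))‖) ∧
    ∃ S : Finset ℝ, (∀ y ∈ S, τ - r < y ∧ y < τ + r ∧ Av f h' (-(I * ((y : ℂ) * I))) = 0) ∧ (1 - ε) * (2 * lam * r / Real.pi) ≤ (S.card : ℝ)

/-- **OFF.** Few zeros off the imaginary axis (Jensen). The proof is the second half of `few_off` (`Pool/Agent/H466/LD/L13.lean`, from the comment `Jensen` on, with `T = 0`, `R = 2` instead of `R = 3 (2Y + 1)`, `LL g lam` replaced by `F`, `Fin.up` by the upper bound here, `hτ` the last hypothesis) and, for the last claim,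
of `line_many` (`L16.lean`; segments of half length `r` centred at `-1/4 + (2j+1) r`, `j < ⌊1/(4r)⌋`, `r ≤ ε/16`, `ε' ≤ ε/2`). Import `Pool.Agent.H466.LD.L13`.

Details for the first claim: `ε' = min (1/2) (ε/16)` or smaller; `r = 2/(2(N+1))` with `seg_sum ε' N0`, `N0` large so that `r ≤ min r1 (1/20)`; for `z ∈ S`, `‖z - w0‖ ≤ √(1/4 + 1/16) + r ≤ 2/3 = R/3`, so the weight `log(R/‖z - w0‖) ≥ 1`; Jensen in the ball of radius `2` about `w0` (all points have `|re|, |im| ≤ 2 + 1/20`). -/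
def S_OFF : Prop := ∀ ε : ℝ, 0 < ε → ∃ ε' : ℝ, 0 < ε' ∧ ε' ≤ 1 ∧ ∀ r1 : ℝ, 0 < r1 → ∃ r : ℝ, 0 < r ∧ r ≤ r1 ∧
  ∀ (F : ℂ → ℂ) (ℒ Γ : ℝ), Differentiable ℂ F → 1 ≤ ℒ → 0 < Γ →
  (∀ z : ℂ, |z.re| ≤ 5 / 2 → |z.im| ≤ 5 / 2 → ‖F z‖ ≤ Γ * Real.exp (ℒ * (|z.re| + ε' * r))) →
  (∀ τ : ℝ, |τ| ≤ 2 →
    (∃ w0 : ℂ, r / 4 ≤ w0.re ∧ |w0.im| ≤ r / 4 ∧ ‖w0‖ ≤ r ∧ Γ * Real.exp (ℒ * (w0.re - ε' * r)) ≤ ‖F ((τ : ℂ) * I + w0)‖) ∧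
    ∃ S : Finset ℝ, (∀ y ∈ S, τ - r < y ∧ y < τ + r ∧ F ((y : ℂ) * I) = 0) ∧ (1 - ε') * (2 * ℒ * r / Real.pi) ≤ (S.card : ℝ)) →
  (∀ S : Finset ℂ, (∀ z ∈ S, F z = 0 ∧ |z.re| ≤ 1 / 2 ∧ |z.im| ≤ 1 / 4) →
    ∑ z ∈ S, ((analyticOrderNatAt F z : ℝ) - if z.re = 0 then 1 else 0) ≤ ε * ℒ) ∧
  ∃ S : Finset ℝ, (∀ y ∈ S, -(1 / 4) < y ∧ y < 1 / 4 ∧ F ((y : ℂ) * I) = 0) ∧ (1 - ε) * (ℒ / (2 * Real.pi)) ≤ (S.card : ℝ)

end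

end Pool.Agent.H606.AV
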