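import Pool.Agent.H606.AV.LFf
import Pool.Agent.H606.AV.All
import Pool.Agent.H638.AV.Linf
import Pool.Agent.H227.AV.FACB
import Pool.Agent.H152.AV.Bla
import Pool.Agent.H627.AV.RegF
import Pool.Agent.H955.AV.Seg
import Pool.Agent.H788.AV.Off

set_option autoImplicit false

/-!
# Project LF (helper606): all hypotheses discharged
-/

namespace Pool.Agent.H606.AV

theorem d_bla : S_BLA := Pool.Agent.H152.AV.S_BLA_proof Pool.Agent.H227.AV.FACB.S_FACB_proof

theorem d_nmt : S_NMT := Pool.Agent.H218.AV.S_NMT_proof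

theorem d_regf : S_REGF := Pool.Agent.H627.AV.S_REGF_proof prop_R d_bla d_nmt

theorem d_jenf : S_JENF := Pool.Agent.H189.AV.S_JENF_proof d_bla d_nmt

theorem d_seg : S_SEG := Pool.Agent.H955.AV.S_SEG_proof

theorem d_off : S_OFF := S_OFF_proof

end Pool.Agent.H606.AV
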