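import Pool.Agent.H606.AV.LFa
import Pool.Agent.H606.AV.Stm6
import Pool.Agent.H189.AV.Jenf
import Pool.Agent.H218.AV.Nmt

set_option autoImplicit false

/-!
# Project LF (helper606): nearly all zeros of the average are simple and on the line
-/

open Finset Complex Filter Topology Metric Set MeasureTheory

namespace Pool.Agent.H606.AV

open Pool.Agent.Helper242.KK (FT Ph)
open Pool.Agent.H477.Jen
open Pool.Agent.H477.E Pool.Agent.H477.EU
open Pool.Agent.H477.S (Mt lt Wf ZR)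
open Pool.Agent.H189.AV (absorb)

/-- the upper bound of `X` in the strip, from the bound on the line at distance `h` -/
theorem upper4 (X : ℂ → ℂ) (M lt : ℝ → ℝ) (E : Env X M lt) (h e : ℝ) (hh0 : 0 ≤ h)
    (hh1 : h < 1 / 2) (he0 : 0 < e) (he1 : e ≤ 1) :
    ∃ T0 : ℝ, ∀ t : ℝ, T0 ≤ t → 0 < M t ∧ 0 ≤ lt t ∧
      ((∀ x : ℝ, |x - t| ≤ Real.log t →
        ‖X (x - I * h)‖ ≤ M t * Real.exp (lt t * (h + e / 8) + |x - t|)) →
      ∀ v : ℂ, ‖v‖ ≤ 4 → v.im ≤ h →
        ‖X (t + v)‖ ≤ M t * Real.exp (lt t * (max (-v.im) h + e / 2))) := by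
  obtain ⟨T2, hmtd⟩ := E.mtd 1 one_pos
  obtain ⟨T3, hloc⟩ := E.loc 1 (e / 8) one_pos (by positivity)
  obtain ⟨T4, hMpos⟩ := E.Mpos
  obtain ⟨C, T5, hlt⟩ := E.ltlog
  obtain ⟨T6, hmax1⟩ := E.max (-h) h 0 (h + e / 4) (e / 4) (by linarith) (by linarith)
    (by linarith) (by positivity) (by norm_num) (by positivity)
  obtain ⟨T7, hmax2⟩ := E.max h (1 / 2 + e / 8) 1 (e / 4) (e / 4) (by linarith) (by linarith)
    (by linarith) (by positivity) (by norm_num) (by positivity)
  have hlogt : ∀ᶠ t : ℝ in atTop, C + 32 / e ≤ Real.log t :=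
    Real.tendsto_log_atTop.eventually_ge_atTop _
  obtain ⟨T0, hT0⟩ := eventually_atTop.1 (hlogt.and ((eventually_ge_atTop (2 : ℝ)).and
    ((eventually_ge_atTop T2).and
    ((eventually_ge_atTop (2 * T3)).and ((eventually_ge_atTop T4).and
    ((eventually_ge_atTop T5).and ((eventually_ge_atTop T6).and
    ((eventually_ge_atTop T7).and (eventually_ge_atTop T3)))))))))
  refine ⟨T0, fun t ht => ?_⟩
  obtain ⟨c1, c2, c4, c5, c6, c7, c8, c9, c10⟩ := hT0 t ht
  have hM := hMpos t c6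
  have hl := hlt t c7
  rw [abs_le] at hl
  have hle : 16 ≤ lt t * e := by
    have h1 : 16 / e ≤ lt t := by
      have h2 : 32 / e = 2 * (16 / e) := by ring
      rw [h2] at c1
      linarith [hl.1]
    rwa [div_le_iff₀ he0] at h1
  have hlt0 : 0 ≤ lt t := by
    by_contra hc
    have := mul_neg_of_neg_of_pos (not_le.mp hc) he0
    linarith
  refine ⟨hM, hlt0, fun hH => ?_⟩
  have hlog2 : Real.log t ≤ t / 2 := by
    have h1 : Real.log t = Real.log 2 + Real.log (t / 2) := by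
      rw [← Real.log_mul (by norm_num) (by positivity)]
      congr 1
      ring
    have h2 := Real.log_le_sub_one_of_pos (by positivity : 0 < t / 2)
    have h3 := Real.log_two_lt_d9
    linarith
  -- the lines `Im = ± h`
  have hline : ∀ v : ℝ, |v| ≤ Real.log t →
      ‖X (((t + v : ℝ) : ℂ) - I * h)‖ ≤ M t * Real.exp (lt t * (h + e / 4) + |v|) := by
    intro v hv
    have h1 := hH (t + v) (by rwa [add_sub_cancel_left])
    rw [add_sub_cancel_left] at h1
    refine h1.trans ?_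
    apply mul_le_mul_of_nonneg_left _ hM.le
    apply Real.exp_le_exp.mpr
    have h2 : lt t * (h + e / 8) ≤ lt t * (h + e / 4) :=
      mul_le_mul_of_nonneg_left (by linarith) hlt0
    linarith
  have hconj : ∀ x : ℝ, ‖X ((x : ℂ) + I * h)‖ = ‖X ((x : ℂ) - I * h)‖ := by
    intro x
    have h1 := E.conj ((x : ℂ) - I * h)
    have h2 : (starRingEnd ℂ) ((x : ℂ) - I * h) = (x : ℂ) + I * h := by
      rw [map_sub, map_mul, conj_ofReal, conj_I, conj_ofReal]
      ring
    rw [h2] at h1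
    rw [h1, Complex.norm_conj]
  have hbd1 : ∀ v : ℂ, |v.re| ≤ Real.log t → v.im = -h →
      ‖X (t + v)‖ ≤ M t * Real.exp (lt t * (h + e / 4) + |v.re|) := by
    intro v hv hi
    have h1 : (t : ℂ) + v = ((t + v.re : ℝ) : ℂ) - I * h := by
      apply Complex.ext
      · simp only [add_re, ofReal_re, sub_re, mul_re, I_re, I_im, ofReal_im]
        ring
      · simp only [add_im, ofReal_im, sub_im, mul_im, I_re, I_im, ofReal_re]
        rw [hi]
        ring
    rw [h1]
    exact hline v.re hv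
  have hbd2 : ∀ v : ℂ, |v.re| ≤ Real.log t → v.im = h →
      ‖X (t + v)‖ ≤ M t * Real.exp (lt t * (h + e / 4) + |v.re|) := by
    intro v hv hi
    have h1 : (t : ℂ) + v = ((t + v.re : ℝ) : ℂ) + I * h := by
      apply Complex.ext
      · simp only [add_re, ofReal_re, mul_re, I_re, I_im, ofReal_im]
        ring
      · simp only [add_im, ofReal_im, mul_im, I_re, I_im, ofReal_re]
        rw [hi]
        ring
    rw [h1, hconj]
    exact hline v.re hv
  -- (i)
  have hi1 := hmax1 t c8 (by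
    intro v hv hor
    have e1 : h + e / 4 - 0 * v.im = h + e / 4 := by ring
    rw [e1]
    rcases hor with hor | hor
    · exact hbd2 v hv (by rw [hor, neg_neg])
    · exact hbd1 v hv hor)
  -- (ii)
  have hi2 := hmax2 t c9 (by
    intro v hv hor
    rcases hor with hor | hor
    · have e1 : e / 4 - 1 * v.im = h + e / 4 := by rw [hor]; ring
      rw [e1]
      exact hbd1 v hv hor
    · have e1 : e / 4 - 1 * v.im = (1 / 2 + e / 4) + e / 8 := by rw [hor]; ring
      rw [e1]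
      have hv' := abs_le.mp hv
      have hLB := hloc (t + v.re) (by linarith [hv'.1])
      have hu := hLB.up (-(I * (1 / 2 + e / 8 : ℝ))) (by
        rw [norm_neg, norm_mul, norm_I, one_mul, Complex.norm_real, Real.norm_eq_abs,
          abs_of_pos (by positivity)]
        linarith)
      have him : (-(I * ((1 / 2 + e / 8 : ℝ) : ℂ))).im = -(1 / 2 + e / 8) := by
        rw [neg_im, mul_im, I_re, I_im, ofReal_re, ofReal_im]
        ring
      have hX : (((t + v.re : ℝ) : ℂ)) + -(I * ((1 / 2 + e / 8 : ℝ) : ℂ)) = (t : ℂ) + v := by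
        apply Complex.ext
        · simp only [add_re, ofReal_re, neg_re, mul_re, I_re, I_im, ofReal_im]
          ring
        · simp only [add_im, ofReal_im, neg_im, mul_im, I_re, I_im, ofReal_re]
          rw [hor]
          ring
      rw [him, abs_neg, abs_of_pos (by positivity : (0 : ℝ) < 1 / 2 + e / 8),
        max_eq_left (by linarith : (1 : ℝ) / 2 ≤ 1 / 2 + e / 8)] at hu
      change ‖X (((t + v.re : ℝ) : ℂ) + -(I * ((1 / 2 + e / 8 : ℝ) : ℂ)))‖ ≤ _ at hu
      rw [hX] at hu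
      refine hu.trans ?_
      obtain ⟨m1, m2⟩ := hmtd t c4 v.re (by rw [one_mul]; exact hv)
      have h2 := absorb (a := 1 / 2 + e / 4) (g := e / 8) hM m1 m2 (by positivity) (by linarith)
      have h3 : lt (t + v.re) * (1 / 2 + e / 8) + e / 8 * lt (t + v.re) =
          lt (t + v.re) * (1 / 2 + e / 4) := by ring
      rw [h3]
      exact h2)
  intro v hv0 hv3
  have hv1 : |v.re| ≤ 4 := (Complex.abs_re_le_norm v).trans hv0
  rcases le_total (-h) v.im with hc | hc
  · refine (hi1 v (by linarith) hc (by linarith)).trans ?_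
    apply mul_le_mul_of_nonneg_left _ hM.le
    apply Real.exp_le_exp.mpr
    apply mul_le_mul_of_nonneg_left _ hlt0
    have := le_max_right (-v.im) h
    linarith
  · have hmx := le_max_left (-v.im) h
    rcases le_total (-(1 / 2 + e / 8)) v.im with hd | hd
    · refine (hi2 v (by linarith) hd (by linarith)).trans ?_
      apply mul_le_mul_of_nonneg_left _ hM.le
      apply Real.exp_le_exp.mpr
      apply mul_le_mul_of_nonneg_left _ hlt0
      linarith
    · have hu := (hloc t c10).up v hv0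
      change ‖X (t + v)‖ ≤ _ at hu
      refine hu.trans ?_
      apply mul_le_mul_of_nonneg_left _ hM.le
      apply Real.exp_le_exp.mpr
      rw [abs_of_neg (by linarith : v.im < 0), max_eq_left (by linarith : (1 : ℝ) / 2 ≤ -v.im)]
      have h2 : lt t * (-v.im) ≤ lt t * max (-v.im) h := mul_le_mul_of_nonneg_left hmx hlt0
      have h3 : 0 ≤ e * lt t := mul_nonneg he0.le hlt0
      have h4 : lt t * (max (-v.im) h + e / 2) = lt t * max (-v.im) h + e * lt t / 2 := by ring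
      rw [h4]
      linarith


/-- the size of `Ξ` near the height `t`, from the size of zeta on the line `1/2 + h` -/
theorem lhx (hG : S_GLOB) {h δ η : ℝ} (h0 : 0 < h) (h1 : h < 1 / 2) (hδ : 0 < δ) (hη : 0 < η) : ∃ η' T0 : ℝ, 0 < η' ∧ 1 ≤ T0 ∧ ∀ t : ℝ, T0 ≤ t →
    (∀ x : ℝ, |x - t| ≤ Real.log t → ‖riemannZeta (1 / 2 + h + I * x)‖ ≤ t ^ η') →
    0 < Mt t ∧ LH (fun v : ℂ => FT Ph (t + v)) (Mt t) (lt t) h δ η := by
  obtain ⟨e, he⟩ : ∃ e : ℝ, e = min η 1 := ⟨_, rfl⟩
  have he0 : 0 < e := by rw [he]; exact lt_min hη one_pos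
  have he1 : e ≤ 1 := by rw [he]; exact min_le_right _ _
  have heη : e ≤ η := by rw [he]; exact min_le_left _ _
  obtain ⟨T1, H1⟩ := upper4 (FT Ph) Mt lt (env_R hG) h e h0.le h1 he0 he1
  obtain ⟨T2, -, H2⟩ := X_of_zeta (η := e / 8) (by positivity)
  obtain ⟨T3, H3⟩ := (env_R hG).loc δ η hδ hη
  refine ⟨e / 8 / 4, max (max T1 T2) (max T3 1), by positivity, (le_max_right _ _).trans (le_max_right _ _), fun t ht hz => ?_⟩
  have a1 : T1 ≤ t := ((le_max_left _ _).trans (le_max_left _ _)).trans ht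
  have a2 : T2 ≤ t := ((le_max_right _ _).trans (le_max_left _ _)).trans ht
  have a3 : T3 ≤ t := ((le_max_left _ _).trans (le_max_right _ _)).trans ht
  obtain ⟨b1, b2, b3⟩ := H1 t a1
  have b4 := b3 (H2 t a2 h h0.le h1.le hz)
  have hLB := H3 t a3
  have hlow : ∀ v : ℂ, ‖v‖ ≤ 4 → v.im ≤ 0 → ‖FT Ph (t + v)‖ ≤ Mt t * Real.exp (lt t * max |v.im| h + η * lt t) := by
    intro v hv hi
    refine (b4 v hv (by linarith)).trans ?_
    apply mul_le_mul_of_nonneg_left _ b1.le
    apply Real.exp_le_exp.mpr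
    rw [abs_of_nonpos hi]
    have h4 : e / 2 * lt t ≤ η * lt t := mul_le_mul_of_nonneg_right (by linarith) b2
    linarith
  refine ⟨b1, hLB, fun v hv => ?_⟩
  rcases le_total v.im 0 with hi | hi
  · exact hlow v hv hi
  · have h5 := hlow ((starRingEnd ℂ) v) (by rw [Complex.norm_conj]; exact hv) (by rw [Complex.conj_im]; linarith)
    rw [Complex.conj_im, abs_neg] at h5
    have h6 : FT Ph (t + (starRingEnd ℂ) v) = (starRingEnd ℂ) (FT Ph (t + v)) := hLB.conj v
    rw [h6, Complex.norm_conj] at h5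
    exact h5

/-- nearly all zeros of the average are simple and real (pure complex analysis) -/
theorem near1 (hS : S_SEG) (hO : S_OFF) {ε0 ε : ℝ} (hε0 : 0 < ε0) (hε01 : ε0 ≤ 1 / 2) (hε : 0 < ε) : ∃ δ η lam0 : ℝ, 0 < δ ∧ 0 < η ∧ 1 ≤ lam0 ∧
    ∀ (f : ℂ → ℂ) (M lam h h' : ℝ), 0 < M → lam0 ≤ lam → 0 ≤ h → h + ε0 ≤ h' → h' ≤ 1 / 2 → LH f M lam h δ η →
    (∀ S : Finset ℂ, (∀ z ∈ S, Av f h' (-(I * z)) = 0 ∧ |z.re| ≤ 1 / 2 ∧ |z.im| ≤ 1 / 4) →
      ∑ z ∈ S, ((analyticOrderNatAt (fun z => Av f h' (-(I * z))) z : ℝ) - if z.re = 0 then 1 else 0) ≤ ε * lam) ∧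
    ∃ S : Finset ℝ, (∀ y ∈ S, -(1 / 4) < y ∧ y < 1 / 4 ∧ Av f h' (-(I * ((y : ℂ) * I))) = 0) ∧ (1 - ε) * (lam / (2 * Real.pi)) ≤ (S.card : ℝ) := by
  obtain ⟨ε', hε'0, hε'1, HO⟩ := hO ε hε
  obtain ⟨r0, hr0, HS⟩ := hS ε0 ε' hε0 hε01 hε'0 hε'1
  obtain ⟨r, hr, hrr, HO2⟩ := HO r0 hr0
  obtain ⟨δ, η, lam0, hδ, hη, hl, HS2⟩ := HS r hr hrr
  refine ⟨δ, η, lam0, hδ, hη, hl, fun f M lam h h' hM hlam hh0 hh1 hh2 hLH => ?_⟩
  obtain ⟨c1, c2⟩ := HS2 f M lam h h' hM hlam hh0 hh1 hh2 hLH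
  have hd : Differentiable ℂ (fun z : ℂ => Av f h' (-(I * z))) := by
    unfold Av
    have := hLH.lb.diff
    intro z
    exact ((this _).comp z (by fun_prop)).add ((this _).comp z (by fun_prop))
  exact HO2 (fun z => Av f h' (-(I * z))) lam (M * Real.exp (lam * h')) hd (hl.trans hlam) (mul_pos hM (Real.exp_pos _)) c1 c2

end Pool.Agent.H606.AV
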