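import Pool.Agent.H606.AV.LFb

set_option autoImplicit false

/-!
# Project LF (helper606): zeros of the averages in the variable `s`
-/

open Finset Complex Filter Topology Metric Set MeasureTheory

namespace Pool.Agent.H606.AV

open Pool.Agent.Helper242.KK (FT Ph)
open Pool.Agent.H477.Jen
open Pool.Agent.H477.E Pool.Agent.H477.EU
open Pool.Agent.H477.S (Mt lt Wf ZR)

theorem xi_diff' : Differentiable ℂ (Av (FT Ph) 0) := by
  unfold Av
  have := ker_Ph.FT_diff
  intro z
  exact ((this _).comp z (by fun_prop)).add ((this _).comp z (by fun_prop))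

theorem Av_diff (h : ℝ) : Differentiable ℂ (Av (FT Ph) h) := by
  unfold Av
  have := ker_Ph.FT_diff
  intro z
  exact ((this _).comp z (by fun_prop)).add ((this _).comp z (by fun_prop))

theorem A_diff (h : ℝ) : Differentiable ℂ (A h) := by
  have hfun : A h = fun s => Av (FT Ph) h (-(I * (s - 1 / 2))) := by
    funext s
    exact A_eq h s
  rw [hfun]
  have := Av_diff h
  intro z
  exact (this _).comp z (by fun_prop)

/-- orders under affine maps -/
theorem order_aff {g : ℂ → ℂ} (a b : ℂ) (hb : b ≠ 0) (z : ℂ) : analyticOrderNatAt (fun z => g (a + b * z)) z = analyticOrderNatAt g (a + b * z) := by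
  unfold analyticOrderNatAt
  have hA : AnalyticAt ℂ (fun v : ℂ => a + b * v) z := by fun_prop
  have hder : HasDerivAt (fun v : ℂ => a + b * v) b z := by
    have h1 := ((hasDerivAt_id z).const_mul b).const_add a
    rw [mul_one] at h1
    exact h1
  have hd : deriv (fun v : ℂ => a + b * v) z ≠ 0 := by
    rw [hder.deriv]
    exact hb
  have h2 := analyticOrderAt_comp_of_deriv_ne_zero (f := g) hA hd
  rw [← h2]
  rfl

theorem loc_fun (h' t : ℝ) : (fun z : ℂ => Av (fun v : ℂ => FT Ph (t + v)) h' (-(I * z))) = fun z => A h' ((1 / 2 + I * t) + 1 * z) := by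
  funext z
  rw [av_shift]
  have e : (1 / 2 + I * t) + 1 * z = 1 / 2 + I * (t + -(I * z)) := by
    linear_combination z * I_sq
  rw [e, A_eq']

theorem order_loc (h' t : ℝ) (z : ℂ) : analyticOrderNatAt (fun z : ℂ => Av (fun v : ℂ => FT Ph (t + v)) h' (-(I * z))) z =
    analyticOrderNatAt (A h') ((1 / 2 + I * t) + z) := by
  rw [loc_fun, order_aff _ _ one_ne_zero, one_mul]

/-- nearly all zeros of the average near a height are simple and on the line -/
theorem near2 (hG : S_GLOB) (hS : S_SEG) (hO : S_OFF) {h ε0 ε : ℝ} (h0 : 0 < h) (h1 : h < 1 / 2) (hε0 : 0 < ε0) (hε01 : ε0 ≤ 1 / 2) (hε : 0 < ε) (hε1 : ε ≤ 1) :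
    ∃ η T0 : ℝ, 0 < η ∧ 1 ≤ T0 ∧ ∀ t : ℝ, T0 ≤ t → (∀ x : ℝ, |x - t| ≤ Real.log t → ‖riemannZeta (1 / 2 + h + I * x)‖ ≤ t ^ η) →
    ∀ h' : ℝ, h + ε0 ≤ h' → h' ≤ 1 / 2 →
    (∀ S : Finset ℂ, (∀ s ∈ S, A h' s = 0 ∧ 0 ≤ s.re ∧ s.re ≤ 1 ∧ |s.im - t| ≤ 1 / 4) →
      ∑ s ∈ S, ((analyticOrderNatAt (A h') s : ℝ) - if s.re = 1 / 2 then 1 else 0) ≤ ε * Real.log t) ∧
    ∃ S : Finset ℝ, (∀ y ∈ S, t - 1 / 4 < y ∧ y < t + 1 / 4 ∧ A h' (1 / 2 + I * y) = 0) ∧ (1 - ε) * (Real.log t / (4 * Real.pi)) ≤ (S.card : ℝ) := by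
  classical
  obtain ⟨δ, η, lam0, hδ, hη, hl, H⟩ := near1 hS hO hε0 hε01 (show 0 < ε / 2 by positivity)
  obtain ⟨η', T1, hη', hT1, H1⟩ := lhx hG h0 h1 hδ hη
  obtain ⟨T2, hT2⟩ := lt_large lam0
  refine ⟨η', max (max T1 T2) (Real.exp (4 / ε)), hη', hT1.trans ((le_max_left _ _).trans (le_max_left _ _)), fun t ht hz h' h2 h3 => ?_⟩
  have a1 : T1 ≤ t := ((le_max_left _ _).trans (le_max_left _ _)).trans ht
  have a2 : T2 ≤ t := ((le_max_right _ _).trans (le_max_left _ _)).trans ht
  have a4 : Real.exp (4 / ε) ≤ t := (le_max_right _ _).trans ht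
  have t1 : 1 ≤ t := hT1.trans a1
  have ht0 : 0 < t := by linarith
  obtain ⟨hM, hLH⟩ := H1 t a1 hz
  obtain ⟨k1, S', k2, k3⟩ := H (fun v : ℂ => FT Ph (t + v)) (Mt t) (lt t) h h' hM (hT2 t a2) h0.le h2 h3 hLH
  have hle := Pool.Agent.H477.S.lt_le t1
  have hge := Pool.Agent.H477.S.lt_ge t1
  have hlog0 : 0 ≤ Real.log t := Real.log_nonneg t1
  have hlog : 4 / ε ≤ Real.log t := by
    rw [Real.le_log_iff_exp_le ht0]
    exact a4
  have h9 : 4 ≤ ε * Real.log t := by
    rw [div_le_iff₀ hε] at hlog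
    linarith
  constructor
  · intro S hS
    have key := k1 (S.image (fun s => s - (1 / 2 + I * t))) (by
      intro z hz
      rw [Finset.mem_image] at hz
      obtain ⟨s, hs, rfl⟩ := hz
      obtain ⟨b1, b2, b3, b4⟩ := hS s hs
      have e1 : Av (fun v : ℂ => FT Ph (t + v)) h' (-(I * (s - (1 / 2 + I * t)))) =
        A h' ((1 / 2 + I * t) + 1 * (s - (1 / 2 + I * t))) := congrFun (loc_fun h' t) (s - (1 / 2 + I * t))
      have e2 : (1 / 2 + I * (t : ℂ)) + 1 * (s - (1 / 2 + I * t)) = s := by ring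
      rw [e2] at e1
      have e3 : (s - (1 / 2 + I * t)).re = s.re - 1 / 2 := by simp
      have e4 : (s - (1 / 2 + I * t)).im = s.im - t := by simp
      refine ⟨by rw [e1, b1], ?_, ?_⟩
      · rw [e3, abs_le]
        constructor <;> linarith
      · rw [e4]
        exact b4)
    rw [Finset.sum_image (fun a _ b _ h => by simpa using h)] at key
    have hsum : ∑ x ∈ S, ((analyticOrderNatAt (fun z : ℂ => Av (fun v : ℂ => FT Ph (t + v)) h' (-(I * z))) (x - (1 / 2 + I * t)) : ℝ) -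
        if (x - (1 / 2 + I * t)).re = 0 then 1 else 0) = ∑ s ∈ S, ((analyticOrderNatAt (A h') s : ℝ) - if s.re = 1 / 2 then 1 else 0) := by
      refine Finset.sum_congr rfl fun s _ => ?_
      rw [order_loc]
      have e2 : (1 / 2 + I * (t : ℂ)) + (s - (1 / 2 + I * t)) = s := by ring
      rw [e2]
      have e3 : (s - (1 / 2 + I * t)).re = s.re - 1 / 2 := by simp
      rw [e3]
      simp only [sub_eq_zero]
    rw [hsum] at key
    refine key.trans ?_
    have := mul_le_mul_of_nonneg_left hle (show 0 ≤ ε / 2 by positivity)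
    have h5 : 0 ≤ ε * Real.log t := mul_nonneg hε.le hlog0
    linarith
  · refine ⟨S'.image (fun y => t + y), ?_, ?_⟩
    · intro y hy
      rw [Finset.mem_image] at hy
      obtain ⟨x, hx, rfl⟩ := hy
      obtain ⟨b1, b2, b3⟩ := k2 x hx
      refine ⟨by linarith, by linarith, ?_⟩
      have e1 : Av (fun v : ℂ => FT Ph (t + v)) h' (-(I * ((x : ℂ) * I))) =
        A h' ((1 / 2 + I * t) + 1 * ((x : ℂ) * I)) := congrFun (loc_fun h' t) ((x : ℂ) * I)
      rw [e1] at b3
      rw [← b3]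
      congr 1
      push_cast
      ring
    · rw [Finset.card_image_of_injective _ (add_right_injective t)]
      refine le_trans ?_ k3
      have hπ := Real.pi_pos
      have e5 : lt t / (2 * Real.pi) = (2 * lt t) / (4 * Real.pi) := by
        rw [div_eq_div_iff (by positivity) (by positivity)]
        ring
      rw [e5, ← mul_div_assoc, ← mul_div_assoc]
      apply div_le_div_of_nonneg_right _ (by positivity)
      have h6 : (1 - ε / 2) * (Real.log t - 2) ≤ (1 - ε / 2) * (2 * lt t) :=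
        mul_le_mul_of_nonneg_left (by linarith) (by linarith)
      refine le_trans ?_ h6
      have h7 : (1 - ε / 2) * (Real.log t - 2) = (1 - ε) * Real.log t + (ε / 2 * Real.log t - 2 + ε) := by ring
      rw [h7]
      linarith

end Pool.Agent.H606.AV
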