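import Pool.Agent.H606.AV.LFc

set_option autoImplicit false

/-!
# Project LF (helper606): few zeros away from the line and the Lindelöf bound on the line `1/2 + h`
-/

open Finset Complex Filter Topology Metric Set MeasureTheory

namespace Pool.Agent.H606.AV

open Pool.Agent.Helper242.KK (FT Ph)
open Pool.Agent.H477.Jen
open Pool.Agent.H477.E Pool.Agent.H477.EU
open Pool.Agent.H477.S (Mt lt Wf ZR)

/-- the zeros of the average at the distance at least `a` to the right of the critical line, in the strip, near the height `T` -/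
def Far (h a T : ℝ) : Set ℂ := {s : ℂ | A h s = 0 ∧ 1 / 2 + a ≤ s.re ∧ s.re < 1 ∧ |s.im - T| ≤ 1}

/-- their number with multiplicity -/
noncomputable def NF (h a T : ℝ) : ℝ := ∑ᶠ s ∈ Far h a T, (analyticOrderNatAt (A h) s : ℝ)

/-- the Lindelöf bound on the line `1/2 + h` -/
def LineBound (h : ℝ) : Prop := ∀ ε : ℝ, 0 < ε → ∃ C : ℝ, ∀ t : ℝ, ‖riemannZeta (1 / 2 + h + t * I)‖ ≤ C * (1 + |t|) ^ ε

/-- the Lindelöf hypothesis -/
def Lindelof : Prop := ∀ ε : ℝ, 0 < ε → ∃ C : ℝ, ∀ t : ℝ, ‖riemannZeta (1 / 2 + t * I)‖ ≤ C * (1 + |t|) ^ ε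

theorem Far_image (h a T : ℝ) : Far h a T = (fun w : ℂ => 1 / 2 + I * w) ''
    {w : ℂ | w ∈ {w : ℂ | |w.re - T| ≤ 1 ∧ -(1 / 2) < w.im ∧ w.im ≤ -a} ∧ Av (FT Ph) h w = 0} := by
  ext s
  constructor
  · rintro ⟨h1, h2, h3, h4⟩
    refine ⟨-(I * (s - 1 / 2)), ⟨⟨?_, ?_, ?_⟩, ?_⟩, ?_⟩
    · rw [W_re]; exact h4
    · rw [W_im]; linarith
    · rw [W_im]; linarith
    · rw [← A_eq, h1]
    · show 1 / 2 + I * -(I * (s - 1 / 2)) = s
      linear_combination (-(s - 1 / 2)) * I_sq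
  · rintro ⟨w, ⟨⟨h1, h2, h3⟩, h4⟩, rfl⟩
    refine ⟨?_, ?_, ?_, ?_⟩
    · show A h (1 / 2 + I * w) = 0
      rw [A_eq', h4]
    · show 1 / 2 + a ≤ (1 / 2 + I * w).re
      rw [S_re]; linarith
    · show (1 / 2 + I * w).re < 1
      rw [S_re]; linarith
    · show |(1 / 2 + I * w).im - T| ≤ 1
      rw [S_im]; exact h1

theorem NF_eq (h a T : ℝ) : NF h a T = Nm (Av (FT Ph) h) {w : ℂ | |w.re - T| ≤ 1 ∧ -(1 / 2) < w.im ∧ w.im ≤ -a} := by
  unfold NF Nm
  rw [Far_image, finsum_mem_image (fun x _ y _ hxy => by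
    have h1 : (1 / 2 : ℂ) + I * x = 1 / 2 + I * y := hxy
    exact mul_left_cancel₀ I_ne_zero (add_left_cancel h1))]
  refine finsum_mem_congr rfl fun w _ => ?_
  have h1 : Av (FT Ph) h = fun w => A h (1 / 2 + I * w) := by
    funext w
    exact (A_eq' h w).symm
  rw [h1, order_aff (1 / 2) I I_ne_zero w]

theorem Av_ne (hG : S_GLOB) (h : ℝ) (h0 : 0 < h) (h1 : h < 1 / 2) : ∃ z, Av (FT Ph) h z ≠ 0 := by
  obtain ⟨T0, H⟩ := (env_R hG).loc 1 (h / 4) one_pos (by positivity)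
  obtain ⟨T1, H1⟩ := lt_large (4 / h + 1)
  obtain ⟨t, ht⟩ : ∃ t : ℝ, t = max (max T0 T1) 1 := ⟨_, rfl⟩
  have a1 : T0 ≤ t := by rw [ht]; exact (le_max_left _ _).trans (le_max_left _ _)
  have a2 : T1 ≤ t := by rw [ht]; exact (le_max_right _ _).trans (le_max_left _ _)
  have a3 : 1 ≤ t := by rw [ht]; exact le_max_right _ _
  have hLB := H t a1
  have hM := Pool.Agent.H477.S.Mt_pos a3
  have hl := H1 t a2
  have hlh : 4 + h ≤ lt t * h := by
    have := mul_le_mul_of_nonneg_right hl h0.le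
    have e : (4 / h + 1) * h = 4 + h := by field_simp
    rw [e] at this
    exact this
  refine ⟨t - I * 2, fun hz => ?_⟩
  have e1 : Av (FT Ph) h (t - I * 2) = FT Ph (t + -(I * ((2 - h : ℝ) : ℂ))) + FT Ph (t + -(I * ((2 + h : ℝ) : ℂ))) := by
    unfold Av
    push_cast
    congr 2 <;> ring
  have him : ∀ y : ℝ, (-(I * (y : ℂ))).im = -y := fun y => by simp
  have hno : ∀ y : ℝ, 0 ≤ y → ‖-(I * (y : ℂ))‖ = y := fun y hy => by
    rw [norm_neg, norm_mul, norm_I, one_mul, Complex.norm_real, Real.norm_eq_abs, abs_of_nonneg hy]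
  have hu : ‖FT Ph (t + -(I * ((2 - h : ℝ) : ℂ)))‖ ≤ Mt t * Real.exp (lt t * max |(-(I * ((2 - h : ℝ) : ℂ))).im| (1 / 2) + h / 4 * lt t) :=
    hLB.up (-(I * ((2 - h : ℝ) : ℂ))) (by rw [hno _ (by linarith)]; linarith)
  have hlo : Mt t * Real.exp (lt t * |(-(I * ((2 + h : ℝ) : ℂ))).im| - h / 4 * lt t) ≤ ‖FT Ph (t + -(I * ((2 + h : ℝ) : ℂ)))‖ :=
    hLB.low (-(I * ((2 + h : ℝ) : ℂ))) (by rw [hno _ (by linarith)]; linarith) (by rw [him]; linarith)
  rw [him, abs_neg, abs_of_pos (by linarith), max_eq_left (by linarith)] at hu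
  rw [him, abs_neg, abs_of_pos (by linarith)] at hlo
  rw [e1] at hz
  have h5 : FT Ph (t + -(I * ((2 + h : ℝ) : ℂ))) = -FT Ph (t + -(I * ((2 - h : ℝ) : ℂ))) := by
    rw [eq_neg_iff_add_eq_zero, add_comm]
    exact hz
  rw [h5, norm_neg] at hlo
  have h6 := hlo.trans hu
  have h7 := le_of_mul_le_mul_left h6 hM
  have h8 := Real.exp_le_exp.1 h7
  have h9 : lt t * (2 + h) - h / 4 * lt t - (lt t * (2 - h) + h / 4 * lt t) = 3 / 2 * (lt t * h) := by ring
  linarith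

theorem Far_fin (hG : S_GLOB) {h a T : ℝ} (h0 : 0 < h) (h1 : h < 1 / 2) (ha : 0 < a) : (Far h a T).Finite := by
  rw [Far_image]
  refine Set.Finite.image _ ?_
  refine Pool.Agent.H218.AV.fin_zeros (Av_diff h) (Av_ne hG h h0 h1) ?_
  rw [isBounded_iff_forall_norm_le]
  refine ⟨|T| + 2, ?_⟩
  rintro w ⟨b1, b2, b3⟩
  refine (Complex.norm_le_abs_re_add_abs_im w).trans ?_
  have c1 : |w.re| ≤ |T| + 1 := by
    have : w.re = (w.re - T) + T := by ring
    rw [this]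
    refine (abs_add_le _ _).trans ?_
    linarith
  have c2 : |w.im| ≤ 1 := by
    rw [abs_le]
    constructor <;> linarith
  linarith

end Pool.Agent.H606.AV
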