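import Pool.Agent.H606.AV.LFd

set_option autoImplicit false

/-!
# Project LF (helper606): the local statements
-/

open Finset Complex Filter Topology Metric Set MeasureTheory

namespace Pool.Agent.H606.AV

open Pool.Agent.Helper242.KK (FT Ph)
open Pool.Agent.H477.Jen
open Pool.Agent.H477.E Pool.Agent.H477.EU
open Pool.Agent.H477.S (Mt lt Wf ZR)

/-- all but `ε log T` of the zeros with `T ≤ Im s ≤ T + 1` in the critical strip are simple and on the line -/
def NearlyAll (h T ε : ℝ) : Prop :=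
  (∀ S : Finset ℂ, (∀ s ∈ S, A h s = 0 ∧ 0 < s.re ∧ s.re < 1 ∧ T ≤ s.im ∧ s.im ≤ T + 1) →
    ∑ s ∈ S, ((analyticOrderNatAt (A h) s : ℝ) - if s.re = 1 / 2 then 1 else 0) ≤ ε * Real.log T) ∧
  ∃ S : Finset ℝ, (∀ y ∈ S, T < y ∧ y < T + 1 ∧ A h (1 / 2 + y * I) = 0 ∧ deriv (A h) (1 / 2 + y * I) ≠ 0) ∧
    (1 - ε) * (Real.log T / (2 * Real.pi)) ≤ (S.card : ℝ)

theorem zeta_arg (h x : ℝ) : riemannZeta (1 / 2 + h + x * I) = riemannZeta (1 / 2 + h + I * x) := by
  rw [mul_comm (x : ℂ) I]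

theorem loc1 (hG : S_GLOB) (hL : S_LINF) {h ε : ℝ} (h0 : 0 < h) (h1 : h < 1 / 2) (hε : 0 < ε) : ∃ a κ B T₀ : ℝ, 0 < a ∧ 0 < κ ∧ 0 < B ∧
    ∀ T : ℝ, T₀ ≤ T → (∀ x : ℝ, |x - T| ≤ B * Real.log T → NF h a x ≤ κ * Real.log x) →
      ‖riemannZeta (1 / 2 + h + T * I)‖ ≤ T ^ ε := by
  obtain ⟨a, κ, B, T1, ha, hκ, hB, H⟩ := hL (FT Ph) Mt lt (env_R hG) h ε h0 h1 hε
  obtain ⟨T2, -, H2⟩ := zeta_of_X (e := ε / 2) (by positivity)
  refine ⟨a, κ, B, max T1 T2, ha, hκ, hB, fun T hT hN => ?_⟩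
  have k := H T ((le_max_left _ _).trans hT) (fun x hx => by
    rw [← NF_eq]
    exact hN x hx)
  have k2 := H2 T ((le_max_right _ _).trans hT) h ε h0.le h1.le hε.le k
  rw [zeta_arg]
  have e : ε / 2 + ε / 2 = ε := by ring
  rw [e] at k2
  exact k2

theorem loc2 (hG : S_GLOB) (hJ : S_JENF) {h a ε : ℝ} (h0 : 0 < h) (h1 : h < 1 / 2) (ha : 0 < a) (hε : 0 < ε) : ∃ η T₀ : ℝ, 0 < η ∧
    ∀ T : ℝ, T₀ ≤ T → (∀ x : ℝ, |x - T| ≤ Real.log T → ‖riemannZeta (1 / 2 + h + x * I)‖ ≤ T ^ η) → NF h a T ≤ ε * Real.log T := by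
  rcases le_or_gt a (1 / 2) with ha1 | ha1
  · obtain ⟨η, T1, hη, H⟩ := hJ (FT Ph) Mt lt (env_R hG) h a ε h0 h1 ha ha1 hε
    obtain ⟨T2, -, H2⟩ := X_of_zeta hη
    refine ⟨η / 4, max T1 T2, by positivity, fun T hT hz => ?_⟩
    rw [NF_eq]
    refine H T ((le_max_left _ _).trans hT) (H2 T ((le_max_right _ _).trans hT) h h0.le h1.le fun x hx => ?_)
    rw [← zeta_arg]
    exact hz x hx
  · refine ⟨1, 1, one_pos, fun T hT _ => ?_⟩
    have he : Far h a T = ∅ := by
      rw [Set.eq_empty_iff_forall_notMem]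
      rintro s ⟨_, b, c, _⟩
      linarith
    unfold NF
    rw [he, finsum_mem_empty]
    exact mul_nonneg hε.le (Real.log_nonneg hT)

theorem order_ge_two {F : ℂ → ℂ} (hF : Differentiable ℂ F) {C z : ℂ} (hC : F C ≠ 0) (hz : F z = 0)
    (hd : deriv F z = 0) : 2 ≤ analyticOrderNatAt F z := by
  have h1 : analyticOrderAt F z ≠ ⊤ := by
    intro h
    rw [analyticOrderAt_eq_top] at h
    have h2 : AnalyticOnNhd ℂ F Set.univ := fun z _ => hF.analyticAt z
    exact hC (h2.eqOn_zero_of_preconnected_of_eventuallyEq_zero isPreconnected_univ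
      (Set.mem_univ z) h (Set.mem_univ C))
  have h3 := (hF.analyticAt z).analyticOrderAt_deriv_add_one
  rw [hz] at h3
  simp only [sub_zero] at h3
  have h4 : analyticOrderAt (deriv F) z ≠ 0 := by
    intro h
    exact ((hF.analyticAt z).deriv.analyticOrderAt_eq_zero.mp h) hd
  have h5 : 1 ≤ analyticOrderAt (deriv F) z := Order.one_le_iff_ne_zero.mpr h4
  have h6 : (2 : ℕ∞) ≤ analyticOrderAt F z := by
    rw [← h3]
    calc (2 : ℕ∞) = 1 + 1 := by norm_num
      _ ≤ _ := by gcongr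
  unfold analyticOrderNatAt
  obtain ⟨n, hn⟩ := ENat.ne_top_iff_exists.mp h1
  rw [← hn] at h6 ⊢
  rw [ENat.toNat_natCast]
  exact_mod_cast h6

theorem A_ne (hG : S_GLOB) {h : ℝ} (h0 : 0 < h) (h1 : h ≤ 1 / 2) : ∃ C, A h C ≠ 0 := by
  -- the average at `h / 2`-type windows: use the size of `Ξ`
  obtain ⟨T0, H⟩ := (env_R hG).loc 1 (h / 4) one_pos (by positivity)
  obtain ⟨T1, H1⟩ := lt_large (4 / h + 1)
  obtain ⟨t, ht⟩ : ∃ t : ℝ, t = max (max T0 T1) 1 := ⟨_, rfl⟩
  have a1 : T0 ≤ t := by rw [ht]; exact (le_max_left _ _).trans (le_max_left _ _)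
  have a2 : T1 ≤ t := by rw [ht]; exact (le_max_right _ _).trans (le_max_left _ _)
  have a3 : 1 ≤ t := by rw [ht]; exact le_max_right _ _
  have hLB := H t a1
  have hM := Pool.Agent.H477.S.Mt_pos a3
  have hl := H1 t a2
  have hlh : 4 + h ≤ lt t * h := by
    have := mul_le_mul_of_nonneg_right hl h0.le
    have e : (4 / h + 1) * h = 4 + h := by field_simp
    rw [e] at this
    exact this
  refine ⟨1 / 2 + I * (t - I * 2), fun hz => ?_⟩
  rw [A_eq'] at hz
  have e1 : Av (FT Ph) h (t - I * 2) = FT Ph (t + -(I * ((2 - h : ℝ) : ℂ))) + FT Ph (t + -(I * ((2 + h : ℝ) : ℂ))) := by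
    unfold Av
    push_cast
    congr 2 <;> ring
  have him : ∀ y : ℝ, (-(I * (y : ℂ))).im = -y := fun y => by simp
  have hno : ∀ y : ℝ, 0 ≤ y → ‖-(I * (y : ℂ))‖ = y := fun y hy => by
    rw [norm_neg, norm_mul, norm_I, one_mul, Complex.norm_real, Real.norm_eq_abs, abs_of_nonneg hy]
  have hu : ‖FT Ph (t + -(I * ((2 - h : ℝ) : ℂ)))‖ ≤ Mt t * Real.exp (lt t * max |(-(I * ((2 - h : ℝ) : ℂ))).im| (1 / 2) + h / 4 * lt t) :=
    hLB.up (-(I * ((2 - h : ℝ) : ℂ))) (by rw [hno _ (by linarith)]; linarith)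
  have hlo : Mt t * Real.exp (lt t * |(-(I * ((2 + h : ℝ) : ℂ))).im| - h / 4 * lt t) ≤ ‖FT Ph (t + -(I * ((2 + h : ℝ) : ℂ)))‖ :=
    hLB.low (-(I * ((2 + h : ℝ) : ℂ))) (by rw [hno _ (by linarith)]; linarith) (by rw [him]; linarith)
  rw [him, abs_neg, abs_of_pos (by linarith), max_eq_left (by linarith)] at hu
  rw [him, abs_neg, abs_of_pos (by linarith)] at hlo
  rw [e1] at hz
  have h5 : FT Ph (t + -(I * ((2 + h : ℝ) : ℂ))) = -FT Ph (t + -(I * ((2 - h : ℝ) : ℂ))) := by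
    rw [eq_neg_iff_add_eq_zero, add_comm]
    exact hz
  rw [h5, norm_neg] at hlo
  have h6 := hlo.trans hu
  have h7 := le_of_mul_le_mul_left h6 hM
  have h8 := Real.exp_le_exp.1 h7
  have h9 : lt t * (2 + h) - h / 4 * lt t - (lt t * (2 - h) + h / 4 * lt t) = 3 / 2 * (lt t * h) := by ring
  linarith

theorem order_ge_one {F : ℂ → ℂ} (hF : Differentiable ℂ F) {C z : ℂ} (hC : F C ≠ 0) (hz : F z = 0) :
    1 ≤ analyticOrderNatAt F z := by
  have h1 : analyticOrderAt F z ≠ ⊤ := by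
    intro h
    rw [analyticOrderAt_eq_top] at h
    have h2 : AnalyticOnNhd ℂ F Set.univ := fun z _ => hF.analyticAt z
    exact hC (h2.eqOn_zero_of_preconnected_of_eventuallyEq_zero isPreconnected_univ
      (Set.mem_univ z) h (Set.mem_univ C))
  have h2 : analyticOrderAt F z ≠ 0 := by
    intro h
    exact ((hF.analyticAt z).analyticOrderAt_eq_zero.mp h) hz
  unfold analyticOrderNatAt
  rw [Nat.one_le_iff_ne_zero]
  intro h
  rw [ENat.toNat_eq_zero] at h
  rcases h with h | h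
  · exact h2 h
  · exact h1 h

theorem loc3 (hG : S_GLOB) (hS : S_SEG) (hO : S_OFF) {h h₁ ε : ℝ} (h0 : 0 < h) (h1 : h < h₁) (h2 : h₁ ≤ 1 / 2) (hε : 0 < ε) :
    ∃ η T₀ : ℝ, 0 < η ∧ ∀ T : ℝ, T₀ ≤ T → (∀ x : ℝ, |x - T| ≤ 2 * Real.log T → ‖riemannZeta (1 / 2 + h + x * I)‖ ≤ T ^ η) →
      ∀ h' : ℝ, h₁ ≤ h' → h' ≤ 1 / 2 → NearlyAll h' T ε := by
  classical
  obtain ⟨e, he⟩ : ∃ e : ℝ, e = min ε 1 / 32 := ⟨_, rfl⟩
  have hm : 0 < min ε 1 := lt_min hε one_pos
  have he0 : 0 < e := by rw [he]; positivity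
  have he1 : 32 * e ≤ ε := by rw [he]; linarith [min_le_left ε 1]
  have he2 : 32 * e ≤ 1 := by rw [he]; linarith [min_le_right ε 1]
  obtain ⟨η, T1, hη, hT1, H⟩ := near2 hG hS hO (h := h) (ε0 := h₁ - h) (ε := e) h0 (by linarith) (by linarith) (by linarith) he0 (by linarith)
  refine ⟨η, max T1 (Real.exp 2), hη, fun T hT hz h' h3 h4 => ?_⟩
  have a1 : T1 ≤ T := (le_max_left _ _).trans hT
  have a2 : Real.exp 2 ≤ T := (le_max_right _ _).trans hT
  have t1 : 1 ≤ T := hT1.trans a1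
  have hT0 : 0 < T := by linarith
  have hlog2 : 2 ≤ Real.log T := by
    rw [Real.le_log_iff_exp_le hT0]
    exact a2
  have hlT1 : Real.log (T + 1) ≤ Real.log T + 1 := by
    have h50 : 0 < 1 + 1 / T := by
      have := div_pos one_pos hT0
      linarith
    have h5 : Real.log (T + 1) = Real.log T + Real.log (1 + 1 / T) := by
      rw [← Real.log_mul hT0.ne' h50.ne']
      congr 1
      field_simp
    have h6 := Real.log_le_sub_one_of_pos h50
    have h7 : 1 / T ≤ 1 := by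
      rw [div_le_iff₀ hT0]
      linarith
    linarith
  have hc : ∀ c : ℝ, T ≤ c → c ≤ T + 3 / 4 → (∀ x : ℝ, |x - c| ≤ Real.log c → ‖riemannZeta (1 / 2 + h + I * x)‖ ≤ c ^ η) ∧
      Real.log c ≤ Real.log T + 1 ∧ Real.log T ≤ Real.log c := by
    intro c c1 c2
    have c3 : Real.log c ≤ Real.log (T + 1) := Real.log_le_log (by linarith) (by linarith)
    have c4 : Real.log T ≤ Real.log c := Real.log_le_log hT0 c1
    have h5 : Real.log c ≤ Real.log T + 1 := c3.trans hlT1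
    refine ⟨fun x hx => ?_, h5, c4⟩
    rw [← zeta_arg]
    refine (hz x ?_).trans (Real.rpow_le_rpow hT0.le c1 hη.le)
    -- a finer bound of the logarithm
    have h6 : Real.log c ≤ Real.log T + 1 / 4 + 1 / 4 := by
      have h70 : 0 < c / T := div_pos (by linarith) hT0
      have h7 : Real.log c = Real.log T + Real.log (c / T) := by
        rw [← Real.log_mul hT0.ne' h70.ne']
        congr 1
        field_simp
      have h8 := Real.log_le_sub_one_of_pos h70
      have h9 : c / T - 1 ≤ 1 / 4 := by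
        have h10 : (7 : ℝ) ≤ Real.exp 2 := by
          have h12 : (2.7 : ℝ) ≤ Real.exp 1 := by
            have := Real.exp_one_gt_d9
            linarith
          have h13 : Real.exp 2 = Real.exp 1 * Real.exp 1 := by rw [← Real.exp_add]; norm_num
          rw [h13]
          nlinarith
        rw [sub_le_iff_le_add, div_le_iff₀ hT0]
        linarith
      linarith
    have h11 := abs_le.1 hx
    rw [abs_le]
    constructor <;> linarith
  obtain ⟨z1, l1, l1'⟩ := hc (T + 1 / 4) (by linarith) (by linarith)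
  obtain ⟨z2, l2, l2'⟩ := hc (T + 3 / 4) (by linarith) le_rfl
  obtain ⟨p1, S1, q1, q1'⟩ := H (T + 1 / 4) (by linarith) z1 h' (by linarith) h4
  obtain ⟨p2, S2, q2, q2'⟩ := H (T + 3 / 4) (by linarith) z2 h' (by linarith) h4
  have hsum : ∀ S : Finset ℂ, (∀ s ∈ S, A h' s = 0 ∧ 0 < s.re ∧ s.re < 1 ∧ T ≤ s.im ∧ s.im ≤ T + 1) →
      ∑ s ∈ S, ((analyticOrderNatAt (A h') s : ℝ) - if s.re = 1 / 2 then 1 else 0) ≤ 3 * e * Real.log T := by
    intro S hS
    rw [← Finset.sum_filter_add_sum_filter_not S (fun s => s.im ≤ T + 1 / 2)]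
    have k1 := p1 (S.filter (fun s => s.im ≤ T + 1 / 2)) (by
      intro s hs
      rw [Finset.mem_filter] at hs
      obtain ⟨b1, b2, b3, b4, b5⟩ := hS s hs.1
      refine ⟨b1, b2.le, b3.le, ?_⟩
      rw [abs_le]
      constructor <;> linarith [hs.2])
    have k2 := p2 (S.filter (fun s => ¬ s.im ≤ T + 1 / 2)) (by
      intro s hs
      rw [Finset.mem_filter] at hs
      obtain ⟨b1, b2, b3, b4, b5⟩ := hS s hs.1
      have b6 := not_le.1 hs.2
      refine ⟨b1, b2.le, b3.le, ?_⟩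
      rw [abs_le]
      constructor <;> linarith)
    have k3 : e * Real.log (T + 1 / 4) ≤ e * (Real.log T + 1) := mul_le_mul_of_nonneg_left l1 he0.le
    have k4 : e * Real.log (T + 3 / 4) ≤ e * (Real.log T + 1) := mul_le_mul_of_nonneg_left l2 he0.le
    have k5 : e * 2 ≤ e * Real.log T := mul_le_mul_of_nonneg_left hlog2 he0.le
    linarith
  have hlT0 : 0 ≤ Real.log T := by linarith
  refine ⟨fun S hS => (hsum S hS).trans ?_, ?_⟩
  · exact mul_le_mul_of_nonneg_right (by linarith) hlT0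
  · obtain ⟨C, hC⟩ := A_ne hG (show 0 < h' by linarith) h4
    have hAd := A_diff h'
    have hsw : ∀ y : ℝ, (1 / 2 : ℂ) + y * I = 1 / 2 + I * y := fun y => by rw [mul_comm]
    have hSz : ∀ y ∈ S1 ∪ S2, T < y ∧ y < T + 1 ∧ A h' (1 / 2 + y * I) = 0 := by
      intro y hy
      rcases Finset.mem_union.1 hy with hy | hy
      · obtain ⟨b1, b2, b3⟩ := q1 y hy
        exact ⟨by linarith, by linarith, by rw [hsw]; exact b3⟩
      · obtain ⟨b1, b2, b3⟩ := q2 y hy
        exact ⟨by linarith, by linarith, by rw [hsw]; exact b3⟩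
    have hdisj : Disjoint S1 S2 := by
      rw [Finset.disjoint_left]
      intro y b1 b2
      have b3 := (q1 y b1).2.1
      have b4 := (q2 y b2).1
      linarith
    refine ⟨(S1 ∪ S2).filter (fun y : ℝ => deriv (A h') (1 / 2 + y * I) ≠ 0), ?_, ?_⟩
    · intro y hy
      rw [Finset.mem_filter] at hy
      obtain ⟨b1, b2, b3⟩ := hSz y hy.1
      exact ⟨b1, b2, b3, hy.2⟩
    · -- the multiple zeros
      have hinj : Function.Injective (fun y : ℝ => (1 / 2 : ℂ) + y * I) := by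
        intro x y hxy
        have h5 : (1 / 2 : ℂ) + x * I = 1 / 2 + y * I := hxy
        have h6 := mul_right_cancel₀ I_ne_zero (add_left_cancel h5)
        exact_mod_cast h6
      have hD := hsum (((S1 ∪ S2).filter (fun y : ℝ => ¬ deriv (A h') (1 / 2 + y * I) ≠ 0)).image (fun y : ℝ => (1 / 2 : ℂ) + y * I)) (by
        intro s hs
        rw [Finset.mem_image] at hs
        obtain ⟨y, hy, rfl⟩ := hs
        rw [Finset.mem_filter] at hy
        obtain ⟨b1, b2, b3⟩ := hSz y hy.1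
        refine ⟨b3, ?_, ?_, ?_, ?_⟩
        · simp
        · simp; norm_num
        · simp; linarith
        · simp; linarith)
      rw [Finset.sum_image (fun a _ b _ hab => hinj hab)] at hD
      have hD2 : (((S1 ∪ S2).filter (fun y : ℝ => ¬ deriv (A h') (1 / 2 + y * I) ≠ 0)).card : ℝ) ≤
          ∑ y ∈ (S1 ∪ S2).filter (fun y : ℝ => ¬ deriv (A h') (1 / 2 + y * I) ≠ 0),
            ((analyticOrderNatAt (A h') ((1 / 2 : ℂ) + y * I) : ℝ) - if ((1 / 2 : ℂ) + y * I).re = 1 / 2 then 1 else 0) := by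
        rw [Finset.card_eq_sum_ones]
        push_cast
        refine Finset.sum_le_sum fun y hy => ?_
        rw [Finset.mem_filter, not_not] at hy
        have b := order_ge_two hAd hC (hSz y hy.1).2.2 hy.2
        have b' : (2 : ℝ) ≤ (analyticOrderNatAt (A h') ((1 / 2 : ℂ) + y * I) : ℝ) := by exact_mod_cast b
        split_ifs <;> linarith
      have hcard : (((S1 ∪ S2).filter (fun y : ℝ => deriv (A h') (1 / 2 + y * I) ≠ 0)).card : ℝ) +
          (((S1 ∪ S2).filter (fun y : ℝ => ¬ deriv (A h') (1 / 2 + y * I) ≠ 0)).card : ℝ) = (S1.card : ℝ) + S2.card := by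
        have h5 := Finset.card_filter_add_card_filter_not (s := S1 ∪ S2) (fun y : ℝ => deriv (A h') (1 / 2 + y * I) ≠ 0)
        rw [Finset.card_union_of_disjoint hdisj] at h5
        exact_mod_cast h5
      have hπ := Real.pi_pos
      have hπ4 := Real.pi_lt_four
      have m1 : (1 - e) * (Real.log T / (4 * Real.pi)) ≤ (S1.card : ℝ) := by
        refine le_trans ?_ q1'
        apply mul_le_mul_of_nonneg_left _ (by linarith)
        exact div_le_div_of_nonneg_right l1' (by positivity)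
      have m2 : (1 - e) * (Real.log T / (4 * Real.pi)) ≤ (S2.card : ℝ) := by
        refine le_trans ?_ q2'
        apply mul_le_mul_of_nonneg_left _ (by linarith)
        exact div_le_div_of_nonneg_right l2' (by positivity)
      have e5 : Real.log T / (2 * Real.pi) = 2 * (Real.log T / (4 * Real.pi)) := by
        field_simp
        ring
      have e6 : Real.log T = 4 * Real.pi * (Real.log T / (4 * Real.pi)) := by
        field_simp
      obtain ⟨L, hL⟩ : ∃ L : ℝ, L = Real.log T / (4 * Real.pi) := ⟨_, rfl⟩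
      rw [← hL] at m1 m2 e5 e6
      have hL0 : 0 ≤ L := by rw [hL]; positivity
      rw [e5]
      have hD3 := hD2.trans hD
      rw [e6] at hD3
      have e7 : 3 * e * (4 * Real.pi * L) ≤ 3 * e * (16 * L) := by
        apply mul_le_mul_of_nonneg_left _ (by linarith)
        exact mul_le_mul_of_nonneg_right (by linarith) hL0
      have e8 : 32 * e * L ≤ ε * L := mul_le_mul_of_nonneg_right he1 hL0
      linarith

end Pool.Agent.H606.AV
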