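import Pool.Agent.H606.AV.LFe

set_option autoImplicit false

/-!
# Project LF (helper606): the global statements
-/

open Finset Complex Filter Topology Metric Set MeasureTheory

namespace Pool.Agent.H606.AV

open Pool.Agent.Helper242.KK (FT Ph)
open Pool.Agent.H477.Jen
open Pool.Agent.H477.E Pool.Agent.H477.EU
open Pool.Agent.H477.S (Mt lt Wf ZR)

/-- at the distance at least `a` there are few zeros -/
def FewFar (h : ℝ) : Prop := ∀ a ε : ℝ, 0 < a → 0 < ε → ∃ T₀ : ℝ, ∀ T : ℝ, T₀ ≤ T → NF h a T ≤ ε * Real.log T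

/-- bounds between lines -/
theorem strip (hG : S_GLOB) {h e : ℝ} (h0 : 0 ≤ h) (h1 : h < 1 / 2) (he0 : 0 < e) (he1 : e ≤ 1) : ∃ T0 : ℝ, 4 ≤ T0 ∧ ∀ t : ℝ, T0 ≤ t →
    (∀ x : ℝ, |x - t| ≤ Real.log t → ‖riemannZeta (1 / 2 + h + x * I)‖ ≤ t ^ (e / 8 / 4)) →
    ∀ y : ℝ, 0 ≤ y → y ≤ 1 / 2 → ‖riemannZeta (1 / 2 + y + t * I)‖ ≤ t ^ ((max y h - y + e / 2) / 2 + e) := by
  obtain ⟨T1, H1⟩ := upper4 (FT Ph) Mt lt (env_R hG) h e h0 h1 he0 he1
  obtain ⟨T2, -, H2⟩ := X_of_zeta (η := e / 8) (by positivity)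
  obtain ⟨T3, h4, H3⟩ := zeta_of_X he0
  refine ⟨max (max T1 T2) T3, h4.trans (le_max_right _ _), fun t ht hz y hy0 hy1 => ?_⟩
  have a1 : T1 ≤ t := ((le_max_left _ _).trans (le_max_left _ _)).trans ht
  have a2 : T2 ≤ t := ((le_max_right _ _).trans (le_max_left _ _)).trans ht
  have a3 : T3 ≤ t := (le_max_right _ _).trans ht
  obtain ⟨b1, b2, b3⟩ := H1 t a1
  have b4 := b3 (H2 t a2 h h0 h1.le (fun x hx => by rw [← zeta_arg]; exact hz x hx)) (-(I * (y : ℂ)))
    (by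
      rw [norm_neg, norm_mul, norm_I, one_mul, Complex.norm_real, Real.norm_eq_abs, abs_of_nonneg hy0]
      linarith)
    (by
      have : (-(I * (y : ℂ))).im = -y := by simp
      rw [this]
      linarith)
  have e1 : (-(I * (y : ℂ))).im = -y := by simp
  have e2 : (t : ℂ) + -(I * (y : ℂ)) = t - I * y := by ring
  rw [e1, e2, neg_neg] at b4
  rw [zeta_arg]
  refine H3 t a3 y (max y h - y + e / 2) hy0 hy1 ?_ ?_
  · have := le_max_left y h
    linarith
  · refine b4.trans (le_of_eq ?_)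
    congr 2
    ring

/-- the Lindelöf bound in windows -/
theorem window {h : ℝ} (H : LineBound h) {η : ℝ} (hη : 0 < η) : ∃ T0 : ℝ, 1 ≤ T0 ∧ ∀ T : ℝ, T0 ≤ T → ∀ x : ℝ, |x - T| ≤ 2 * Real.log T →
    ‖riemannZeta (1 / 2 + h + x * I)‖ ≤ T ^ η := by
  obtain ⟨C, hC⟩ := H (η / 2) (by positivity)
  obtain ⟨T1, hT1⟩ := Pool.Agent.H297.N.large_B 2
  obtain ⟨T2, hT2⟩ := ((tendsto_rpow_atTop (show 0 < η / 2 by positivity)).eventually_ge_atTop (|C| * 4 ^ (η / 2))).exists_forall_of_atTop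
  refine ⟨max (max T1 T2) 1, le_max_right _ _, fun T hT x hx => ?_⟩
  have a1 : T1 ≤ T := ((le_max_left _ _).trans (le_max_left _ _)).trans hT
  have a2 : T2 ≤ T := ((le_max_right _ _).trans (le_max_left _ _)).trans hT
  have a3 : 1 ≤ T := (le_max_right _ _).trans hT
  have hT0 : 0 < T := by linarith
  have b1 := hT1 T a1
  have b2 := abs_le.1 hx
  have b3 : 1 + |x| ≤ 4 * T := by
    have : |x| ≤ 2 * T := by
      rw [abs_le]
      constructor <;> linarith
    linarith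
  calc ‖riemannZeta (1 / 2 + h + x * I)‖ ≤ C * (1 + |x|) ^ (η / 2) := hC x
    _ ≤ |C| * (4 * T) ^ (η / 2) := by
        have c1 : (0 : ℝ) ≤ (1 + |x|) ^ (η / 2) := by positivity
        have c2 : (1 + |x|) ^ (η / 2) ≤ (4 * T) ^ (η / 2) := Real.rpow_le_rpow (by positivity) b3 (by positivity)
        calc C * (1 + |x|) ^ (η / 2) ≤ |C| * (1 + |x|) ^ (η / 2) := mul_le_mul_of_nonneg_right (le_abs_self C) c1
          _ ≤ _ := mul_le_mul_of_nonneg_left c2 (abs_nonneg C)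
    _ = (|C| * 4 ^ (η / 2)) * T ^ (η / 2) := by
        rw [Real.mul_rpow (by norm_num) hT0.le]
        ring
    _ ≤ T ^ (η / 2) * T ^ (η / 2) := by
        apply mul_le_mul_of_nonneg_right _ (by positivity)
        exact hT2 T a2
    _ = T ^ η := by
        rw [← Real.rpow_add hT0]
        congr 1
        ring

/-- from large heights to all heights -/
theorem all_heights {h ε : ℝ} (h0 : 0 ≤ h) (h1 : h < 1 / 2) (hε : 0 < ε) (H : ∃ T0 : ℝ, ∀ T : ℝ, T0 ≤ T → ‖riemannZeta (1 / 2 + h + T * I)‖ ≤ T ^ ε) :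
    ∃ C : ℝ, ∀ t : ℝ, ‖riemannZeta (1 / 2 + h + t * I)‖ ≤ C * (1 + |t|) ^ ε := by
  obtain ⟨T0, HT⟩ := H
  obtain ⟨T1, hT1⟩ : ∃ T1 : ℝ, T1 = max T0 1 := ⟨_, rfl⟩
  have hcont : ContinuousOn (fun t : ℝ => riemannZeta (1 / 2 + h + t * I)) (Set.Icc (-T1) T1) := by
    intro t _
    apply ContinuousAt.continuousWithinAt
    have hne : (1 / 2 : ℂ) + h + t * I ≠ 1 := by
      intro hh
      have := congrArg Complex.re hh
      simp at this
      linarith
    exact ContinuousAt.comp (f := fun t : ℝ => (1 / 2 : ℂ) + h + t * I) (differentiableAt_riemannZeta hne).continuousAt (by fun_prop)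
  obtain ⟨K, hK⟩ := isCompact_Icc.exists_bound_of_continuousOn hcont
  have hbig : ∀ t : ℝ, T1 ≤ t → ‖riemannZeta (1 / 2 + h + t * I)‖ ≤ (1 + |t|) ^ ε := by
    intro t ht
    have h2 : T0 ≤ t := (by rw [hT1] at ht; exact (le_max_left _ _).trans ht)
    have h3 : 1 ≤ t := (by rw [hT1] at ht; exact (le_max_right _ _).trans ht)
    refine (HT t h2).trans (Real.rpow_le_rpow (by linarith) ?_ hε.le)
    rw [abs_of_nonneg (by linarith)]
    linarith
  refine ⟨max |K| 1, fun t => ?_⟩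
  have hp : (1 : ℝ) ≤ (1 + |t|) ^ ε := Real.one_le_rpow (by linarith [abs_nonneg t]) hε.le
  have hm1 : |K| ≤ max |K| 1 := le_max_left _ _
  have hm2 : 1 ≤ max |K| 1 := le_max_right _ _
  rcases le_or_gt T1 t with h2 | h2
  · refine (hbig t h2).trans ?_
    calc (1 + |t|) ^ ε = 1 * (1 + |t|) ^ ε := (one_mul _).symm
      _ ≤ _ := mul_le_mul_of_nonneg_right hm2 (by linarith)
  · rcases le_or_gt t (-T1) with h3 | h3
    · have h4 := hbig (-t) (by linarith)
      have h5 : (1 / 2 : ℂ) + h + ((-t : ℝ) : ℂ) * I = (starRingEnd ℂ) (1 / 2 + h + t * I) := by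
        apply Complex.ext <;> simp
      rw [h5, riemannZeta_conj, Complex.norm_conj, abs_neg] at h4
      refine h4.trans ?_
      calc (1 + |t|) ^ ε = 1 * (1 + |t|) ^ ε := (one_mul _).symm
        _ ≤ _ := mul_le_mul_of_nonneg_right hm2 (by linarith)
    · have h6 : ‖riemannZeta (1 / 2 + h + t * I)‖ ≤ K := hK t ⟨h3.le, h2.le⟩
      calc ‖riemannZeta (1 / 2 + h + t * I)‖ ≤ K := h6
        _ ≤ |K| := le_abs_self K
        _ ≤ max |K| 1 * 1 := by rw [mul_one]; exact hm1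
        _ ≤ _ := mul_le_mul_of_nonneg_left hp (by linarith)

theorem line_iff (hG : S_GLOB) (hL : S_LINF) (hJ : S_JENF) {h : ℝ} (h0 : 0 < h) (h1 : h < 1 / 2) : LineBound h ↔ FewFar h := by
  constructor
  · intro H a ε ha hε
    obtain ⟨η, T1, hη, H1⟩ := loc2 hG hJ h0 h1 ha hε
    obtain ⟨T2, hT2, H2⟩ := window H hη
    refine ⟨max T1 T2, fun T hT => H1 T ((le_max_left _ _).trans hT) fun x hx => ?_⟩
    refine H2 T ((le_max_right _ _).trans hT) x (hx.trans ?_)
    have := Real.log_nonneg (hT2.trans ((le_max_right _ _).trans hT))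
    linarith
  · intro H ε hε
    apply all_heights h0.le h1 hε
    obtain ⟨a, κ, B, T1, ha, hκ, hB, H1⟩ := loc1 hG hL h0 h1 hε
    obtain ⟨T2, H2⟩ := H a κ ha hκ
    obtain ⟨T3, hT3⟩ := Pool.Agent.H297.N.large_B B
    refine ⟨max (max T1 (2 * |T2|)) T3, fun T hT => H1 T (((le_max_left _ _).trans (le_max_left _ _)).trans hT) fun x hx => H2 x ?_⟩
    have b1 := hT3 T ((le_max_right _ _).trans hT)
    have b2 : 2 * |T2| ≤ T := ((le_max_right _ _).trans (le_max_left _ _)).trans hT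
    have b3 := abs_le.1 hx
    have b4 := le_abs_self T2
    linarith

theorem lindelof_zero : Lindelof ↔ LineBound 0 := by
  unfold Lindelof LineBound
  simp only [ofReal_zero, add_zero]

theorem line_of_lindelof (hG : S_GLOB) (H : Lindelof) {h : ℝ} (h0 : 0 < h) (h1 : h < 1 / 2) : LineBound h := by
  intro ε hε
  apply all_heights h0.le h1 hε
  obtain ⟨e, he⟩ : ∃ e : ℝ, e = min ε 1 / 2 := ⟨_, rfl⟩
  have hm : 0 < min ε 1 := lt_min hε one_pos
  have he0 : 0 < e := by rw [he]; positivity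
  have he1 : 2 * e ≤ ε := by rw [he]; linarith [min_le_left ε 1]
  have he2 : 2 * e ≤ 1 := by rw [he]; linarith [min_le_right ε 1]
  obtain ⟨T1, h4, H1⟩ := strip hG (h := 0) (e := e) le_rfl (by norm_num) he0 (by linarith)
  obtain ⟨T2, hT2, H2⟩ := window (lindelof_zero.1 H) (η := e / 8 / 4) (by positivity)
  refine ⟨max T1 T2, fun T hT => ?_⟩
  have t1 : 1 ≤ T := hT2.trans ((le_max_right _ _).trans hT)
  have k := H1 T ((le_max_left _ _).trans hT) (fun x hx => H2 T ((le_max_right _ _).trans hT) x (by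
    have := Real.log_nonneg t1
    linarith)) h h0.le h1.le
  refine k.trans (Real.rpow_le_rpow_of_exponent_le t1 ?_)
  rw [max_eq_left h0.le]
  linarith

theorem lindelof_of_lines (hG : S_GLOB) (H : ∀ δ : ℝ, 0 < δ → ∃ h : ℝ, 0 < h ∧ h < δ ∧ h < 1 / 2 ∧ LineBound h) : Lindelof := by
  rw [lindelof_zero]
  intro ε hε
  apply all_heights le_rfl (by norm_num) hε
  obtain ⟨e, he⟩ : ∃ e : ℝ, e = min ε 1 / 4 := ⟨_, rfl⟩
  have hm : 0 < min ε 1 := lt_min hε one_pos
  have he0 : 0 < e := by rw [he]; positivity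
  have he1 : 4 * e ≤ ε := by rw [he]; linarith [min_le_left ε 1]
  have he2 : 4 * e ≤ 1 := by rw [he]; linarith [min_le_right ε 1]
  obtain ⟨h, h0, hδ, h1, HL⟩ := H e he0
  obtain ⟨T1, h4, H1⟩ := strip hG h0.le h1 he0 (by linarith)
  obtain ⟨T2, hT2, H2⟩ := window HL (η := e / 8 / 4) (by positivity)
  refine ⟨max T1 T2, fun T hT => ?_⟩
  have t1 : 1 ≤ T := hT2.trans ((le_max_right _ _).trans hT)
  have k := H1 T ((le_max_left _ _).trans hT) (fun x hx => H2 T ((le_max_right _ _).trans hT) x (by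
    have := Real.log_nonneg t1
    linarith)) 0 le_rfl (by norm_num)
  refine k.trans (Real.rpow_le_rpow_of_exponent_le t1 ?_)
  rw [max_eq_right h0.le]
  linarith

theorem few_of_nearly (hG : S_GLOB) {h : ℝ} (h0 : 0 < h) (h1 : h < 1 / 2)
    (H : ∀ ε : ℝ, 0 < ε → ∃ T₀ : ℝ, ∀ T : ℝ, T₀ ≤ T → NearlyAll h T ε) : FewFar h := by
  classical
  intro a ε ha hε
  obtain ⟨T1, H1⟩ := H (ε / 2) (by positivity)
  refine ⟨max T1 1 + 1, fun T hT => ?_⟩
  have a1 : T1 ≤ T - 1 := by linarith [le_max_left T1 1]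
  have a2 : 1 ≤ T - 1 := by linarith [le_max_right T1 1]
  have hfin := Far_fin hG (T := T) h0 h1 ha
  have p1 := (H1 (T - 1) a1).1
  have p2 := (H1 T (by linarith)).1
  have e0 : NF h a T = ∑ s ∈ hfin.toFinset, (analyticOrderNatAt (A h) s : ℝ) := finsum_mem_eq_finite_toFinset_sum _ hfin
  have e1 : ∑ s ∈ hfin.toFinset, (analyticOrderNatAt (A h) s : ℝ) =
      ∑ s ∈ hfin.toFinset, ((analyticOrderNatAt (A h) s : ℝ) - if s.re = 1 / 2 then 1 else 0) := by
    refine Finset.sum_congr rfl fun s hs => ?_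
    rw [Set.Finite.mem_toFinset] at hs
    rw [if_neg (by
      have := hs.2.1
      intro hh
      linarith), sub_zero]
  rw [e0, e1, ← Finset.sum_filter_add_sum_filter_not hfin.toFinset (fun s => s.im ≤ T)]
  have k1 := p1 (hfin.toFinset.filter (fun s => s.im ≤ T)) (by
    intro s hs
    rw [Finset.mem_filter, Set.Finite.mem_toFinset] at hs
    obtain ⟨⟨b1, b2, b3, b4⟩, b5⟩ := hs
    rw [abs_le] at b4
    exact ⟨b1, by linarith, b3, by linarith, by linarith⟩)
  have k2 := p2 (hfin.toFinset.filter (fun s => ¬ s.im ≤ T)) (by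
    intro s hs
    rw [Finset.mem_filter, Set.Finite.mem_toFinset] at hs
    obtain ⟨⟨b1, b2, b3, b4⟩, b5⟩ := hs
    rw [abs_le] at b4
    rw [not_le] at b5
    exact ⟨b1, by linarith, b3, by linarith, by linarith⟩)
  have k3 : Real.log (T - 1) ≤ Real.log T := Real.log_le_log (by linarith) (by linarith)
  have k4 : ε / 2 * Real.log (T - 1) ≤ ε / 2 * Real.log T := mul_le_mul_of_nonneg_left k3 (by positivity)
  linarith

theorem nearly_of_lindelof (hG : S_GLOB) (hS : S_SEG) (hO : S_OFF) (H : Lindelof) {h ε : ℝ} (h0 : 0 < h) (h1 : h < 1 / 2) (hε : 0 < ε) :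
    ∃ T₀ : ℝ, ∀ T : ℝ, T₀ ≤ T → NearlyAll h T ε := by
  obtain ⟨η, T1, hη, H1⟩ := loc3 hG hS hO (h := h / 2) (h₁ := h) (ε := ε) (by positivity) (by linarith) h1.le hε
  obtain ⟨T2, -, H2⟩ := window (line_of_lindelof hG H (h := h / 2) (by positivity) (by linarith)) hη
  exact ⟨max T1 T2, fun T hT => H1 T ((le_max_left _ _).trans hT) (H2 T ((le_max_right _ _).trans hT)) h le_rfl h1.le⟩

end Pool.Agent.H606.AV
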