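import Pool.Agent.H606.AV.LFall

set_option autoImplicit false

/-!
# Project LF (helper606): nearly all zeros of the averages are simple and on the line at almost all heights, unconditionally
-/

open Finset Complex Filter Topology Metric Set MeasureTheory

namespace Pool.Agent.H606.AV

open Pool.Agent.Helper242.KK (FT Ph)
open Pool.Agent.H477.Jen
open Pool.Agent.H477.E Pool.Agent.H477.EU
open Pool.Agent.H477.S (Mt lt Wf ZR lt_ge Mt_pos)

theorem order_eq_one {F : ℂ → ℂ} (hF : Differentiable ℂ F) {z : ℂ} (hz : F z = 0) (hd : deriv F z ≠ 0) : analyticOrderNatAt F z = 1 := by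
  have h3 := (hF.analyticAt z).analyticOrderAt_deriv_add_one
  rw [hz] at h3
  simp only [sub_zero] at h3
  have h4 : analyticOrderAt (deriv F) z = 0 := (hF.analyticAt z).deriv.analyticOrderAt_eq_zero.mpr hd
  rw [h4, zero_add] at h3
  unfold analyticOrderNatAt
  rw [← h3]
  rfl

/-- without zeros of zeta to the right of `1/2 + 3h/4` near the height `t` -/
theorem nearly_of_Wf {h ε : ℝ} (h0 : 0 < h) (h1 : h ≤ 1 / 2) (hε : 0 < ε) : ∃ T0 : ℝ, ∀ t : ℝ, T0 ≤ t → Wf (3 * h / 4) t → NearlyAll h t ε := by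
  classical
  obtain ⟨e, he⟩ : ∃ e : ℝ, e = ε / 4 := ⟨_, rfl⟩
  have hepos : 0 < e := by rw [he]; linarith
  obtain ⟨ε1, hε1⟩ : ∃ ε1 : ℝ, ε1 = min (h / 4) (1 / 8) := ⟨_, rfl⟩
  have hε1pos : 0 < ε1 := by rw [hε1]; exact lt_min (by linarith) (by norm_num)
  have hε1a : ε1 ≤ h / 4 := by rw [hε1]; exact min_le_left _ _
  have hε1b : ε1 ≤ 1 / 8 := by rw [hε1]; exact min_le_right _ _
  obtain ⟨δ, η, lam0, hδ, hη, hlam0, hspc⟩ := Pool.Agent.H784.AV.S_SPC_proof ε1 e hε1pos hε1b hepos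
  obtain ⟨T1, hT1, hL⟩ := Pool.Agent.H477.S.q_lbl (3 * h / 4) (by linarith) (by linarith) δ η hδ hη
  obtain ⟨T2, hA⟩ := q_lawa (3 * h / 4) (h / 4) (by linarith) (by linarith) (by linarith)
  have hpi := Real.pi_pos
  have hpi3 := Real.pi_gt_three
  obtain ⟨N0, hN0⟩ : ∃ N0 : ℝ, ∀ t : ℝ, N0 ≤ t → 1 ≤ t ∧ T1 ≤ t ∧ T2 ≤ t ∧ lam0 ≤ lt t ∧
      4 * ((1 + e) * Real.pi) ≤ lt t ∧ 32 * Real.pi ≤ e * Real.log t := by
    have h1 : Tendsto (fun t : ℝ => 1 / 2 * Real.log t - 1) atTop atTop := by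
      have := (Real.tendsto_log_atTop.const_mul_atTop (by norm_num : (0 : ℝ) < 1 / 2))
      exact tendsto_atTop_add_const_right _ _ this
    have h2 := (eventually_ge_atTop (1 : ℝ)).and ((eventually_ge_atTop T1).and
      ((eventually_ge_atTop T2).and ((h1.eventually_ge_atTop lam0).and
        ((h1.eventually_ge_atTop (4 * ((1 + e) * Real.pi))).and
        ((Real.tendsto_log_atTop.const_mul_atTop hepos).eventually_ge_atTop (32 * Real.pi))))))
    obtain ⟨N0, hN0⟩ := eventually_atTop.1 h2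
    refine ⟨N0, fun t ht => ?_⟩
    obtain ⟨a1, a2, a3, a4, a5, a6⟩ := hN0 t ht
    exact ⟨a1, a2, a3, a4.trans (lt_ge a1), a5.trans (lt_ge a1), a6⟩
  refine ⟨N0, fun t ht hWf => ?_⟩
  obtain ⟨a1, a2, a3, a4, a5, a6⟩ := hN0 t ht
  have hlog0 : 0 ≤ Real.log t := Real.log_nonneg a1
  have hA' := hA t a3 hWf h (by linarith) (by linarith)
  -- all zeros near `t`
  have hz1 : ∀ s : ℂ, A h s = 0 → 0 < s.re → s.re < 1 → |s.im - t| ≤ 5 / 4 → s.re = 1 / 2 ∧ deriv (A h) s ≠ 0 := by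
    intro s b1 b2 b3 b4
    have key := hA' (-(I * (s - 1 / 2))) (by rw [W_re]; exact b4)
      (by rw [W_im, abs_le]; constructor <;> linarith) (by rw [← A_eq, b1])
    refine ⟨by have := key.1; rw [W_im] at this; linarith, deriv_A_ne key.2⟩
  constructor
  · intro S hS
    have h5 : ∑ s ∈ S, ((analyticOrderNatAt (A h) s : ℝ) - if s.re = 1 / 2 then 1 else 0) = 0 := by
      apply Finset.sum_eq_zero
      intro s hs
      obtain ⟨b1, b2, b3, b4, b5⟩ := hS s hs
      obtain ⟨c1, c2⟩ := hz1 s b1 b2 b3 (by rw [abs_le]; constructor <;> linarith)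
      rw [if_pos c1, order_eq_one (A_diff h) b1 c2]
      norm_num
    rw [h5]
    positivity
  · have hLB0 := hL t a2 hWf
    have hLB : LB (fun v : ℂ => FT Ph (t + v)) (Mt t) (lt t) (3 * h / 4) δ η := ⟨hLB0.diff, hLB0.conj, hLB0.up, hLB0.low⟩
    have hM := Mt_pos a1
    have hltpos : 0 < lt t := lt_of_lt_of_le (by positivity) a5
    obtain ⟨hz, -⟩ := hspc (fun v : ℂ => FT Ph (t + v)) (Mt t) (lt t) (3 * h / 4) h hM a4
      (by linarith) (by linarith) (by linarith) (by linarith) hLB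
    obtain ⟨l, hld⟩ : ∃ l : ℝ, l = (1 + e) * Real.pi / lt t := ⟨_, rfl⟩
    have hlpos : 0 < l := by rw [hld]; positivity
    have hl4 : l ≤ 1 / 4 := by
      rw [hld, div_le_iff₀ hltpos]
      linarith
    obtain ⟨S, hS1, hS2⟩ := Pool.Agent.H289.AV.S_CARD_proof (fun x => A h (1 / 2 + x * I) = 0 ∧ deriv (A h) (1 / 2 + x * I) ≠ 0) t l
      hlpos (by
      intro x hx1 hx2
      obtain ⟨x', hx'1, hx'2, hx'3⟩ := hz (x - t) (by
        rw [abs_le]
        constructor <;> linarith)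
      rw [← hld] at hx'2
      rw [av_shift] at hx'3
      have e2 : ((t : ℂ) + (x' : ℂ)) = ((t + x' : ℝ) : ℂ) := by push_cast; ring
      rw [e2] at hx'3
      have e3 : A h (1 / 2 + ((t + x' : ℝ) : ℂ) * I) = 0 := by
        rw [mul_comm _ I, A_eq']
        exact hx'3
      refine ⟨t + x', by linarith, by linarith, e3, ?_⟩
      refine (hz1 _ e3 ?_ ?_ ?_).2
      · simp
      · simp; norm_num
      · have e4 : (1 / 2 + ((t + x' : ℝ) : ℂ) * I).im = t + x' := by simp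
        rw [e4, abs_le]
        constructor <;> linarith)
    refine ⟨S.erase (t + 1), ?_, ?_⟩
    · intro y hy
      rw [Finset.mem_erase] at hy
      obtain ⟨b1, b2, b3⟩ := hS1 y hy.2
      exact ⟨b1, lt_of_le_of_ne b2 hy.1, b3.1, b3.2⟩
    · have hc1 : (S.card : ℝ) - 1 ≤ ((S.erase (t + 1)).card : ℝ) := by
        have := Finset.pred_card_le_card_erase (s := S) (a := t + 1)
        have h6 : S.card ≤ (S.erase (t + 1)).card + 1 := by omega
        have h7 : (S.card : ℝ) ≤ ((S.erase (t + 1)).card : ℝ) + 1 := by exact_mod_cast h6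
        linarith
      refine le_trans ?_ hc1
      have h1 : 1 / l = lt t / ((1 + e) * Real.pi) := by
        rw [hld, one_div_div]
      rw [h1] at hS2
      have h2 : (1 / 2 * Real.log t - 1) / ((1 + e) * Real.pi) ≤ lt t / ((1 + e) * Real.pi) :=
        div_le_div_of_nonneg_right (lt_ge a1) (by positivity)
      -- `(1 - ε) log t / 2π ≤ (log t / 2 - 1) / ((1 + e) π) - 2`
      have h3 : (1 - ε) * (Real.log t / (2 * Real.pi)) + 2 ≤ (1 / 2 * Real.log t - 1) / ((1 + e) * Real.pi) := by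
        rw [le_div_iff₀ (by positivity)]
        have e5 : ((1 - ε) * (Real.log t / (2 * Real.pi)) + 2) * ((1 + e) * Real.pi) =
            (1 - ε) * (1 + e) * (Real.log t / 2) + 2 * (1 + e) * Real.pi := by
          field_simp
        rw [e5]
        have e6 : (1 - ε) * (1 + e) ≤ 1 - 3 * e := by
          rw [he]
          nlinarith [mul_pos hε hε]
        have e7 : (1 - ε) * (1 + e) * (Real.log t / 2) ≤ (1 - 3 * e) * (Real.log t / 2) :=
          mul_le_mul_of_nonneg_right e6 (by linarith)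
        by_cases hε4 : ε ≤ 4
        · have e8 : 2 * (1 + e) * Real.pi ≤ 4 * Real.pi := by
            have : e ≤ 1 := by rw [he]; linarith
            nlinarith
          linarith
        · -- then the main term is negative
          have e9 : (1 - 3 * e) * (Real.log t / 2) = Real.log t / 2 - 3 / 2 * (e * Real.log t) := by ring
          have hL1 : 0 ≤ e * Real.log t := mul_nonneg hepos.le hlog0
          have e10 : 4 * ((1 + e) * Real.pi) ≤ 1 / 2 * Real.log t := by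
            have := Pool.Agent.H477.S.lt_le a1
            linarith
          have e11 : 1 ≤ e := by rw [he]; linarith
          have e12 : Real.log t ≤ e * Real.log t := by nlinarith
          linarith
      linarith

/-- few integers with many exceptional zeros, unconditionally -/
theorem nearly_count {h ε : ℝ} (h0 : 0 < h) (h1 : h ≤ 1 / 2) (hε : 0 < ε) : ∃ T0 : ℝ, ∀ T : ℝ, T0 ≤ T →
    ({n : ℕ | (n : ℝ) ≤ T ∧ ¬ NearlyAll h n ε}.ncard : ℝ) ≤ T ^ (1 - h / 4) := by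
  classical
  obtain ⟨N0, H⟩ := nearly_of_Wf h0 h1 hε
  obtain ⟨T1, HB⟩ := Pool.Agent.H965.AV.S_BAD_proof (3 * h / 4) (by linarith) (by linarith)
  have t1 : Tendsto (fun T : ℝ => T ^ (h / 8)) atTop atTop := tendsto_rpow_atTop (by linarith)
  obtain ⟨T2, hT2⟩ := eventually_atTop.1 ((t1.eventually_ge_atTop 4).and ((eventually_ge_atTop (1 : ℝ)).and
    ((eventually_ge_atTop (N0 ^ 2)).and (eventually_ge_atTop T1))))
  refine ⟨T2, fun T hT => ?_⟩
  obtain ⟨b1, b2, b3, b4⟩ := hT2 T hT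
  have hT0 : 0 < T := by linarith
  obtain ⟨Bad, hB1, hB2⟩ := HB T b4
  have hN0T : N0 ≤ Real.sqrt T := Real.le_sqrt_of_sq_le b3
  have hsub : {n : ℕ | (n : ℝ) ≤ T ∧ ¬ NearlyAll h n ε} ⊆
      ((Finset.range (⌊Real.sqrt T⌋₊ + 1) ∪ Finset.Icc ⌊T⌋₊ ⌊T⌋₊ ∪ Bad : Finset ℕ) : Set ℕ) := by
    rintro n ⟨c1, c2⟩
    rw [Finset.mem_coe, Finset.mem_union, Finset.mem_union, Finset.mem_range, Finset.mem_Icc]
    by_contra hc
    push Not at hc
    obtain ⟨⟨d1, d2⟩, d3⟩ := hc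
    have e1 : Real.sqrt T ≤ n := by
      have e2 : ⌊Real.sqrt T⌋₊ + 1 ≤ n := d1
      have e3 := Nat.lt_floor_add_one (Real.sqrt T)
      have e4 : ((⌊Real.sqrt T⌋₊ + 1 : ℕ) : ℝ) ≤ n := by exact_mod_cast e2
      push_cast at e4
      linarith
    have e5 : n ≤ ⌊T⌋₊ := Nat.le_floor c1
    have e6 : n + 1 ≤ ⌊T⌋₊ := by
      by_contra hh
      have e7 : n = ⌊T⌋₊ := by omega
      exact absurd (d2 (by omega)) (by omega)
    have e8 : (n : ℝ) + 1 ≤ T := by
      have e9 : ((n + 1 : ℕ) : ℝ) ≤ T := (Nat.cast_le.2 e6).trans (Nat.floor_le hT0.le)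
      push_cast at e9
      exact e9
    exact c2 (H n (hN0T.trans e1) (hB2 n e1 e8 d3))
  have hcard := Set.ncard_le_ncard hsub (Finset.finite_toSet _)
  rw [Set.ncard_coe_finset] at hcard
  have hcard2 : (Finset.range (⌊Real.sqrt T⌋₊ + 1) ∪ Finset.Icc ⌊T⌋₊ ⌊T⌋₊ ∪ Bad : Finset ℕ).card ≤ (⌊Real.sqrt T⌋₊ + 1) + 1 + Bad.card := by
    refine (Finset.card_union_le _ _).trans (Nat.add_le_add_right ((Finset.card_union_le _ _).trans ?_) _)
    rw [Finset.card_range, Nat.card_Icc]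
    omega
  have h6 : ({n : ℕ | (n : ℝ) ≤ T ∧ ¬ NearlyAll h n ε}.ncard : ℝ) ≤ Real.sqrt T + 2 + T ^ (1 - 3 * h / 4 / 2) := by
    have h7 : (({n : ℕ | (n : ℝ) ≤ T ∧ ¬ NearlyAll h n ε}.ncard : ℕ) : ℝ) ≤ (((⌊Real.sqrt T⌋₊ + 1) + 1 + Bad.card : ℕ) : ℝ) := by
      exact_mod_cast hcard.trans hcard2
    push_cast at h7
    have h8 := Nat.floor_le (Real.sqrt_nonneg T)
    linarith
  refine h6.trans ?_
  have k1 : Real.sqrt T ≤ T ^ (1 - 3 * h / 8) := by
    rw [Real.sqrt_eq_rpow]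
    exact Real.rpow_le_rpow_of_exponent_le b2 (by linarith)
  have k2 : (1 : ℝ) ≤ T ^ (1 - 3 * h / 8) := Real.one_le_rpow b2 (by linarith)
  have k3 : T ^ (1 - 3 * h / 4 / 2) = T ^ (1 - 3 * h / 8) := by
    congr 1
    ring
  have k4 : T ^ (1 - h / 4) = T ^ (h / 8) * T ^ (1 - 3 * h / 8) := by
    rw [← Real.rpow_add hT0]
    congr 1
    ring
  rw [k3, k4]
  calc Real.sqrt T + 2 + T ^ (1 - 3 * h / 8) ≤ 4 * T ^ (1 - 3 * h / 8) := by linarith
    _ ≤ T ^ (h / 8) * T ^ (1 - 3 * h / 8) := mul_le_mul_of_nonneg_right b1 (by linarith)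

end Pool.Agent.H606.AV
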