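import Pool.Agent.H606.AV.LFg
import Pool.Agent.H826.Near1
import Pool.Agent.H955.AV.Seg

/-!
# Project LF (helper606): near `h = 1/2` nearly all zeros of the averages are simple and on the line, at every height, unconditionally

`seg2` is an edit of `S_SEG_proof` (`Pool/Agent/H955/AV/Seg.lean`, helper955): the large value is taken in the half-plane of absolute convergence.
-/

set_option autoImplicit false

open Complex Filter Topology Metric Set MeasureTheory
open scoped ComplexConjugate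

namespace Pool.Agent.H606.AV

open Pool.Agent.H466.LD Pool.Agent.H955.AV
open Pool.Agent.Helper242.KK (FT Ph)
open Pool.Agent.H477.Jen
open Pool.Agent.H477.E Pool.Agent.H477.EU
open Pool.Agent.H477.S (Mt lt Wf ZR)

theorem seg2 {ε r : ℝ} (hε : 0 < ε) (hε1 : ε ≤ 1) (hr : 0 < r) (hr2 : r ≤ 1 / 20) : ∃ lam0 : ℝ, 1 ≤ lam0 ∧
    ∀ (f : ℂ → ℂ) (M lam h h' : ℝ), 0 < M → lam0 ≤ lam → 0 ≤ h → h + 13 * r ≤ h' → 1 / 2 - r / 4 ≤ h' → h' ≤ 1 / 2 →
    LH f M lam h (r / 4) (ε * r / 100) →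
    (∀ z : ℂ, |z.re| ≤ 5 / 2 → |z.im| ≤ 5 / 2 → ‖Av f h' (-(I * z))‖ ≤ M * Real.exp (lam * h') * Real.exp (lam * (|z.re| + ε * r))) ∧
    ∀ τ : ℝ, |τ| ≤ 2 →
      (∃ w0 : ℂ, r / 4 ≤ w0.re ∧ |w0.im| ≤ r / 4 ∧ ‖w0‖ ≤ r ∧
        M * Real.exp (lam * h') * Real.exp (lam * (w0.re - ε * r)) ≤ ‖Av f h' (-(I * ((τ : ℂ) * I + w0)))‖) ∧
      ∃ S : Finset ℝ, (∀ y ∈ S, τ - r < y ∧ y < τ + r ∧ Av f h' (-(I * ((y : ℂ) * I))) = 0) ∧ (1 - ε) * (2 * lam * r / Real.pi) ≤ (S.card : ℝ) := by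
  have hπ := Real.pi_pos
  have hπ4 := Real.pi_lt_four
  set σ : ℝ := ε * r / 100 with hσ
  have hσ0 : 0 < σ := by positivity
  set η : ℝ := ε * r / 100 with hη
  have hη0 : 0 < η := by positivity
  have hη2 : η ≤ ε * r / 100 := le_rfl
  have hεr : 0 < ε * r := by positivity
  have hεr1 : ε * r ≤ r := by nlinarith
  refine ⟨max 1 (700 / (ε * r)), le_max_left _ _, ?_⟩
  intro f M lam h h' hM hlam hh0 hhh' hhr hh' H
  have hlam1 : 1 ≤ lam := (le_max_left _ _).trans hlam
  have hlam2 : 700 ≤ lam * (ε * r) := by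
    rw [← div_le_iff₀ (by positivity)]
    exact (le_max_right _ _).trans hlam
  have hh'0 : 0 ≤ h' := by linarith
  set Γ : ℝ := M * Real.exp (lam * h') with hΓ
  have hΓp : 0 < Γ := by positivity
  have hconj := H.lb.conj
  have hGd : Differentiable ℂ (GG f h') := GG_diff H.lb.diff h'
  have hexp2 : (2 : ℝ) ≤ Real.exp 1 := by linarith [Real.add_one_le_exp (1 : ℝ)]
  refine ⟨?_, ?_⟩
  · -- the upper bound
    intro z hz1 hz2
    have hz3 : |z.re + h'| ≤ 3 := by
      refine (abs_add_le _ _).trans ?_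
      rw [abs_of_nonneg hh'0]
      linarith
    have hz3' : |(-conj z).re + h'| ≤ 3 := by
      refine (abs_add_le _ _).trans ?_
      rw [abs_of_nonneg hh'0, neg_re, conj_re, abs_neg]
      linarith
    have b1 := up_a H hM (by linarith) (norm_arg (a := 3) (b := 5 / 2) hz3 hz2 (by norm_num))
      (by linarith) hh'0
    have b2 := up_a H hM (z := -conj z) (by linarith) (norm_arg (a := 3) (b := 5 / 2) hz3' (by
      rw [neg_im, conj_im, neg_neg]
      exact hz2) (by norm_num)) (by linarith) hh'0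
    rw [neg_re, conj_re, abs_neg] at b2
    rw [Av_eq hconj]
    have b3 : ‖GG f h' z + conj (GG f h' (-conj z))‖ ≤
        2 * (Γ * Real.exp (lam * (|z.re| + η))) := by
      refine (norm_add_le _ _).trans ?_
      rw [RCLike.norm_conj]
      linarith
    refine b3.trans ?_
    calc 2 * (Γ * Real.exp (lam * (|z.re| + η)))
        ≤ Real.exp 1 * (Γ * Real.exp (lam * (|z.re| + η))) := by gcongr
      _ = Γ * Real.exp (lam * (|z.re| + η) + 1) := by
          rw [Real.exp_add]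
          ring
      _ ≤ _ := by
          apply mul_le_mul_of_nonneg_left _ hΓp.le
          apply Real.exp_le_exp.mpr
          have h1 : lam * η ≤ lam * (ε * r / 100) := mul_le_mul_of_nonneg_left hη2 (by linarith)
          nlinarith
  intro τ hτ
  -- the big point
  obtain ⟨w0, hw0⟩ : ∃ w0 : ℂ, w0 = ((r / 2 : ℝ) : ℂ) := ⟨_, rfl⟩
  have hwre : w0.re = r / 2 := by rw [hw0, ofReal_re]
  have hwim : w0.im = 0 := by rw [hw0, ofReal_im]
  have hw1 : r / 4 ≤ w0.re := by rw [hwre]; linarith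
  have hw2 : |w0.im| ≤ r / 4 := by rw [hwim, abs_zero]; linarith
  have hw3 : ‖w0‖ ≤ r := by
    rw [hw0, Complex.norm_real, Real.norm_eq_abs, abs_of_pos (by positivity)]
    linarith
  have hw4 : Γ * Real.exp (lam * (w0.re - σ)) ≤ ‖GG f h' ((τ : ℂ) * I + w0)‖ := by
    have e1 : ((τ : ℂ) * I + w0).re = r / 2 := by simp [hwre]
    have e2 : ((τ : ℂ) * I + w0).im = τ := by simp [hwim]
    have h4 := H.lb.low (-(I * (((τ : ℂ) * I + w0) + h')))
      (norm_arg (a := 3 / 2) (b := 2) (by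
        rw [e1, abs_of_nonneg (by linarith)]
        linarith) (by rw [e2]; exact hτ) (by norm_num)) (by
        rw [arg_im, e1]
        linarith)
    rw [arg_im, e1, abs_neg, abs_of_nonneg (by linarith)] at h4
    refine le_trans (le_of_eq ?_) h4
    rw [hΓ, mul_assoc, ← Real.exp_add, hwre]
    congr 2
    ring
  have hww : |w0.re| ≤ r := (abs_re_le_norm w0).trans hw3
  have hτw : |τ + w0.im| ≤ 5 / 2 := by
    refine (abs_add_le _ _).trans ?_
    linarith
  refine ⟨⟨w0, hw1, hw2, hw3, ?_⟩, ?_⟩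
  · rw [Av_eq hconj]
    have e0 : -conj ((τ : ℂ) * I + w0) = (τ : ℂ) * I + -conj w0 := by
      rw [map_add, map_mul, conj_ofReal, conj_I]
      ring
    rw [e0]
    have e1 : ((τ : ℂ) * I + -conj w0).re = -w0.re := by simp
    have e2 : ((τ : ℂ) * I + -conj w0).im = τ + w0.im := by simp
    have b1 := up_b H (z := (τ : ℂ) * I + -conj w0) (h' := h') (norm_arg (a := 3 / 2) (b := 5 / 2) (by
      rw [e1]
      refine (abs_add_le _ _).trans ?_
      rw [abs_neg, abs_of_nonneg hh'0]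
      linarith) (by rw [e2]; exact hτw) (by norm_num)) (by
      rw [e1]
      linarith [(abs_le.mp hww).2]) hh0
    rw [e1] at b1
    have b2 : ‖GG f h' ((τ : ℂ) * I + -conj w0)‖ ≤ Γ * Real.exp (lam * (w0.re - σ)) / 2 := by
      have b3 : ‖GG f h' ((τ : ℂ) * I + -conj w0)‖ * Real.exp 1 ≤
          Γ * Real.exp (lam * (w0.re - σ)) := by
        calc ‖GG f h' ((τ : ℂ) * I + -conj w0)‖ * Real.exp 1
            ≤ (Γ * Real.exp (lam * (-w0.re + η))) * Real.exp 1 := by gcongr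
          _ = Γ * Real.exp (lam * (-w0.re + η) + 1) := by rw [mul_assoc, ← Real.exp_add]
          _ ≤ _ := by
              apply mul_le_mul_of_nonneg_left _ hΓp.le
              apply Real.exp_le_exp.mpr
              have h7 : 1 ≤ lam * (ε * r / 700) := by linarith
              have h8 : -w0.re + η + ε * r / 700 ≤ w0.re - σ := by
                rw [hσ]
                linarith
              have h9 := mul_le_mul_of_nonneg_left h8 (by linarith : (0 : ℝ) ≤ lam)
              linarith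
      have h7 := norm_nonneg (GG f h' ((τ : ℂ) * I + -conj w0))
      nlinarith
    have b4 : Γ * Real.exp (lam * (w0.re - σ)) / 2 ≤
        ‖GG f h' ((τ : ℂ) * I + w0) + conj (GG f h' ((τ : ℂ) * I + -conj w0))‖ := by
      have b5 := norm_sub_le_norm_add (GG f h' ((τ : ℂ) * I + w0))
        (conj (GG f h' ((τ : ℂ) * I + -conj w0)))
      rw [RCLike.norm_conj] at b5
      linarith
    refine le_trans ?_ b4
    rw [le_div_iff₀ (by norm_num : (0 : ℝ) < 2)]
    calc Γ * Real.exp (lam * (w0.re - ε * r)) * 2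
        ≤ Γ * Real.exp (lam * (w0.re - ε * r)) * Real.exp 1 := by gcongr
      _ = Γ * Real.exp (lam * (w0.re - ε * r) + 1) := by rw [mul_assoc, ← Real.exp_add]
      _ ≤ _ := by
          apply mul_le_mul_of_nonneg_left _ hΓp.le
          apply Real.exp_le_exp.mpr
          rw [hσ]
          nlinarith
  -- the zeros
  have hBd : Differentiable ℂ (fun w => GG f h' ((τ : ℂ) * I + w)) :=
    hGd.comp ((differentiable_const _).add differentiable_id)
  obtain ⟨S, hS1, hS2⟩ := line_zeros (B := nf (fun w => GG f h' ((τ : ℂ) * I + w)) lam Γ)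
    (nf_diff hBd lam Γ) (ℒ := lam) (r := r) (E1 := lam * η) (E2 := lam * σ) (w0 := w0) hr hw3
    (by positivity)
    (by
      intro w hw
      rw [norm_nf _ _ hΓp, div_mul_eq_mul_div, div_le_iff₀ hΓp]
      have e1 : ((τ : ℂ) * I + w).re = w.re := by simp
      have e2 : ((τ : ℂ) * I + w).im = τ + w.im := by simp
      have h1 := (abs_re_le_norm w).trans hw
      have h2 := (abs_im_le_norm w).trans hw
      have h3 := up_b H (z := (τ : ℂ) * I + w) (h' := h') (norm_arg (a := 1) (b := 5 / 2) (by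
        rw [e1]
        refine (abs_add_le _ _).trans ?_
        rw [abs_of_nonneg hh'0]
        linarith) (by
        rw [e2]
        refine (abs_add_le _ _).trans ?_
        linarith) (by norm_num)) (by
        rw [e1]
        linarith [(abs_le.mp h1).1]) hh0
      rw [e1] at h3
      calc ‖GG f h' ((τ : ℂ) * I + w)‖ * Real.exp (-(lam * w.re))
          ≤ (Γ * Real.exp (lam * (w.re + η))) * Real.exp (-(lam * w.re)) := by gcongr
        _ = _ := by
            rw [mul_assoc, ← Real.exp_add, mul_comm]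
            congr 2
            ring)
    (by
      rw [norm_nf _ _ hΓp, div_mul_eq_mul_div, le_div_iff₀ hΓp]
      calc Real.exp (-(lam * σ)) * Γ = Γ * Real.exp (lam * (w0.re - σ)) *
            Real.exp (-(lam * w0.re)) := by
            rw [mul_assoc, ← Real.exp_add, mul_comm]
            congr 2
            ring
        _ ≤ _ := by gcongr)
  refine ⟨S.image (fun y => τ + y), ?_, ?_⟩
  · intro y hy
    rw [Finset.mem_image] at hy
    obtain ⟨x, hx, rfl⟩ := hy
    obtain ⟨h1, h2, h3⟩ := hS1 x hx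
    refine ⟨by linarith, by linarith, ?_⟩
    have e1 : -conj (((τ + x : ℝ) : ℂ) * I) = ((τ + x : ℝ) : ℂ) * I := by
      rw [map_mul, conj_ofReal, conj_I]
      ring
    have e2 : (τ : ℂ) * I + (x : ℂ) * I = ((τ + x : ℝ) : ℂ) * I := by push_cast; ring
    rw [Av_eq hconj, e1, Complex.add_conj]
    have h5 : nf (fun w => GG f h' ((τ : ℂ) * I + w)) lam Γ ((x : ℂ) * I) *
        cexp ((lam : ℂ) * ((x : ℂ) * I)) =
        ((1 / Γ : ℝ) : ℂ) * GG f h' (((τ + x : ℝ) : ℂ) * I) := by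
      rw [← e2]
      unfold nf
      have : cexp (-(lam : ℂ) * ((x : ℂ) * I)) * cexp ((lam : ℂ) * ((x : ℂ) * I)) = 1 := by
        rw [← Complex.exp_add]
        have : -(lam : ℂ) * ((x : ℂ) * I) + (lam : ℂ) * ((x : ℂ) * I) = 0 := by ring
        rw [this, Complex.exp_zero]
      linear_combination (((1 / Γ : ℝ) : ℂ) * GG f h' ((τ : ℂ) * I + (x : ℂ) * I)) * this
    rw [h5, re_ofReal_mul] at h3
    have h6 : (GG f h' (((τ + x : ℝ) : ℂ) * I)).re = 0 := by
      rcases mul_eq_zero.mp h3 with h7 | h7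
      · exact absurd h7 (by positivity)
      · exact h7
    rw [h6]
    simp
  · rw [Finset.card_image_of_injective _ (add_right_injective τ)]
    refine le_trans ?_ hS2
    have h2 : 4 * (lam * η + lam * σ) + 3 ≤ lam * (ε * r) * (2 / 4) := by
      have h3 : η + σ ≤ ε * r * (1 / 50) := by
        rw [hσ]
        linarith
      have h4 := mul_le_mul_of_nonneg_left h3 (by linarith : (0 : ℝ) ≤ lam)
      linarith
    have h3 : lam * (ε * r) * (2 / 4) ≤ ε * (2 * lam * r / Real.pi) := by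
      have h4 : ε * (2 * lam * r / Real.pi) = lam * (ε * r) * (2 / Real.pi) := by ring
      rw [h4]
      apply mul_le_mul_of_nonneg_left _ (by positivity)
      exact div_le_div_of_nonneg_left (by norm_num) hπ hπ4.le
    linarith



/-- nearly all zeros of the average are simple and real, `h'` close to `1/2` -/
theorem near1' (hO : S_OFF) {ε : ℝ} (hε : 0 < ε) : ∃ ε' : ℝ, 0 < ε' ∧ ε' ≤ 1 ∧ ∀ r1 : ℝ, 0 < r1 → ∃ r lam0 : ℝ, 0 < r ∧ r ≤ r1 ∧ r ≤ 1 / 20 ∧ 1 ≤ lam0 ∧
    ∀ (f : ℂ → ℂ) (M lam h h' : ℝ), 0 < M → lam0 ≤ lam → 0 ≤ h → h + 13 * r ≤ h' → 1 / 2 - r / 4 ≤ h' → h' ≤ 1 / 2 → LH f M lam h (r / 4) (ε' * r / 100) →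
    (∀ S : Finset ℂ, (∀ z ∈ S, Av f h' (-(I * z)) = 0 ∧ |z.re| ≤ 1 / 2 ∧ |z.im| ≤ 1 / 4) →
      ∑ z ∈ S, ((analyticOrderNatAt (fun z => Av f h' (-(I * z))) z : ℝ) - if z.re = 0 then 1 else 0) ≤ ε * lam) ∧
    ∃ S : Finset ℝ, (∀ y ∈ S, -(1 / 4) < y ∧ y < 1 / 4 ∧ Av f h' (-(I * ((y : ℂ) * I))) = 0) ∧ (1 - ε) * (lam / (2 * Real.pi)) ≤ (S.card : ℝ) := by
  obtain ⟨ε', hε'0, hε'1, HO⟩ := hO ε hε
  refine ⟨ε', hε'0, hε'1, fun r1 hr1 => ?_⟩
  obtain ⟨r, hr, hrr, HO2⟩ := HO (min r1 (1 / 20)) (lt_min hr1 (by norm_num))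
  have hra : r ≤ r1 := hrr.trans (min_le_left _ _)
  have hrb : r ≤ 1 / 20 := hrr.trans (min_le_right _ _)
  obtain ⟨lam0, hl, HS2⟩ := seg2 hε'0 hε'1 hr hrb
  refine ⟨r, lam0, hr, hra, hrb, hl, fun f M lam h h' hM hlam hh0 hh1 hhr hh2 hLH => ?_⟩
  obtain ⟨c1, c2⟩ := HS2 f M lam h h' hM hlam hh0 hh1 hhr hh2 hLH
  have hd : Differentiable ℂ (fun z : ℂ => Av f h' (-(I * z))) := by
    unfold Av
    have := hLH.lb.diff
    intro z
    exact ((this _).comp z (by fun_prop)).add ((this _).comp z (by fun_prop))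
  exact HO2 (fun z => Av f h' (-(I * z))) lam (M * Real.exp (lam * h')) hd (hl.trans hlam) (mul_pos hM (Real.exp_pos _)) c1 c2

/-- the size of `Ξ` near the height `t`, from the size of zeta on the line `1/2 + h` -/
theorem lhx' (hG : S_GLOB) {h δ η : ℝ} (h0 : 0 < h) (h1 : h < 1 / 2) (hδ : 0 < δ) (hη : 0 < η) (hη1 : η ≤ 1) : ∃ T0 : ℝ, 1 ≤ T0 ∧ ∀ t : ℝ, T0 ≤ t →
    (∀ x : ℝ, |x - t| ≤ Real.log t → ‖riemannZeta (1 / 2 + h + I * x)‖ ≤ t ^ (η / 32)) →
    0 < Mt t ∧ LH (fun v : ℂ => FT Ph (t + v)) (Mt t) (lt t) h δ η := by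
  obtain ⟨e, he⟩ : ∃ e : ℝ, e = η := ⟨_, rfl⟩
  have he0 : 0 < e := by rw [he]; exact hη
  have he1 : e ≤ 1 := by rw [he]; exact hη1
  have heη : e ≤ η := he.le
  have he32 : η / 32 = e / 8 / 4 := by rw [he]; ring
  rw [he32]
  obtain ⟨T1, H1⟩ := upper4 (FT Ph) Mt lt (env_R hG) h e h0.le h1 he0 he1
  obtain ⟨T2, -, H2⟩ := X_of_zeta (η := e / 8) (by positivity)
  obtain ⟨T3, H3⟩ := (env_R hG).loc δ η hδ hη
  refine ⟨max (max T1 T2) (max T3 1), (le_max_right _ _).trans (le_max_right _ _), fun t ht hz => ?_⟩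
  have a1 : T1 ≤ t := ((le_max_left _ _).trans (le_max_left _ _)).trans ht
  have a2 : T2 ≤ t := ((le_max_right _ _).trans (le_max_left _ _)).trans ht
  have a3 : T3 ≤ t := ((le_max_left _ _).trans (le_max_right _ _)).trans ht
  obtain ⟨b1, b2, b3⟩ := H1 t a1
  have b4 := b3 (H2 t a2 h h0.le h1.le hz)
  have hLB := H3 t a3
  have hlow : ∀ v : ℂ, ‖v‖ ≤ 4 → v.im ≤ 0 → ‖FT Ph (t + v)‖ ≤ Mt t * Real.exp (lt t * max |v.im| h + η * lt t) := by
    intro v hv hi
    refine (b4 v hv (by linarith)).trans ?_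
    apply mul_le_mul_of_nonneg_left _ b1.le
    apply Real.exp_le_exp.mpr
    rw [abs_of_nonpos hi]
    have h4 : e / 2 * lt t ≤ η * lt t := mul_le_mul_of_nonneg_right (by linarith) b2
    linarith
  refine ⟨b1, hLB, fun v hv => ?_⟩
  rcases le_total v.im 0 with hi | hi
  · exact hlow v hv hi
  · have h5 := hlow ((starRingEnd ℂ) v) (by rw [Complex.norm_conj]; exact hv) (by rw [Complex.conj_im]; linarith)
    rw [Complex.conj_im, abs_neg] at h5
    have h6 : FT Ph (t + (starRingEnd ℂ) v) = (starRingEnd ℂ) (FT Ph (t + v)) := hLB.conj v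
    rw [h6, Complex.norm_conj] at h5
    exact h5

/-- near every height nearly all zeros of the averages close to `h' = 1/2` are simple and on the line, unconditionally -/
theorem near2' (hG : S_GLOB) (hO : S_OFF) {ε : ℝ} (hε : 0 < ε) (hε1 : ε ≤ 1) :
    ∃ ρ T0 : ℝ, 0 < ρ ∧ ρ ≤ 1 / 8 ∧ 1 ≤ T0 ∧ ∀ t : ℝ, T0 ≤ t → ∀ h' : ℝ, 1 / 2 - ρ ≤ h' → h' ≤ 1 / 2 →
    (∀ S : Finset ℂ, (∀ s ∈ S, A h' s = 0 ∧ 0 ≤ s.re ∧ s.re ≤ 1 ∧ |s.im - t| ≤ 1 / 4) →
      ∑ s ∈ S, ((analyticOrderNatAt (A h') s : ℝ) - if s.re = 1 / 2 then 1 else 0) ≤ ε * Real.log t) ∧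
    ∃ S : Finset ℝ, (∀ y ∈ S, t - 1 / 4 < y ∧ y < t + 1 / 4 ∧ A h' (1 / 2 + I * y) = 0) ∧ (1 - ε) * (Real.log t / (4 * Real.pi)) ≤ (S.card : ℝ) := by
  classical
  obtain ⟨ε', hε'0, hε'1, H0⟩ := near1' hO (show 0 < ε / 2 by positivity)
  -- zeta near the line of real part one
  obtain ⟨e, he⟩ : ∃ e : ℝ, e = ε' / 100000 := ⟨_, rfl⟩
  have he0 : 0 < e := by rw [he]; positivity
  have he1 : e ≤ 1 := by rw [he]; linarith
  obtain ⟨u1, hu1, hu1', hu⟩ := Pool.Agent.H826.near_one he0 he1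
  obtain ⟨r, lam0, hr, hrr, hr20, hl, H⟩ := H0 (u1 / 14) (by positivity)
  obtain ⟨u, hud⟩ : ∃ u : ℝ, u = 14 * r := ⟨_, rfl⟩
  have hu0 : 0 < u := by rw [hud]; positivity
  have huu : u ≤ u1 := by rw [hud]; linarith
  obtain ⟨T3, hT3⟩ := hu u hu0 huu
  obtain ⟨h, hh⟩ : ∃ h : ℝ, h = 1 / 2 - u := ⟨_, rfl⟩
  have h0 : 0 < h := by rw [hh]; linarith
  have h1 : h < 1 / 2 := by rw [hh]; linarith
  have hη : 0 < ε' * r / 100 := by positivity
  have hη1 : ε' * r / 100 ≤ 1 := by
    have : ε' * r ≤ 1 * 1 := mul_le_mul hε'1 (by linarith) hr.le zero_le_one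
    linarith
  obtain ⟨T1, hT1, H1⟩ := lhx' hG h0 h1 (show 0 < r / 4 by positivity) hη hη1
  obtain ⟨T2, hT2⟩ := lt_large lam0
  refine ⟨r / 4, max (max (max T1 T2) (Real.exp (4 / ε))) (max (2 * T3) 4), by positivity, by linarith,
    hT1.trans ((le_max_left _ _).trans ((le_max_left _ _).trans (le_max_left _ _))), fun t ht h' h2 h3 => ?_⟩
  have a1 : T1 ≤ t := ((le_max_left _ _).trans ((le_max_left _ _).trans (le_max_left _ _))).trans ht
  have a2 : T2 ≤ t := ((le_max_right _ _).trans ((le_max_left _ _).trans (le_max_left _ _))).trans ht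
  have a4 : Real.exp (4 / ε) ≤ t := ((le_max_right _ _).trans (le_max_left _ _)).trans ht
  have a5 : 2 * T3 ≤ t := ((le_max_left _ _).trans (le_max_right _ _)).trans ht
  have a6 : 4 ≤ t := ((le_max_right _ _).trans (le_max_right _ _)).trans ht
  have hz : ∀ x : ℝ, |x - t| ≤ Real.log t → ‖riemannZeta (1 / 2 + h + I * x)‖ ≤ t ^ (ε' * r / 100 / 32) := by
    intro x hx
    have hlog2 : Real.log t ≤ t / 2 := by
      have b1 : Real.log t = Real.log 2 + Real.log (t / 2) := by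
        rw [← Real.log_mul (by norm_num) (by positivity)]
        congr 1
        ring
      have b2 := Real.log_le_sub_one_of_pos (by positivity : 0 < t / 2)
      have b3 := Real.log_two_lt_d9
      linarith
    have hx' := abs_le.1 hx
    have x1 : T3 ≤ x := by linarith
    have x2 : x ≤ t ^ (2 : ℝ) := by
      rw [Real.rpow_two]
      nlinarith
    have x0 : 0 ≤ x := by linarith
    have b4 := hT3 x x1
    have b5 : (1 / 2 : ℂ) + h + I * x = ((1 - u : ℝ) : ℂ) + x * I := by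
      rw [hh]
      push_cast
      ring
    rw [b5]
    refine b4.trans ((Real.rpow_le_rpow x0 x2 (by positivity)).trans ?_)
    rw [← Real.rpow_mul (by linarith)]
    apply Real.rpow_le_rpow_of_exponent_le (by linarith)
    rw [he, hud]
    have b6 : 0 < ε' * r := by positivity
    nlinarith
  have t1 : 1 ≤ t := hT1.trans a1
  have ht0 : 0 < t := by linarith
  obtain ⟨hM, hLH⟩ := H1 t a1 hz
  obtain ⟨k1, S', k2, k3⟩ := H (fun v : ℂ => FT Ph (t + v)) (Mt t) (lt t) h h' hM (hT2 t a2) h0.le (by rw [hh, hud]; linarith) h2 h3 hLH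
  have hle := Pool.Agent.H477.S.lt_le t1
  have hge := Pool.Agent.H477.S.lt_ge t1
  have hlog0 : 0 ≤ Real.log t := Real.log_nonneg t1
  have hlog : 4 / ε ≤ Real.log t := by
    rw [Real.le_log_iff_exp_le ht0]
    exact a4
  have h9 : 4 ≤ ε * Real.log t := by
    rw [div_le_iff₀ hε] at hlog
    linarith
  constructor
  · intro S hS
    have key := k1 (S.image (fun s => s - (1 / 2 + I * t))) (by
      intro z hz
      rw [Finset.mem_image] at hz
      obtain ⟨s, hs, rfl⟩ := hz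
      obtain ⟨b1, b2, b3, b4⟩ := hS s hs
      have e1 : Av (fun v : ℂ => FT Ph (t + v)) h' (-(I * (s - (1 / 2 + I * t)))) =
        A h' ((1 / 2 + I * t) + 1 * (s - (1 / 2 + I * t))) := congrFun (loc_fun h' t) (s - (1 / 2 + I * t))
      have e2 : (1 / 2 + I * (t : ℂ)) + 1 * (s - (1 / 2 + I * t)) = s := by ring
      rw [e2] at e1
      have e3 : (s - (1 / 2 + I * t)).re = s.re - 1 / 2 := by simp
      have e4 : (s - (1 / 2 + I * t)).im = s.im - t := by simp
      refine ⟨by rw [e1, b1], ?_, ?_⟩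
      · rw [e3, abs_le]
        constructor <;> linarith
      · rw [e4]
        exact b4)
    rw [Finset.sum_image (fun a _ b _ h => by simpa using h)] at key
    have hsum : ∑ x ∈ S, ((analyticOrderNatAt (fun z : ℂ => Av (fun v : ℂ => FT Ph (t + v)) h' (-(I * z))) (x - (1 / 2 + I * t)) : ℝ) -
        if (x - (1 / 2 + I * t)).re = 0 then 1 else 0) = ∑ s ∈ S, ((analyticOrderNatAt (A h') s : ℝ) - if s.re = 1 / 2 then 1 else 0) := by
      refine Finset.sum_congr rfl fun s _ => ?_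
      rw [order_loc]
      have e2 : (1 / 2 + I * (t : ℂ)) + (s - (1 / 2 + I * t)) = s := by ring
      rw [e2]
      have e3 : (s - (1 / 2 + I * t)).re = s.re - 1 / 2 := by simp
      rw [e3]
      simp only [sub_eq_zero]
    rw [hsum] at key
    refine key.trans ?_
    have := mul_le_mul_of_nonneg_left hle (show 0 ≤ ε / 2 by positivity)
    have h5 : 0 ≤ ε * Real.log t := mul_nonneg hε.le hlog0
    linarith
  · refine ⟨S'.image (fun y => t + y), ?_, ?_⟩
    · intro y hy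
      rw [Finset.mem_image] at hy
      obtain ⟨x, hx, rfl⟩ := hy
      obtain ⟨b1, b2, b3⟩ := k2 x hx
      refine ⟨by linarith, by linarith, ?_⟩
      have e1 : Av (fun v : ℂ => FT Ph (t + v)) h' (-(I * ((x : ℂ) * I))) =
        A h' ((1 / 2 + I * t) + 1 * ((x : ℂ) * I)) := congrFun (loc_fun h' t) ((x : ℂ) * I)
      rw [e1] at b3
      rw [← b3]
      congr 1
      push_cast
      ring
    · rw [Finset.card_image_of_injective _ (add_right_injective t)]
      refine le_trans ?_ k3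
      have hπ := Real.pi_pos
      have e5 : lt t / (2 * Real.pi) = (2 * lt t) / (4 * Real.pi) := by
        rw [div_eq_div_iff (by positivity) (by positivity)]
        ring
      rw [e5, ← mul_div_assoc, ← mul_div_assoc]
      apply div_le_div_of_nonneg_right _ (by positivity)
      have h6 : (1 - ε / 2) * (Real.log t - 2) ≤ (1 - ε / 2) * (2 * lt t) :=
        mul_le_mul_of_nonneg_left (by linarith) (by linarith)
      refine le_trans ?_ h6
      have h7 : (1 - ε / 2) * (Real.log t - 2) = (1 - ε) * Real.log t + (ε / 2 * Real.log t - 2 + ε) := by ring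
      rw [h7]
      linarith


end Pool.Agent.H606.AV
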