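import Pool.Agent.H606.AV.LFh

set_option autoImplicit false

/-!
# Project LF (helper606): near `h = 1/2` nearly all zeros of the averages are simple and on the line at every height
-/

open Finset Complex Filter Topology Metric Set MeasureTheory

namespace Pool.Agent.H606.AV

open Pool.Agent.Helper242.KK (FT Ph)
open Pool.Agent.H477.Jen
open Pool.Agent.H477.E Pool.Agent.H477.EU
open Pool.Agent.H477.S (Mt lt Wf ZR)

/-- unconditional, at every height -/
theorem every_height (hG : S_GLOB) (hO : S_OFF) {ε : ℝ} (hε : 0 < ε) :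
    ∃ h₀ T₀ : ℝ, 0 < h₀ ∧ h₀ < 1 / 2 ∧ ∀ T : ℝ, T₀ ≤ T → ∀ h' : ℝ, h₀ ≤ h' → h' ≤ 1 / 2 → NearlyAll h' T ε := by
  classical
  obtain ⟨e, he⟩ : ∃ e : ℝ, e = min ε 1 / 32 := ⟨_, rfl⟩
  have hm : 0 < min ε 1 := lt_min hε one_pos
  have he0 : 0 < e := by rw [he]; positivity
  have he1 : 32 * e ≤ ε := by rw [he]; linarith [min_le_left ε 1]
  have he2 : 32 * e ≤ 1 := by rw [he]; linarith [min_le_right ε 1]
  obtain ⟨ρ, T1, hρ, hρ1, hT1, H⟩ := near2' hG hO (ε := e) he0 (by linarith)
  refine ⟨1 / 2 - ρ, max T1 (Real.exp 2), by linarith, by linarith, fun T hT h' h3 h4 => ?_⟩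
  have a1 : T1 ≤ T := (le_max_left _ _).trans hT
  have a2 : Real.exp 2 ≤ T := (le_max_right _ _).trans hT
  have t1 : 1 ≤ T := hT1.trans a1
  have hT0 : 0 < T := by linarith
  have hlog2 : 2 ≤ Real.log T := by
    rw [Real.le_log_iff_exp_le hT0]
    exact a2
  have hlT1 : Real.log (T + 1) ≤ Real.log T + 1 := by
    have h50 : 0 < 1 + 1 / T := by
      have := div_pos one_pos hT0
      linarith
    have h5 : Real.log (T + 1) = Real.log T + Real.log (1 + 1 / T) := by
      rw [← Real.log_mul hT0.ne' h50.ne']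
      congr 1
      field_simp
    have h6 := Real.log_le_sub_one_of_pos h50
    have h7 : 1 / T ≤ 1 := by
      rw [div_le_iff₀ hT0]
      linarith
    linarith
  have hc : ∀ c : ℝ, T ≤ c → c ≤ T + 3 / 4 → Real.log c ≤ Real.log T + 1 ∧ Real.log T ≤ Real.log c := by
    intro c c1 c2
    have c3 : Real.log c ≤ Real.log (T + 1) := Real.log_le_log (by linarith) (by linarith)
    have c4 : Real.log T ≤ Real.log c := Real.log_le_log hT0 c1
    exact ⟨c3.trans hlT1, c4⟩
  obtain ⟨l1, l1'⟩ := hc (T + 1 / 4) (by linarith) (by linarith)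
  obtain ⟨l2, l2'⟩ := hc (T + 3 / 4) (by linarith) le_rfl
  obtain ⟨p1, S1, q1, q1'⟩ := H (T + 1 / 4) (by linarith) h' h3 h4
  obtain ⟨p2, S2, q2, q2'⟩ := H (T + 3 / 4) (by linarith) h' h3 h4
  have hsum : ∀ S : Finset ℂ, (∀ s ∈ S, A h' s = 0 ∧ 0 < s.re ∧ s.re < 1 ∧ T ≤ s.im ∧ s.im ≤ T + 1) →
      ∑ s ∈ S, ((analyticOrderNatAt (A h') s : ℝ) - if s.re = 1 / 2 then 1 else 0) ≤ 3 * e * Real.log T := by
    intro S hS
    rw [← Finset.sum_filter_add_sum_filter_not S (fun s => s.im ≤ T + 1 / 2)]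
    have k1 := p1 (S.filter (fun s => s.im ≤ T + 1 / 2)) (by
      intro s hs
      rw [Finset.mem_filter] at hs
      obtain ⟨b1, b2, b3, b4, b5⟩ := hS s hs.1
      refine ⟨b1, b2.le, b3.le, ?_⟩
      rw [abs_le]
      constructor <;> linarith [hs.2])
    have k2 := p2 (S.filter (fun s => ¬ s.im ≤ T + 1 / 2)) (by
      intro s hs
      rw [Finset.mem_filter] at hs
      obtain ⟨b1, b2, b3, b4, b5⟩ := hS s hs.1
      have b6 := not_le.1 hs.2
      refine ⟨b1, b2.le, b3.le, ?_⟩
      rw [abs_le]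
      constructor <;> linarith)
    have k3 : e * Real.log (T + 1 / 4) ≤ e * (Real.log T + 1) := mul_le_mul_of_nonneg_left l1 he0.le
    have k4 : e * Real.log (T + 3 / 4) ≤ e * (Real.log T + 1) := mul_le_mul_of_nonneg_left l2 he0.le
    have k5 : e * 2 ≤ e * Real.log T := mul_le_mul_of_nonneg_left hlog2 he0.le
    linarith
  have hlT0 : 0 ≤ Real.log T := by linarith
  refine ⟨fun S hS => (hsum S hS).trans ?_, ?_⟩
  · exact mul_le_mul_of_nonneg_right (by linarith) hlT0
  · obtain ⟨C, hC⟩ := A_ne hG (show 0 < h' by linarith) h4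
    have hAd := A_diff h'
    have hsw : ∀ y : ℝ, (1 / 2 : ℂ) + y * I = 1 / 2 + I * y := fun y => by rw [mul_comm]
    have hSz : ∀ y ∈ S1 ∪ S2, T < y ∧ y < T + 1 ∧ A h' (1 / 2 + y * I) = 0 := by
      intro y hy
      rcases Finset.mem_union.1 hy with hy | hy
      · obtain ⟨b1, b2, b3⟩ := q1 y hy
        exact ⟨by linarith, by linarith, by rw [hsw]; exact b3⟩
      · obtain ⟨b1, b2, b3⟩ := q2 y hy
        exact ⟨by linarith, by linarith, by rw [hsw]; exact b3⟩
    have hdisj : Disjoint S1 S2 := by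
      rw [Finset.disjoint_left]
      intro y b1 b2
      have b3 := (q1 y b1).2.1
      have b4 := (q2 y b2).1
      linarith
    refine ⟨(S1 ∪ S2).filter (fun y : ℝ => deriv (A h') (1 / 2 + y * I) ≠ 0), ?_, ?_⟩
    · intro y hy
      rw [Finset.mem_filter] at hy
      obtain ⟨b1, b2, b3⟩ := hSz y hy.1
      exact ⟨b1, b2, b3, hy.2⟩
    · -- the multiple zeros
      have hinj : Function.Injective (fun y : ℝ => (1 / 2 : ℂ) + y * I) := by
        intro x y hxy
        have h5 : (1 / 2 : ℂ) + x * I = 1 / 2 + y * I := hxy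
        have h6 := mul_right_cancel₀ I_ne_zero (add_left_cancel h5)
        exact_mod_cast h6
      have hD := hsum (((S1 ∪ S2).filter (fun y : ℝ => ¬ deriv (A h') (1 / 2 + y * I) ≠ 0)).image (fun y : ℝ => (1 / 2 : ℂ) + y * I)) (by
        intro s hs
        rw [Finset.mem_image] at hs
        obtain ⟨y, hy, rfl⟩ := hs
        rw [Finset.mem_filter] at hy
        obtain ⟨b1, b2, b3⟩ := hSz y hy.1
        refine ⟨b3, ?_, ?_, ?_, ?_⟩
        · simp
        · simp; norm_num
        · simp; linarith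
        · simp; linarith)
      rw [Finset.sum_image (fun a _ b _ hab => hinj hab)] at hD
      have hD2 : (((S1 ∪ S2).filter (fun y : ℝ => ¬ deriv (A h') (1 / 2 + y * I) ≠ 0)).card : ℝ) ≤
          ∑ y ∈ (S1 ∪ S2).filter (fun y : ℝ => ¬ deriv (A h') (1 / 2 + y * I) ≠ 0),
            ((analyticOrderNatAt (A h') ((1 / 2 : ℂ) + y * I) : ℝ) - if ((1 / 2 : ℂ) + y * I).re = 1 / 2 then 1 else 0) := by
        rw [Finset.card_eq_sum_ones]
        push_cast
        refine Finset.sum_le_sum fun y hy => ?_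
        rw [Finset.mem_filter, not_not] at hy
        have b := order_ge_two hAd hC (hSz y hy.1).2.2 hy.2
        have b' : (2 : ℝ) ≤ (analyticOrderNatAt (A h') ((1 / 2 : ℂ) + y * I) : ℝ) := by exact_mod_cast b
        split_ifs <;> linarith
      have hcard : (((S1 ∪ S2).filter (fun y : ℝ => deriv (A h') (1 / 2 + y * I) ≠ 0)).card : ℝ) +
          (((S1 ∪ S2).filter (fun y : ℝ => ¬ deriv (A h') (1 / 2 + y * I) ≠ 0)).card : ℝ) = (S1.card : ℝ) + S2.card := by
        have h5 := Finset.card_filter_add_card_filter_not (s := S1 ∪ S2) (fun y : ℝ => deriv (A h') (1 / 2 + y * I) ≠ 0)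
        rw [Finset.card_union_of_disjoint hdisj] at h5
        exact_mod_cast h5
      have hπ := Real.pi_pos
      have hπ4 := Real.pi_lt_four
      have m1 : (1 - e) * (Real.log T / (4 * Real.pi)) ≤ (S1.card : ℝ) := by
        refine le_trans ?_ q1'
        apply mul_le_mul_of_nonneg_left _ (by linarith)
        exact div_le_div_of_nonneg_right l1' (by positivity)
      have m2 : (1 - e) * (Real.log T / (4 * Real.pi)) ≤ (S2.card : ℝ) := by
        refine le_trans ?_ q2'
        apply mul_le_mul_of_nonneg_left _ (by linarith)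
        exact div_le_div_of_nonneg_right l2' (by positivity)
      have e5 : Real.log T / (2 * Real.pi) = 2 * (Real.log T / (4 * Real.pi)) := by
        field_simp
        ring
      have e6 : Real.log T = 4 * Real.pi * (Real.log T / (4 * Real.pi)) := by
        field_simp
      obtain ⟨L, hL⟩ : ∃ L : ℝ, L = Real.log T / (4 * Real.pi) := ⟨_, rfl⟩
      rw [← hL] at m1 m2 e5 e6
      have hL0 : 0 ≤ L := by rw [hL]; positivity
      rw [e5]
      have hD3 := hD2.trans hD
      rw [e6] at hD3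
      have e7 : 3 * e * (4 * Real.pi * L) ≤ 3 * e * (16 * L) := by
        apply mul_le_mul_of_nonneg_left _ (by linarith)
        exact mul_le_mul_of_nonneg_right (by linarith) hL0
      have e8 : 32 * e * L ≤ ε * L := mul_le_mul_of_nonneg_right he1 hL0
      linarith


end Pool.Agent.H606.AV
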