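import Pool.Agent.H826.Near1

set_option autoImplicit false

/-!
# The order of the zeta function to the left of the line of real part one, with an explicit range

An edit of `Pool/Agent/H826/Near1.lean` (helper826).
-/

namespace Pool.Agent.H606.AV

open Complex
open Pool.Agent.H826
open Pool.Agent.W186.EH (PS VB S_BK)
open Pool.Agent.W22.EH (VB_exp exists_x assemble rp)

theorem near_one' {ε : ℝ} (hε : 0 < ε) (hε1 : ε ≤ 1) : ∃ u1 : ℝ, 0 < u1 ∧ u1 ≤ 1 / 4 ∧ Real.exp (-(7 / ε)) ≤ u1 ∧ ∀ u : ℝ, 0 < u → u ≤ u1 →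
    ∃ T0 : ℝ, ∀ t : ℝ, T0 ≤ t → ‖riemannZeta (((1 - u : ℝ) : ℂ) + t * I)‖ ≤ t ^ (ε * u) := by
  obtain ⟨K, hK⟩ : ∃ K : ℕ, K = ⌈2 / ε⌉₊ + 2 := ⟨_, rfl⟩
  have hK1 : 2 / ε + 2 ≤ (K:ℝ) := by
    rw [hK]
    push_cast
    linarith [Nat.le_ceil (2 / ε)]
  have hε2 : 2 ≤ 2 / ε := by
    rw [le_div_iff₀ hε]
    linarith
  obtain ⟨c, hc⟩ : ∃ c : ℝ, c = 1 / (((K : ℝ) - 1) * ((2 : ℝ) ^ K - 2)) := ⟨_, rfl⟩
  have hKpos : (0:ℝ) < (K:ℝ) - 1 := by linarith
  have hZK : ∀ k : ℕ, 3 ≤ k → 8 ≤ (2:ℝ) ^ k := by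
    intro k hk
    calc (8:ℝ) = 2 ^ 3 := by norm_num
      _ ≤ 2 ^ k := pow_le_pow_right₀ (by norm_num) hk
  have hK3 : 3 ≤ K := by
    have : (3:ℝ) ≤ K := by linarith
    exact_mod_cast this
  have hZ := hZK K hK3
  have hc0 : 0 < c := by
    rw [hc]
    apply div_pos one_pos
    apply mul_pos hKpos
    linarith
  have hlow : Real.exp (-(7 / ε)) ≤ min c (1 / 4) := by
    have hK2 : (K : ℝ) ≤ 2 / ε + 3 := by
      rw [hK]
      push_cast
      have := Nat.ceil_lt_add_one (show 0 ≤ 2 / ε by positivity)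
      linarith
    have h1ε : 1 ≤ 1 / ε := by
      rw [le_div_iff₀ hε]
      linarith
    have h2ε : 2 / ε = 2 * (1 / ε) := by ring
    have h7ε : 7 / ε = 7 * (1 / ε) := by ring
    apply le_min
    · have e1 : (2 : ℝ) ^ K ≤ Real.exp (7 / 2 * (1 / ε)) := by
        have e2 : (2 : ℝ) ^ K = Real.exp (Real.log 2 * K) := by
          rw [mul_comm, Real.exp_nat_mul, Real.exp_log (by norm_num)]
        rw [e2]
        apply Real.exp_le_exp.2
        have e3 := Real.log_two_lt_d9
        have e4 := Real.log_two_gt_d9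
        have e5 : Real.log 2 * (K : ℝ) ≤ Real.log 2 * (2 / ε + 3) := mul_le_mul_of_nonneg_left hK2 (by linarith)
        have e6 : Real.log 2 * (2 / ε + 3) ≤ 0.7 * (5 * (1 / ε)) := by
          apply mul_le_mul (by linarith) (by linarith) (by positivity) (by norm_num)
        linarith
      have e7 : (K : ℝ) - 1 ≤ (2 : ℝ) ^ K := by
        have : (K : ℝ) < (2 : ℝ) ^ K := by exact_mod_cast Nat.lt_two_pow_self
        linarith
      have e8 : ((K : ℝ) - 1) * ((2 : ℝ) ^ K - 2) ≤ Real.exp (7 * (1 / ε)) := by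
        have e9 : Real.exp (7 * (1 / ε)) = Real.exp (7 / 2 * (1 / ε)) * Real.exp (7 / 2 * (1 / ε)) := by
          rw [← Real.exp_add]
          congr 1
          ring
        rw [e9]
        exact mul_le_mul (e7.trans e1) (by linarith) (by linarith) (Real.exp_pos _).le
      rw [hc, h7ε, Real.exp_neg, inv_eq_one_div]
      apply one_div_le_one_div_of_le _ e8
      apply mul_pos hKpos
      linarith
    · rw [h7ε, Real.exp_neg, inv_eq_one_div]
      apply one_div_le_one_div_of_le (by norm_num)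
      have e10 := Real.add_one_le_exp (7 * (1 / ε))
      linarith
  refine ⟨min c (1 / 4), lt_min hc0 (by norm_num), min_le_right _ _, hlow, fun u hu0 hu1 => ?_⟩
  have huc : u ≤ c := hu1.trans (min_le_left _ _)
  have hu4 : u ≤ 1 / 4 := hu1.trans (min_le_right _ _)
  have hbk := Pool.Agent.W903.EH.bk Pool.Agent.W347.EH.kt
  have hch : ∀ k : ℕ, ∃ C : ℝ, 0 < C ∧ (2 ≤ k → ∀ (t : ℝ) (J : ℕ), 2 ≤ t → 1 ≤ J → (J : ℝ) ≤ t ^ 2 →
      ‖PS (((1 - u : ℝ) : ℂ) + t * I) (J + J) - PS (((1 - u : ℝ) : ℂ) + t * I) J‖ ≤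
        C * t ^ ((ε * u / 2) / 4) * ((J : ℝ) ^ (-(1 - u)) * VB k J (t / (J : ℝ) ^ k))) := by
    intro k
    by_cases hk : 2 ≤ k
    · obtain ⟨C, hC, h1⟩ := hbk k hk (1 - u) ((ε * u / 2) / 4) (by linarith) (by linarith) (by positivity)
      exact ⟨C, hC, fun _ => h1⟩
    · exact ⟨1, one_pos, fun h => absurd h hk⟩
  choose C hC0 hC using hch
  obtain ⟨C0, hC0'⟩ : ∃ C0 : ℝ, C0 = 1 + ∑ k ∈ Finset.range (K + 1), 2 * C k := ⟨_, rfl⟩
  have hsum0 : ∀ k, 0 ≤ 2 * C k := fun k => by have := hC0 k; linarith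
  have hC0k : ∀ k ≤ K, 2 * C k ≤ C0 := by
    intro k hk
    have := Finset.single_le_sum (f := fun k => 2 * C k) (fun i _ => hsum0 i) (Finset.mem_range.2 (Nat.lt_succ_of_le hk))
    rw [hC0']
    linarith
  have hC01 : 1 ≤ C0 := by
    have : 0 ≤ ∑ k ∈ Finset.range (K + 1), 2 * C k := Finset.sum_nonneg fun k _ => hsum0 k
    rw [hC0']
    linarith
  obtain ⟨T0, hT0⟩ := assemble (σ := 1 - u) (μ := ε * u / 2) (ε := ε * u / 2) (C0 := C0) (by linarith) (by linarith)
    (by positivity) (by positivity) (by linarith) (by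
      intro t J ht hJ hJt
      have ht0 : 0 < t := by linarith
      have htp : 0 < t ^ (ε * u / 2 + (ε * u / 2) / 4) := Real.rpow_pos_of_pos ht0 _
      obtain ⟨x, hx0, hx2, hJx⟩ := exists_x ht hJ hJt
      have huse : ∀ k : ℕ, 2 ≤ k → k ≤ K →
          -(1 - u) * x + x + (1 - k * x) * (1 / ((2 : ℝ) ^ k - 2)) ≤ 0 →
          -(1 - u) * x + x * (1 - 4 / (2 : ℝ) ^ k) + (1 - k * x) * (-(1 / ((2 : ℝ) ^ k - 2))) ≤ 0 →
          ‖PS (((1 - u : ℝ) : ℂ) + t * I) (J + J) - PS (((1 - u : ℝ) : ℂ) + t * I) J‖ ≤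
            C0 * t ^ (ε * u / 2 + (ε * u / 2) / 4) := by
        intro k hk2 hkK h1 h2
        refine (hC k hk2 t J ht hJ hJt).trans ?_
        rw [VB_exp ht0 hJx]
        have h3 : t ^ (-(1 - u) * x + x + (1 - k * x) * (1 / ((2 : ℝ) ^ k - 2))) ≤ t ^ (ε * u / 2) :=
          rp ht (h1.trans (by positivity))
        have h4 : t ^ (-(1 - u) * x + x * (1 - 4 / (2 : ℝ) ^ k) + (1 - k * x) * (-(1 / ((2 : ℝ) ^ k - 2)))) ≤
          t ^ (ε * u / 2) := rp ht (h2.trans (by positivity))
        have h5 := hC0 k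
        calc _ ≤ C k * t ^ ((ε * u / 2) / 4) * (t ^ (ε * u / 2) + t ^ (ε * u / 2)) := by gcongr
          _ = 2 * C k * t ^ (ε * u / 2 + (ε * u / 2) / 4) := by
              rw [Real.rpow_add ht0]
              ring
          _ ≤ _ := by
              gcongr
              exact hC0k k hkK
      rcases le_total x (ε / 2) with hx | hx
      · refine (block_triv (by linarith) J hJ).trans ?_
        rw [hJx, ← Real.rpow_mul ht0.le]
        have h1 : x * (1 - (1 - u)) ≤ ε * u / 2 + (ε * u / 2) / 4 := by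
          have h2 : x * u ≤ ε / 2 * u := by gcongr
          have h3 : 0 < ε * u := by positivity
          linarith
        calc t ^ (x * (1 - (1 - u))) ≤ t ^ (ε * u / 2 + (ε * u / 2) / 4) := rp ht h1
          _ = 1 * t ^ (ε * u / 2 + (ε * u / 2) / 4) := (one_mul _).symm
          _ ≤ _ := by gcongr
      have hxpos : 0 < x := lt_of_lt_of_le (by positivity) hx
      rcases le_total x 1 with hx1 | hx1
      · obtain ⟨m, hm⟩ : ∃ m : ℕ, m = ⌊1 / x⌋₊ := ⟨_, rfl⟩
        have h1x : 1 ≤ 1 / x := by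
          rw [le_div_iff₀ hxpos]
          linarith
        have hm1 : 1 ≤ m := by
          rw [hm]
          exact Nat.le_floor (by simpa using h1x)
        have hm2 : (m:ℝ) ≤ 1 / x := by rw [hm]; exact Nat.floor_le (by positivity)
        have hm3 : 1 / x < m + 1 := by rw [hm]; exact Nat.lt_floor_add_one _
        have hm0 : (0:ℝ) < m := by exact_mod_cast hm1
        have hmK : m + 2 ≤ K := by
          have h1 : 1 / x ≤ 2 / ε := by
            rw [div_le_div_iff₀ hxpos hε]
            linarith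
          have h2 : ((m + 2 : ℕ) : ℝ) ≤ K := by
            push_cast
            linarith
          exact_mod_cast h2
        have h8 := hZK (m + 2) (by omega)
        obtain ⟨h1, h2⟩ := expo (k := m + 2) (x := x) (u := u) (c := c) (by omega) (by
            push_cast
            rw [div_le_iff₀ (by linarith)]
            rw [div_lt_iff₀ hxpos] at hm3
            nlinarith) (by
            push_cast
            rw [le_div_iff₀ (by linarith)]
            rw [le_div_iff₀ hxpos] at hm2
            nlinarith) hu0.le (by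
            rw [hc]
            apply one_div_le_one_div_of_le
            · push_cast
              apply mul_pos
              · linarith
              · linarith
            · have e1 : ((m + 2 : ℕ) : ℝ) ≤ K := by exact_mod_cast hmK
              have e2 : (2:ℝ) ^ (m + 2) ≤ 2 ^ K := pow_le_pow_right₀ (by norm_num) hmK
              apply mul_le_mul
              · linarith
              · linarith
              · linarith
              · linarith) huc
        exact huse (m + 2) (by omega) hmK h1 h2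
      · refine huse 2 le_rfl (by omega) ?_ ?_
        · push_cast
          norm_num
          nlinarith
        · push_cast
          norm_num
          nlinarith)
  refine ⟨T0, fun t ht => (hT0 t ht).trans (le_of_eq ?_)⟩
  congr 1
  ring

end Pool.Agent.H606.AV
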