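import Pool.Agent.H606.AV.LFh
import Pool.Agent.H606.AV.LFj

set_option autoImplicit false

/-!
# Project LF (helper606): near `h = 1/2`, at every height, with an explicit range of `h`

`seg_sum'` is an edit of `seg_sum` (`Pool/Agent/H466/LD/L12.lean`, helper466), `off'` of `S_OFF_proof` (`Pool/Agent/H788/AV/Off.lean`, helper788).
-/

open Complex Filter Topology Metric Set MeasureTheory
open scoped ComplexConjugate

namespace Pool.Agent.H606.AV

open Pool.Agent.H466.LD Pool.Agent.H955.AV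
open Pool.Agent.Helper242.KK (FT Ph)
open Pool.Agent.H477.Jen
open Pool.Agent.H477.E Pool.Agent.H477.EU
open Pool.Agent.H477.S (Mt lt Wf ZR)

theorem seg_sum' {ε : ℝ} (hε : 0 < ε) (N0 : ℕ) : ∃ N : ℕ, N0 ≤ N ∧ 1 ≤ N ∧ (N : ℝ) ≤ N0 + 36 / ε ^ 2 + 2 ∧
    (1 - ε) * ((N : ℝ) + 1) ≤ ∑ j ∈ Finset.range N, Real.log (((N : ℝ) + 1) / ((j : ℝ) + 2)) := by
  obtain ⟨N1, hN1d⟩ : ∃ N1 : ℕ, N1 = ⌈36 / ε ^ 2⌉₊ := ⟨_, rfl⟩
  have hN1 : 36 / ε ^ 2 ≤ (N1 : ℝ) := by rw [hN1d]; exact Nat.le_ceil _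
  have hN1u : (N1 : ℝ) ≤ 36 / ε ^ 2 + 1 := by rw [hN1d]; exact (Nat.ceil_lt_add_one (by positivity)).le
  refine ⟨max (max N0 1) N1, (le_max_left _ _).trans (le_max_left _ _),
    (le_max_right _ _).trans (le_max_left _ _), ?_, ?_⟩
  · have h1 : max (max N0 1) N1 ≤ N0 + 1 + N1 := by omega
    have h2 : ((max (max N0 1) N1 : ℕ) : ℝ) ≤ ((N0 + 1 + N1 : ℕ) : ℝ) := by exact_mod_cast h1
    push_cast at h2 ⊢
    linarith
  set N := max (max N0 1) N1 with hN
  have hNN : (N1 : ℝ) ≤ N := by exact_mod_cast le_max_right _ _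
  have hN0 : (0 : ℝ) ≤ N := Nat.cast_nonneg N
  have h1 : ∑ j ∈ Finset.range N, Real.log (((N : ℝ) + 1) / ((j : ℝ) + 2)) =
      N * Real.log ((N : ℝ) + 1) - ∑ j ∈ Finset.range N, Real.log ((j : ℝ) + 2) := by
    have h2 : ∀ j ∈ Finset.range N, Real.log (((N : ℝ) + 1) / ((j : ℝ) + 2)) =
        Real.log ((N : ℝ) + 1) - Real.log ((j : ℝ) + 2) := fun j _ =>
      Real.log_div (by positivity) (by positivity)
    rw [Finset.sum_congr rfl h2, Finset.sum_sub_distrib, Finset.sum_const,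
      Finset.card_range, nsmul_eq_mul]
  rw [h1]
  have h2 := log_fact N
  have h3 : Real.log ((N : ℝ) + 2) ≤ Real.log ((N : ℝ) + 1) + 1 / ((N : ℝ) + 1) := by
    have h4 := Real.log_le_sub_one_of_pos (x := ((N : ℝ) + 2) / (N + 1)) (by positivity)
    rw [Real.log_div (by positivity) (by positivity)] at h4
    have h5 : ((N : ℝ) + 2) / (N + 1) - 1 = 1 / ((N : ℝ) + 1) := by
      field_simp
      ring
    linarith
  have h4 : ((N : ℝ) + 2) * (1 / ((N : ℝ) + 1)) ≤ 2 := by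
    rw [mul_one_div, div_le_iff₀ (by positivity)]
    linarith
  have h5 : ((N : ℝ) + 2) * Real.log ((N : ℝ) + 2) ≤ ((N : ℝ) + 2) * Real.log ((N : ℝ) + 1) + 2 := by
    have := mul_le_mul_of_nonneg_left h3 (by positivity : (0 : ℝ) ≤ N + 2)
    rw [mul_add] at this
    linarith
  have hq : 0 < Real.sqrt ((N : ℝ) + 1) := Real.sqrt_pos.mpr (by positivity)
  have hq2 : Real.sqrt ((N : ℝ) + 1) ^ 2 = N + 1 := Real.sq_sqrt (by positivity)
  have h6 : Real.log ((N : ℝ) + 1) ≤ 2 * (Real.sqrt ((N : ℝ) + 1) - 1) := by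
    have h7 := Real.log_le_sub_one_of_pos hq
    have h8 : Real.log ((N : ℝ) + 1) = 2 * Real.log (Real.sqrt ((N : ℝ) + 1)) := by
      rw [Real.log_sqrt (by positivity)]
      ring
    rw [h8]
    linarith
  have h9 : 6 ≤ ε * Real.sqrt ((N : ℝ) + 1) := by
    have h10 : 36 ≤ ε ^ 2 * (N + 1) := by
      have := hN1.trans hNN
      rw [div_le_iff₀ (by positivity)] at this
      nlinarith [sq_nonneg ε]
    have h11 : 6 ^ 2 ≤ (ε * Real.sqrt ((N : ℝ) + 1)) ^ 2 := by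
      rw [mul_pow, hq2]
      linarith
    exact (pow_le_pow_iff_left₀ (by norm_num) (by positivity) two_ne_zero).mp h11
  have h12 : 6 * Real.sqrt ((N : ℝ) + 1) ≤ ε * ((N : ℝ) + 1) := by
    calc 6 * Real.sqrt ((N : ℝ) + 1) ≤ (ε * Real.sqrt ((N : ℝ) + 1)) * Real.sqrt ((N : ℝ) + 1) := by
          gcongr
      _ = ε * Real.sqrt ((N : ℝ) + 1) ^ 2 := by ring
      _ = _ := by rw [hq2]
  nlinarith

/-- `S_OFF` with a lower bound for `r` -/
theorem off' {ε : ℝ} (hε : 0 < ε) (hε1 : ε ≤ 1) : ∀ r1 : ℝ, 0 < r1 → ∃ r : ℝ, 0 < r ∧ r ≤ r1 ∧ r ≤ 1 / 20 ∧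
  1 / r ≤ 1 / r1 + 24 + 8 / ε + 9216 / ε ^ 2 ∧
  ∀ (F : ℂ → ℂ) (ℒ Γ : ℝ), Differentiable ℂ F → 1 ≤ ℒ → 0 < Γ →
  (∀ z : ℂ, |z.re| ≤ 5 / 2 → |z.im| ≤ 5 / 2 → ‖F z‖ ≤ Γ * Real.exp (ℒ * (|z.re| + ε / 16 * r))) →
  (∀ τ : ℝ, |τ| ≤ 2 →
    (∃ w0 : ℂ, r / 4 ≤ w0.re ∧ |w0.im| ≤ r / 4 ∧ ‖w0‖ ≤ r ∧ Γ * Real.exp (ℒ * (w0.re - ε / 16 * r)) ≤ ‖F ((τ : ℂ) * I + w0)‖) ∧
    ∃ S : Finset ℝ, (∀ y ∈ S, τ - r < y ∧ y < τ + r ∧ F ((y : ℂ) * I) = 0) ∧ (1 - ε / 16) * (2 * ℒ * r / Real.pi) ≤ (S.card : ℝ)) →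
  (∀ S : Finset ℂ, (∀ z ∈ S, F z = 0 ∧ |z.re| ≤ 1 / 2 ∧ |z.im| ≤ 1 / 4) →
    ∑ z ∈ S, ((analyticOrderNatAt F z : ℝ) - if z.re = 0 then 1 else 0) ≤ ε * ℒ) ∧
  ∃ S : Finset ℝ, (∀ y ∈ S, -(1 / 4) < y ∧ y < 1 / 4 ∧ F ((y : ℂ) * I) = 0) ∧ (1 - ε) * (ℒ / (2 * Real.pi)) ≤ (S.card : ℝ) := by
  obtain ⟨ε', hε'⟩ : ∃ ε' : ℝ, ε' = ε / 16 := ⟨_, rfl⟩
  rw [← hε']
  have hε'0 : 0 < ε' := by rw [hε']; positivity
  have hε'1 : ε' ≤ 1 := by rw [hε']; linarith
  have hε'2 : ε' * 16 ≤ ε := by rw [hε']; linarith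
  intro r1 hr1
  set r2 : ℝ := min (min r1 (1 / 20)) (ε / 8) with hr2
  have hr20 : 0 < r2 := lt_min (lt_min hr1 (by norm_num)) (by positivity)
  obtain ⟨N, hN0, hN1, hNu, hNs⟩ := seg_sum' hε'0 ⌈1 / r2⌉₊
  have hNr : (0 : ℝ) < N + 1 := by positivity
  have hr0 : (0 : ℝ) < 1 / ((N : ℝ) + 1) := by positivity
  have hrr : 1 / ((N : ℝ) + 1) ≤ r2 := by
    rw [div_le_iff₀ (by positivity)]
    have h1 : 1 / r2 ≤ N := (Nat.le_ceil _).trans (by exact_mod_cast hN0)
    rw [div_le_iff₀ (by positivity)] at h1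
    nlinarith
  have hrr1 : 1 / ((N : ℝ) + 1) ≤ r1 := hrr.trans ((min_le_left _ _).trans (min_le_left _ _))
  have hrr2 : 1 / ((N : ℝ) + 1) ≤ 1 / 20 := hrr.trans ((min_le_left _ _).trans (min_le_right _ _))
  have hrr3 : 1 / ((N : ℝ) + 1) ≤ ε / 8 := hrr.trans (min_le_right _ _)
  have hRr : (2 : ℝ) = 2 * ((N : ℝ) + 1) * (1 / ((N : ℝ) + 1)) := by
    field_simp
  have hbd : 1 / (1 / ((N : ℝ) + 1)) ≤ 1 / r1 + 24 + 8 / ε + 9216 / ε ^ 2 := by
    rw [one_div_one_div]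
    have k1 : ((⌈1 / r2⌉₊ : ℕ) : ℝ) ≤ 1 / r2 + 1 := (Nat.ceil_lt_add_one (by positivity)).le
    have k2 : 1 / r2 ≤ 1 / r1 + 20 + 8 / ε := by
      have p1 : 0 < 1 / r1 := by positivity
      have p2 : 0 < 8 / ε := by positivity
      rcases min_choice (min r1 (1 / 20)) (ε / 8) with h | h
      · rcases min_choice r1 (1 / 20) with h' | h'
        · rw [hr2, h, h']; linarith
        · have p3 : (1 : ℝ) / (1 / 20) = 20 := by norm_num
          rw [hr2, h, h', p3]; linarith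
      · rw [hr2, h, one_div_div]; linarith
    have k3 : 36 / ε' ^ 2 = 9216 / ε ^ 2 := by
      rw [hε']
      field_simp
      norm_num
    rw [k3] at hNu
    linarith
  refine ⟨1 / ((N : ℝ) + 1), hr0, hrr1, hrr2, hbd, ?_⟩
  intro F ℒ Γ hFd hℒ hΓ hup hτ
  refine ⟨?_, ?_⟩
  · intro S hS
    exact Pool.Agent.H788.AV.off_few (T := 0) hFd hℒ hΓ hε'0 hε'1 hε'2 hNs hr0 hrr2 hRr
      (fun z h1 h2 => hup z h1 (by rwa [sub_zero] at h2))
      (fun τ h => hτ τ (by rwa [sub_zero] at h)) S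
      (fun z hz => by
        rw [sub_zero]
        exact hS z hz)
  · exact Pool.Agent.H788.AV.off_line hℒ hr0 hε'1 (by linarith) hrr3 hrr2
      (fun τ h => (hτ τ h).2)


/-- nearly all zeros of the average are simple and real, `h'` close to `1/2` -/
theorem near1x {ε : ℝ} (hε : 0 < ε) (hε1 : ε ≤ 1) : ∀ r1 : ℝ, 0 < r1 → ∃ r lam0 : ℝ, 0 < r ∧ r ≤ r1 ∧ r ≤ 1 / 20 ∧
    1 / r ≤ 1 / r1 + 24 + 8 / ε + 9216 / ε ^ 2 ∧ 1 ≤ lam0 ∧
    ∀ (f : ℂ → ℂ) (M lam h h' : ℝ), 0 < M → lam0 ≤ lam → 0 ≤ h → h + 13 * r ≤ h' → 1 / 2 - r / 4 ≤ h' → h' ≤ 1 / 2 → LH f M lam h (r / 4) (ε / 16 * r / 100) →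
    (∀ S : Finset ℂ, (∀ z ∈ S, Av f h' (-(I * z)) = 0 ∧ |z.re| ≤ 1 / 2 ∧ |z.im| ≤ 1 / 4) →
      ∑ z ∈ S, ((analyticOrderNatAt (fun z => Av f h' (-(I * z))) z : ℝ) - if z.re = 0 then 1 else 0) ≤ ε * lam) ∧
    ∃ S : Finset ℝ, (∀ y ∈ S, -(1 / 4) < y ∧ y < 1 / 4 ∧ Av f h' (-(I * ((y : ℂ) * I))) = 0) ∧ (1 - ε) * (lam / (2 * Real.pi)) ≤ (S.card : ℝ) := by
  intro r1 hr1
  obtain ⟨r, hr, hra, hrb, hrl, HO2⟩ := off' hε hε1 r1 hr1
  obtain ⟨lam0, hl, HS2⟩ := seg2 (ε := ε / 16) (by positivity) (by linarith) hr hrb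
  refine ⟨r, lam0, hr, hra, hrb, hrl, hl, fun f M lam h h' hM hlam hh0 hh1 hhr hh2 hLH => ?_⟩
  obtain ⟨c1, c2⟩ := HS2 f M lam h h' hM hlam hh0 hh1 hhr hh2 hLH
  have hd : Differentiable ℂ (fun z : ℂ => Av f h' (-(I * z))) := by
    unfold Av
    have := hLH.lb.diff
    intro z
    exact ((this _).comp z (by fun_prop)).add ((this _).comp z (by fun_prop))
  exact HO2 (fun z => Av f h' (-(I * z))) lam (M * Real.exp (lam * h')) hd (hl.trans hlam) (mul_pos hM (Real.exp_pos _)) c1 c2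

/-- near every height nearly all zeros of the averages close to `h' = 1/2` are simple and on the line, unconditionally -/
theorem near2x (hG : S_GLOB) {ε : ℝ} (hε : 0 < ε) (hε1 : ε ≤ 1) :
    ∃ ρ T0 : ℝ, 0 < ρ ∧ ρ ≤ 1 / 8 ∧ Real.exp (-(100000000 / ε)) ≤ ρ ∧ 1 ≤ T0 ∧ ∀ t : ℝ, T0 ≤ t → ∀ h' : ℝ, 1 / 2 - ρ ≤ h' → h' ≤ 1 / 2 →
    (∀ S : Finset ℂ, (∀ s ∈ S, A h' s = 0 ∧ 0 ≤ s.re ∧ s.re ≤ 1 ∧ |s.im - t| ≤ 1 / 4) →
      ∑ s ∈ S, ((analyticOrderNatAt (A h') s : ℝ) - if s.re = 1 / 2 then 1 else 0) ≤ ε * Real.log t) ∧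
    ∃ S : Finset ℝ, (∀ y ∈ S, t - 1 / 4 < y ∧ y < t + 1 / 4 ∧ A h' (1 / 2 + I * y) = 0) ∧ (1 - ε) * (Real.log t / (4 * Real.pi)) ≤ (S.card : ℝ) := by
  classical
  obtain ⟨ε', hε'd⟩ : ∃ ε' : ℝ, ε' = ε / 2 / 16 := ⟨_, rfl⟩
  have hε'0 : 0 < ε' := by rw [hε'd]; positivity
  have hε'1 : ε' ≤ 1 := by rw [hε'd]; linarith
  have H0 := near1x (ε := ε / 2) (by positivity) (by linarith)
  rw [← hε'd] at H0
  -- zeta near the line of real part one
  obtain ⟨e, he⟩ : ∃ e : ℝ, e = ε' / 100000 := ⟨_, rfl⟩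
  have he0 : 0 < e := by rw [he]; positivity
  have he1 : e ≤ 1 := by rw [he]; linarith
  obtain ⟨u1, hu1, hu1', hu1l, hu⟩ := near_one' he0 he1
  obtain ⟨r, lam0, hr, hrr, hr20, hrl, hl, H⟩ := H0 (u1 / 14) (by positivity)
  have hrlow : Real.exp (-(100000000 / ε)) ≤ r / 4 := by
    obtain ⟨x, hx⟩ : ∃ x : ℝ, x = 1 / ε := ⟨_, rfl⟩
    have hx1 : 1 ≤ x := by
      rw [hx, le_div_iff₀ hε]
      linarith
    have e1 : 100000000 / ε = 22400000 * x + 77600000 * x := by rw [hx]; ring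
    have e2 : 7 / e = 22400000 * x := by
      rw [he, hε'd, hx]
      field_simp
      norm_num
    obtain ⟨E, hE⟩ : ∃ E : ℝ, E = Real.exp (22400000 * x) := ⟨_, rfl⟩
    have hE1 : 1 ≤ E := by rw [hE]; exact Real.one_le_exp (by positivity)
    have e3 : 1 / u1 ≤ E := by
      rw [e2, Real.exp_neg] at hu1l
      rw [hE, one_div]
      rw [← inv_inv (Real.exp (22400000 * x))]
      exact inv_anti₀ (by positivity) hu1l
    have e4 : 1 / (u1 / 14) = 14 * (1 / u1) := by rw [one_div_div]; ring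
    have e5 : 8 / (ε / 2) = 16 * x := by rw [hx]; field_simp; norm_num
    have e6 : 9216 / (ε / 2) ^ 2 = 36864 * x ^ 2 := by rw [hx]; field_simp; norm_num
    rw [e4, e5, e6] at hrl
    have e7 := Real.quadratic_le_exp_of_nonneg (show 0 ≤ 77600000 * x by positivity)
    have e8 : 4 * (14 * E + 24 + 16 * x + 36864 * x ^ 2) ≤ E * Real.exp (77600000 * x) := by
      have e9 : 4 * (14 * E + 24 + 16 * x + 36864 * x ^ 2) ≤ E * (4 * (14 + 24 + 16 * x + 36864 * x ^ 2)) := by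
        have p1 : 0 ≤ 24 + 16 * x + 36864 * x ^ 2 := by positivity
        nlinarith
      refine e9.trans (mul_le_mul_of_nonneg_left (le_trans ?_ e7) (by linarith))
      nlinarith
    have e10 : 1 / (r / 4) ≤ E * Real.exp (77600000 * x) := by
      have : 1 / (r / 4) = 4 * (1 / r) := by rw [one_div_div]; ring
      rw [this]
      refine le_trans ?_ e8
      linarith
    have e11 : Real.exp (100000000 / ε) = E * Real.exp (77600000 * x) := by
      rw [e1, Real.exp_add, hE]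
    rw [Real.exp_neg, e11]
    have e12 : 0 < E * Real.exp (77600000 * x) := by positivity
    rw [one_div] at e10
    have := inv_anti₀ (by positivity) e10
    rwa [inv_inv] at this
  obtain ⟨u, hud⟩ : ∃ u : ℝ, u = 14 * r := ⟨_, rfl⟩
  have hu0 : 0 < u := by rw [hud]; positivity
  have huu : u ≤ u1 := by rw [hud]; linarith
  obtain ⟨T3, hT3⟩ := hu u hu0 huu
  obtain ⟨h, hh⟩ : ∃ h : ℝ, h = 1 / 2 - u := ⟨_, rfl⟩
  have h0 : 0 < h := by rw [hh]; linarith
  have h1 : h < 1 / 2 := by rw [hh]; linarith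
  have hη : 0 < ε' * r / 100 := by positivity
  have hη1 : ε' * r / 100 ≤ 1 := by
    have : ε' * r ≤ 1 * 1 := mul_le_mul hε'1 (by linarith) hr.le zero_le_one
    linarith
  obtain ⟨T1, hT1, H1⟩ := lhx' hG h0 h1 (show 0 < r / 4 by positivity) hη hη1
  obtain ⟨T2, hT2⟩ := lt_large lam0
  refine ⟨r / 4, max (max (max T1 T2) (Real.exp (4 / ε))) (max (2 * T3) 4), by positivity, by linarith, hrlow,
    hT1.trans ((le_max_left _ _).trans ((le_max_left _ _).trans (le_max_left _ _))), fun t ht h' h2 h3 => ?_⟩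
  have a1 : T1 ≤ t := ((le_max_left _ _).trans ((le_max_left _ _).trans (le_max_left _ _))).trans ht
  have a2 : T2 ≤ t := ((le_max_right _ _).trans ((le_max_left _ _).trans (le_max_left _ _))).trans ht
  have a4 : Real.exp (4 / ε) ≤ t := ((le_max_right _ _).trans (le_max_left _ _)).trans ht
  have a5 : 2 * T3 ≤ t := ((le_max_left _ _).trans (le_max_right _ _)).trans ht
  have a6 : 4 ≤ t := ((le_max_right _ _).trans (le_max_right _ _)).trans ht
  have hz : ∀ x : ℝ, |x - t| ≤ Real.log t → ‖riemannZeta (1 / 2 + h + I * x)‖ ≤ t ^ (ε' * r / 100 / 32) := by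
    intro x hx
    have hlog2 : Real.log t ≤ t / 2 := by
      have b1 : Real.log t = Real.log 2 + Real.log (t / 2) := by
        rw [← Real.log_mul (by norm_num) (by positivity)]
        congr 1
        ring
      have b2 := Real.log_le_sub_one_of_pos (by positivity : 0 < t / 2)
      have b3 := Real.log_two_lt_d9
      linarith
    have hx' := abs_le.1 hx
    have x1 : T3 ≤ x := by linarith
    have x2 : x ≤ t ^ (2 : ℝ) := by
      rw [Real.rpow_two]
      nlinarith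
    have x0 : 0 ≤ x := by linarith
    have b4 := hT3 x x1
    have b5 : (1 / 2 : ℂ) + h + I * x = ((1 - u : ℝ) : ℂ) + x * I := by
      rw [hh]
      push_cast
      ring
    rw [b5]
    refine b4.trans ((Real.rpow_le_rpow x0 x2 (by positivity)).trans ?_)
    rw [← Real.rpow_mul (by linarith)]
    apply Real.rpow_le_rpow_of_exponent_le (by linarith)
    rw [he, hud]
    have b6 : 0 < ε' * r := by positivity
    nlinarith
  have t1 : 1 ≤ t := hT1.trans a1
  have ht0 : 0 < t := by linarith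
  obtain ⟨hM, hLH⟩ := H1 t a1 hz
  obtain ⟨k1, S', k2, k3⟩ := H (fun v : ℂ => FT Ph (t + v)) (Mt t) (lt t) h h' hM (hT2 t a2) h0.le (by rw [hh, hud]; linarith) h2 h3 hLH
  have hle := Pool.Agent.H477.S.lt_le t1
  have hge := Pool.Agent.H477.S.lt_ge t1
  have hlog0 : 0 ≤ Real.log t := Real.log_nonneg t1
  have hlog : 4 / ε ≤ Real.log t := by
    rw [Real.le_log_iff_exp_le ht0]
    exact a4
  have h9 : 4 ≤ ε * Real.log t := by
    rw [div_le_iff₀ hε] at hlog
    linarith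
  constructor
  · intro S hS
    have key := k1 (S.image (fun s => s - (1 / 2 + I * t))) (by
      intro z hz
      rw [Finset.mem_image] at hz
      obtain ⟨s, hs, rfl⟩ := hz
      obtain ⟨b1, b2, b3, b4⟩ := hS s hs
      have e1 : Av (fun v : ℂ => FT Ph (t + v)) h' (-(I * (s - (1 / 2 + I * t)))) =
        A h' ((1 / 2 + I * t) + 1 * (s - (1 / 2 + I * t))) := congrFun (loc_fun h' t) (s - (1 / 2 + I * t))
      have e2 : (1 / 2 + I * (t : ℂ)) + 1 * (s - (1 / 2 + I * t)) = s := by ring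
      rw [e2] at e1
      have e3 : (s - (1 / 2 + I * t)).re = s.re - 1 / 2 := by simp
      have e4 : (s - (1 / 2 + I * t)).im = s.im - t := by simp
      refine ⟨by rw [e1, b1], ?_, ?_⟩
      · rw [e3, abs_le]
        constructor <;> linarith
      · rw [e4]
        exact b4)
    rw [Finset.sum_image (fun a _ b _ h => by simpa using h)] at key
    have hsum : ∑ x ∈ S, ((analyticOrderNatAt (fun z : ℂ => Av (fun v : ℂ => FT Ph (t + v)) h' (-(I * z))) (x - (1 / 2 + I * t)) : ℝ) -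
        if (x - (1 / 2 + I * t)).re = 0 then 1 else 0) = ∑ s ∈ S, ((analyticOrderNatAt (A h') s : ℝ) - if s.re = 1 / 2 then 1 else 0) := by
      refine Finset.sum_congr rfl fun s _ => ?_
      rw [order_loc]
      have e2 : (1 / 2 + I * (t : ℂ)) + (s - (1 / 2 + I * t)) = s := by ring
      rw [e2]
      have e3 : (s - (1 / 2 + I * t)).re = s.re - 1 / 2 := by simp
      rw [e3]
      simp only [sub_eq_zero]
    rw [hsum] at key
    refine key.trans ?_
    have := mul_le_mul_of_nonneg_left hle (show 0 ≤ ε / 2 by positivity)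
    have h5 : 0 ≤ ε * Real.log t := mul_nonneg hε.le hlog0
    linarith
  · refine ⟨S'.image (fun y => t + y), ?_, ?_⟩
    · intro y hy
      rw [Finset.mem_image] at hy
      obtain ⟨x, hx, rfl⟩ := hy
      obtain ⟨b1, b2, b3⟩ := k2 x hx
      refine ⟨by linarith, by linarith, ?_⟩
      have e1 : Av (fun v : ℂ => FT Ph (t + v)) h' (-(I * ((x : ℂ) * I))) =
        A h' ((1 / 2 + I * t) + 1 * ((x : ℂ) * I)) := congrFun (loc_fun h' t) ((x : ℂ) * I)
      rw [e1] at b3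
      rw [← b3]
      congr 1
      push_cast
      ring
    · rw [Finset.card_image_of_injective _ (add_right_injective t)]
      refine le_trans ?_ k3
      have hπ := Real.pi_pos
      have e5 : lt t / (2 * Real.pi) = (2 * lt t) / (4 * Real.pi) := by
        rw [div_eq_div_iff (by positivity) (by positivity)]
        ring
      rw [e5, ← mul_div_assoc, ← mul_div_assoc]
      apply div_le_div_of_nonneg_right _ (by positivity)
      have h6 : (1 - ε / 2) * (Real.log t - 2) ≤ (1 - ε / 2) * (2 * lt t) :=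
        mul_le_mul_of_nonneg_left (by linarith) (by linarith)
      refine le_trans ?_ h6
      have h7 : (1 - ε / 2) * (Real.log t - 2) = (1 - ε) * Real.log t + (ε / 2 * Real.log t - 2 + ε) := by ring
      rw [h7]
      linarith



/-- unconditional, at every height, with an explicit range of `h` -/
theorem every_height_x (hG : S_GLOB) : ∃ C : ℝ, 0 < C ∧ ∀ ε : ℝ, 0 < ε → ε ≤ 1 → ∃ T₀ : ℝ, ∀ T : ℝ, T₀ ≤ T → ∀ h' : ℝ,
    1 / 2 - Real.exp (-(C / ε)) ≤ h' → h' ≤ 1 / 2 → NearlyAll h' T ε := by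
  classical
  refine ⟨3200000000, by norm_num, fun ε hε hε1 => ?_⟩
  obtain ⟨e, he⟩ : ∃ e : ℝ, e = ε / 32 := ⟨_, rfl⟩
  have he0 : 0 < e := by rw [he]; positivity
  have he1 : 32 * e ≤ ε := by rw [he]; linarith
  have he2 : 32 * e ≤ 1 := by rw [he]; linarith
  obtain ⟨ρ, T1, hρ, hρ1, hρl, hT1, H⟩ := near2x hG (ε := e) he0 (by linarith)
  have hce : 100000000 / e = 3200000000 / ε := by
    rw [he]
    field_simp
    norm_num
  rw [hce] at hρl
  refine ⟨max T1 (Real.exp 2), fun T hT h' h3a h4 => ?_⟩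
  have h3 : 1 / 2 - ρ ≤ h' := by linarith
  have a1 : T1 ≤ T := (le_max_left _ _).trans hT
  have a2 : Real.exp 2 ≤ T := (le_max_right _ _).trans hT
  have t1 : 1 ≤ T := hT1.trans a1
  have hT0 : 0 < T := by linarith
  have hlog2 : 2 ≤ Real.log T := by
    rw [Real.le_log_iff_exp_le hT0]
    exact a2
  have hlT1 : Real.log (T + 1) ≤ Real.log T + 1 := by
    have h50 : 0 < 1 + 1 / T := by
      have := div_pos one_pos hT0
      linarith
    have h5 : Real.log (T + 1) = Real.log T + Real.log (1 + 1 / T) := by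
      rw [← Real.log_mul hT0.ne' h50.ne']
      congr 1
      field_simp
    have h6 := Real.log_le_sub_one_of_pos h50
    have h7 : 1 / T ≤ 1 := by
      rw [div_le_iff₀ hT0]
      linarith
    linarith
  have hc : ∀ c : ℝ, T ≤ c → c ≤ T + 3 / 4 → Real.log c ≤ Real.log T + 1 ∧ Real.log T ≤ Real.log c := by
    intro c c1 c2
    have c3 : Real.log c ≤ Real.log (T + 1) := Real.log_le_log (by linarith) (by linarith)
    have c4 : Real.log T ≤ Real.log c := Real.log_le_log hT0 c1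
    exact ⟨c3.trans hlT1, c4⟩
  obtain ⟨l1, l1'⟩ := hc (T + 1 / 4) (by linarith) (by linarith)
  obtain ⟨l2, l2'⟩ := hc (T + 3 / 4) (by linarith) le_rfl
  obtain ⟨p1, S1, q1, q1'⟩ := H (T + 1 / 4) (by linarith) h' h3 h4
  obtain ⟨p2, S2, q2, q2'⟩ := H (T + 3 / 4) (by linarith) h' h3 h4
  have hsum : ∀ S : Finset ℂ, (∀ s ∈ S, A h' s = 0 ∧ 0 < s.re ∧ s.re < 1 ∧ T ≤ s.im ∧ s.im ≤ T + 1) →
      ∑ s ∈ S, ((analyticOrderNatAt (A h') s : ℝ) - if s.re = 1 / 2 then 1 else 0) ≤ 3 * e * Real.log T := by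
    intro S hS
    rw [← Finset.sum_filter_add_sum_filter_not S (fun s => s.im ≤ T + 1 / 2)]
    have k1 := p1 (S.filter (fun s => s.im ≤ T + 1 / 2)) (by
      intro s hs
      rw [Finset.mem_filter] at hs
      obtain ⟨b1, b2, b3, b4, b5⟩ := hS s hs.1
      refine ⟨b1, b2.le, b3.le, ?_⟩
      rw [abs_le]
      constructor <;> linarith [hs.2])
    have k2 := p2 (S.filter (fun s => ¬ s.im ≤ T + 1 / 2)) (by
      intro s hs
      rw [Finset.mem_filter] at hs
      obtain ⟨b1, b2, b3, b4, b5⟩ := hS s hs.1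
      have b6 := not_le.1 hs.2
      refine ⟨b1, b2.le, b3.le, ?_⟩
      rw [abs_le]
      constructor <;> linarith)
    have k3 : e * Real.log (T + 1 / 4) ≤ e * (Real.log T + 1) := mul_le_mul_of_nonneg_left l1 he0.le
    have k4 : e * Real.log (T + 3 / 4) ≤ e * (Real.log T + 1) := mul_le_mul_of_nonneg_left l2 he0.le
    have k5 : e * 2 ≤ e * Real.log T := mul_le_mul_of_nonneg_left hlog2 he0.le
    linarith
  have hlT0 : 0 ≤ Real.log T := by linarith
  refine ⟨fun S hS => (hsum S hS).trans ?_, ?_⟩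
  · exact mul_le_mul_of_nonneg_right (by linarith) hlT0
  · obtain ⟨C, hC⟩ := A_ne hG (show 0 < h' by linarith) h4
    have hAd := A_diff h'
    have hsw : ∀ y : ℝ, (1 / 2 : ℂ) + y * I = 1 / 2 + I * y := fun y => by rw [mul_comm]
    have hSz : ∀ y ∈ S1 ∪ S2, T < y ∧ y < T + 1 ∧ A h' (1 / 2 + y * I) = 0 := by
      intro y hy
      rcases Finset.mem_union.1 hy with hy | hy
      · obtain ⟨b1, b2, b3⟩ := q1 y hy
        exact ⟨by linarith, by linarith, by rw [hsw]; exact b3⟩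
      · obtain ⟨b1, b2, b3⟩ := q2 y hy
        exact ⟨by linarith, by linarith, by rw [hsw]; exact b3⟩
    have hdisj : Disjoint S1 S2 := by
      rw [Finset.disjoint_left]
      intro y b1 b2
      have b3 := (q1 y b1).2.1
      have b4 := (q2 y b2).1
      linarith
    refine ⟨(S1 ∪ S2).filter (fun y : ℝ => deriv (A h') (1 / 2 + y * I) ≠ 0), ?_, ?_⟩
    · intro y hy
      rw [Finset.mem_filter] at hy
      obtain ⟨b1, b2, b3⟩ := hSz y hy.1
      exact ⟨b1, b2, b3, hy.2⟩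
    · -- the multiple zeros
      have hinj : Function.Injective (fun y : ℝ => (1 / 2 : ℂ) + y * I) := by
        intro x y hxy
        have h5 : (1 / 2 : ℂ) + x * I = 1 / 2 + y * I := hxy
        have h6 := mul_right_cancel₀ I_ne_zero (add_left_cancel h5)
        exact_mod_cast h6
      have hD := hsum (((S1 ∪ S2).filter (fun y : ℝ => ¬ deriv (A h') (1 / 2 + y * I) ≠ 0)).image (fun y : ℝ => (1 / 2 : ℂ) + y * I)) (by
        intro s hs
        rw [Finset.mem_image] at hs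
        obtain ⟨y, hy, rfl⟩ := hs
        rw [Finset.mem_filter] at hy
        obtain ⟨b1, b2, b3⟩ := hSz y hy.1
        refine ⟨b3, ?_, ?_, ?_, ?_⟩
        · simp
        · simp; norm_num
        · simp; linarith
        · simp; linarith)
      rw [Finset.sum_image (fun a _ b _ hab => hinj hab)] at hD
      have hD2 : (((S1 ∪ S2).filter (fun y : ℝ => ¬ deriv (A h') (1 / 2 + y * I) ≠ 0)).card : ℝ) ≤
          ∑ y ∈ (S1 ∪ S2).filter (fun y : ℝ => ¬ deriv (A h') (1 / 2 + y * I) ≠ 0),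
            ((analyticOrderNatAt (A h') ((1 / 2 : ℂ) + y * I) : ℝ) - if ((1 / 2 : ℂ) + y * I).re = 1 / 2 then 1 else 0) := by
        rw [Finset.card_eq_sum_ones]
        push_cast
        refine Finset.sum_le_sum fun y hy => ?_
        rw [Finset.mem_filter, not_not] at hy
        have b := order_ge_two hAd hC (hSz y hy.1).2.2 hy.2
        have b' : (2 : ℝ) ≤ (analyticOrderNatAt (A h') ((1 / 2 : ℂ) + y * I) : ℝ) := by exact_mod_cast b
        split_ifs <;> linarith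
      have hcard : (((S1 ∪ S2).filter (fun y : ℝ => deriv (A h') (1 / 2 + y * I) ≠ 0)).card : ℝ) +
          (((S1 ∪ S2).filter (fun y : ℝ => ¬ deriv (A h') (1 / 2 + y * I) ≠ 0)).card : ℝ) = (S1.card : ℝ) + S2.card := by
        have h5 := Finset.card_filter_add_card_filter_not (s := S1 ∪ S2) (fun y : ℝ => deriv (A h') (1 / 2 + y * I) ≠ 0)
        rw [Finset.card_union_of_disjoint hdisj] at h5
        exact_mod_cast h5
      have hπ := Real.pi_pos
      have hπ4 := Real.pi_lt_four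
      have m1 : (1 - e) * (Real.log T / (4 * Real.pi)) ≤ (S1.card : ℝ) := by
        refine le_trans ?_ q1'
        apply mul_le_mul_of_nonneg_left _ (by linarith)
        exact div_le_div_of_nonneg_right l1' (by positivity)
      have m2 : (1 - e) * (Real.log T / (4 * Real.pi)) ≤ (S2.card : ℝ) := by
        refine le_trans ?_ q2'
        apply mul_le_mul_of_nonneg_left _ (by linarith)
        exact div_le_div_of_nonneg_right l2' (by positivity)
      have e5 : Real.log T / (2 * Real.pi) = 2 * (Real.log T / (4 * Real.pi)) := by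
        field_simp
        ring
      have e6 : Real.log T = 4 * Real.pi * (Real.log T / (4 * Real.pi)) := by
        field_simp
      obtain ⟨L, hL⟩ : ∃ L : ℝ, L = Real.log T / (4 * Real.pi) := ⟨_, rfl⟩
      rw [← hL] at m1 m2 e5 e6
      have hL0 : 0 ≤ L := by rw [hL]; positivity
      rw [e5]
      have hD3 := hD2.trans hD
      rw [e6] at hD3
      have e7 : 3 * e * (4 * Real.pi * L) ≤ 3 * e * (16 * L) := by
        apply mul_le_mul_of_nonneg_left _ (by linarith)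
        exact mul_le_mul_of_nonneg_right (by linarith) hL0
      have e8 : 32 * e * L ≤ ε * L := mul_le_mul_of_nonneg_right he1 hL0
      linarith



end Pool.Agent.H606.AV
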